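import Mathlib

/-!
Project VK (helper957): a crude Vinogradov mean value theorem with constants `exp (poly (r, m))`, the resulting
bound for `∑ n^{-it}` for `|t| = N^κ`, a zero free region of the zeta function of width `(log T)^{δ-1}`, and
`∑_{n ≤ N} μ(n) n^{-iτ} ≪ N / (log N)^K` uniformly for `|τ| ≤ N^A`.

Definitions and statements of the steps.
-/

set_option autoImplicit false

namespace Pool.Agent.Y957.VK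

open Finset Filter

/-- the tuples of length `s` with entries in `[1, X]` -/
def Tu (s X : ℕ) : Finset (Fin s → ℕ) := Fintype.piFinset fun _ => Finset.Icc 1 X

/-- Vinogradov's mean value: the number of solutions of `∑ x_i^j = ∑ y_i^j`, `1 ≤ j ≤ r`, with `s` variables
in `[1, X]` on each side -/
def J (s r X : ℕ) : ℕ :=
  ((Tu s X ×ˢ Tu s X).filter fun z => ∀ j ∈ Finset.Icc 1 r, ∑ i, z.1 i ^ j = ∑ i, z.2 i ^ j).card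

/-- the mixed count with `r` variables on each side which are distinct modulo `p` -/
def BB (s r p X : ℕ) : ℕ :=
  (((Tu r X ×ˢ Tu r X) ×ˢ (Tu s X ×ˢ Tu s X)).filter fun z =>
    (∀ i j, i ≠ j → z.1.1 i % p ≠ z.1.1 j % p) ∧ (∀ i j, i ≠ j → z.1.2 i % p ≠ z.1.2 j % p) ∧
    ∀ j ∈ Finset.Icc 1 r, ∑ i, z.1.1 i ^ j + ∑ i, z.2.1 i ^ j = ∑ i, z.1.2 i ^ j + ∑ i, z.2.2 i ^ j).card

/-- (1) Linnik's lemma -/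
def S_LIN : Prop := ∀ r p X : ℕ, 1 ≤ r → p.Prime → r < p → X ≤ p ^ r → ∀ (a : ℤ) (c : ℕ → ℤ),
  ((Tu r X).filter fun x => (∀ i j, i ≠ j → x i % p ≠ x j % p) ∧
    ∀ j ∈ Finset.Icc 1 r, (p : ℤ) ^ j ∣ ∑ i, ((x i : ℤ) - a) ^ j - c j).card ≤
  r.factorial * p ^ (r * (r - 1) / 2)

/-- (2) the recursion -/
def S_REC : Prop := ∀ s r p X : ℕ, 1 ≤ r → p.Prime → r < p → X ≤ p ^ r →
  BB s r p X ≤ p ^ (2 * s) * (r.factorial * p ^ (r * (r - 1) / 2) * X ^ r * J s r (X / p + 1))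

/-- the mixed count in which the other `2 s` variables are all congruent to `a` modulo `p` -/
def BA (s r p X a : ℕ) : ℕ :=
  (((Tu r X ×ˢ Tu r X) ×ˢ (Tu s X ×ˢ Tu s X)).filter fun z =>
    ((∀ i j, i ≠ j → z.1.1 i % p ≠ z.1.1 j % p) ∧ (∀ i j, i ≠ j → z.1.2 i % p ≠ z.1.2 j % p) ∧
    (∀ i, z.2.1 i % p = a) ∧ (∀ i, z.2.2 i % p = a)) ∧
    ∀ j ∈ Finset.Icc 1 r, ∑ i, z.1.1 i ^ j + ∑ i, z.2.1 i ^ j = ∑ i, z.1.2 i ^ j + ∑ i, z.2.2 i ^ j).card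

/-- (2a) Hoelder's inequality -/
def S_HOL : Prop := ∀ s r p X : ℕ, 1 ≤ s → 1 ≤ r → p.Prime →
  BB s r p X ≤ p ^ (2 * s - 1) * ∑ a ∈ Finset.range p, BA s r p X a

/-- (2b) counting -/
def S_CNT : Prop := ∀ s r p X a : ℕ, 1 ≤ r → p.Prime → r < p → X ≤ p ^ r → a < p →
  BA s r p X a ≤ r.factorial * p ^ (r * (r - 1) / 2) * X ^ r * J s r (X / p + 1)

/-- (3) conditioning -/
def S_COND : Prop := ∀ s r X : ℕ, 2 ≤ r → 1 ≤ X → ∀ P : Finset ℕ, (∀ p ∈ P, p.Prime) →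
  X ^ (r * r) < ∏ p ∈ P, p →
  J (s + r) r X ≤ (P.card + 1) * ((r ^ (s + r) * X ^ (r - 1)) ^ 2 +
    ∑ p ∈ P, ((s + r).choose r) ^ 2 * BB s r p X)

/-- (4) the mean value theorem -/
def S_VMVT : Prop := ∃ C : ℕ, ∀ r m X : ℕ, 2 ≤ r → 1 ≤ X →
  (J (r ^ 2 + r * m) r X : ℝ) ≤ Real.exp (C * ((r : ℝ) + m) ^ C) *
    (X : ℝ) ^ (2 * ((r : ℝ) ^ 2 + r * m) - r * (r + 1) / 2 + r * (r + 1) / 2 * (1 - 1 / (r : ℝ)) ^ m : ℝ)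

/-- distance to the nearest integer -/
noncomputable def dz (θ : ℝ) : ℝ := |θ - round θ|

/-- `min (2 V + 1, 1 / (2 ‖θ‖))` -/
noncomputable def mn (V : ℕ) (θ : ℝ) : ℝ := if dz θ = 0 then 2 * V + 1 else min (2 * V + 1) (1 / (2 * dz θ))

/-- `∑_{|u| ≤ s M^j} min (2 s M^j + 1, 1 / (2 ‖a u‖))` -/
noncomputable def WJ (s M j : ℕ) (a : ℝ) : ℝ :=
  ∑ u ∈ Finset.Icc (-((s * M ^ j : ℕ) : ℤ)) ((s * M ^ j : ℕ) : ℤ), mn (s * M ^ j) (a * u)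

/-- the bilinear Weyl sum -/
noncomputable def TT (r M : ℕ) (α : ℕ → ℝ) : ℂ :=
  ∑ x ∈ Finset.Icc 1 M, ∑ y ∈ Finset.Icc 1 M,
    Complex.exp (2 * Real.pi * Complex.I * ((∑ j ∈ Finset.Icc 1 r, α j * ((x : ℝ) * y) ^ j : ℝ) : ℂ))

/-- the box of the values of the power sum differences -/
noncomputable def Box (s r M : ℕ) : Finset (Fin r → ℤ) :=
  Fintype.piFinset fun j => Finset.Icc (-((s * M ^ ((j : ℕ) + 1) : ℕ) : ℤ)) ((s * M ^ ((j : ℕ) + 1) : ℕ) : ℤ)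

/-- the number of representations of `v` -/
def nv (s r M : ℕ) (v : Fin r → ℤ) : ℕ :=
  ((Tu s M ×ˢ Tu s M).filter fun z => ∀ j : Fin r,
    ∑ i, (z.1 i : ℤ) ^ ((j : ℕ) + 1) - ∑ i, (z.2 i : ℤ) ^ ((j : ℕ) + 1) = v j).card

/-- the sums over `x` -/
noncomputable def SS (r M : ℕ) (α : ℕ → ℝ) (v : Fin r → ℤ) : ℂ :=
  ∑ x ∈ Finset.Icc 1 M,
    Complex.exp (2 * Real.pi * Complex.I * ((∑ j : Fin r, α (j + 1) * v j * (x : ℝ) ^ ((j : ℕ) + 1) : ℝ) : ℂ))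

/-- (5a) first application of Hoelder -/
def S_DA : Prop := ∀ (s r M : ℕ) (α : ℕ → ℝ), 1 ≤ s → 1 ≤ r → 1 ≤ M →
  ‖TT r M α‖ ^ (2 * s) ≤ (M : ℝ) ^ (2 * s - 1) * ∑ v ∈ Box s r M, (nv s r M v : ℝ) * ‖SS r M α v‖

/-- (5b) second application of Hoelder -/
def S_DB : Prop := ∀ (s r M : ℕ) (α : ℕ → ℝ), 1 ≤ s → 1 ≤ r → 1 ≤ M →
  (∑ v ∈ Box s r M, (nv s r M v : ℝ) * ‖SS r M α v‖) ^ (2 * s) ≤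
    (M : ℝ) ^ (2 * s * (2 * s - 2) + 2 * s) * (J s r M : ℝ) ^ 2 * ∏ j ∈ Finset.Icc 1 r, WJ s M j (α j)

/-- (5) double Hoelder -/
def S_DBL : Prop := ∀ (s r M : ℕ) (α : ℕ → ℝ), 1 ≤ s → 1 ≤ r → 1 ≤ M →
  ‖TT r M α‖ ^ (4 * s ^ 2) ≤ (M : ℝ) ^ (8 * s ^ 2 - 4 * s) * (J s r M : ℝ) ^ 2 *
    ∏ j ∈ Finset.Icc 1 r, WJ s M j (α j)

/-- (6) bounds for the factors -/
def S_WB : Prop := ∀ (s M j : ℕ) (a : ℝ), 1 ≤ s → 1 ≤ M →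
  WJ s M j a ≤ (2 * (s * M ^ j : ℕ) + 1 : ℝ) ^ 2 ∧
  (a ≠ 0 → |a| * (s * M ^ j : ℕ) ≤ 1 / 2 →
    WJ s M j a ≤ 2 * (s * M ^ j : ℕ) + 1 + 1 / |a| * (1 + Real.log (s * M ^ j : ℕ)))

/-- the coefficients of the phase of `(n + xy)^{-it}` -/
noncomputable def al (t : ℝ) (n j : ℕ) : ℝ := (-1) ^ j * t / (2 * Real.pi * j * (n : ℝ) ^ j)

/-- (7) from `∑ n^{-it}` to the bilinear sums -/
def S_SHIFT : Prop := ∀ (N N' M r : ℕ) (t : ℝ), 1 ≤ N → N ≤ N' → N' ≤ 2 * N → 1 ≤ M → M ^ 2 ≤ N → 1 ≤ r →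
  ‖∑ n ∈ Finset.Ioc N N', (n : ℂ) ^ (-(t : ℂ) * Complex.I)‖ ≤
    1 / (M : ℝ) ^ 2 * ∑ n ∈ Finset.Ioc N N', ‖TT r M (al t n)‖ + 2 * (M : ℝ) ^ 2 +
      N * |t| * ((M : ℝ) ^ 2 / N) ^ (r + 1)

/-- (8a) the factors for the coefficients of the zeta sums -/
def S_TW : Prop := ∃ C : ℕ, ∀ (N n j r s M : ℕ) (t κ : ℝ), 2 ≤ N → n ∈ Finset.Icc N (2 * N) → 1 / 2 ≤ κ →
  |t| = (N : ℝ) ^ κ → r = ⌈5 * κ⌉₊ + 5 → s = 9 * r ^ 2 → M = ⌊(N : ℝ) ^ (2 / 5 : ℝ)⌋₊ → j ∈ Finset.Icc 1 r →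
  WJ s M j (al t n j) ≤ (M : ℝ) ^ (2 * j) * Real.exp (C * (1 + κ) ^ C) ∧
  ((s : ℝ) ≤ 3 * (N : ℝ) ^ (κ / 5) → 2 * κ ≤ j → (j : ℝ) ≤ 3 * κ + 1 / 2 →
    WJ s M j (al t n j) ≤ (M : ℝ) ^ (2 * j) *
      (Real.exp (C * (1 + κ) ^ C) * (1 + Real.log N) * (N : ℝ) ^ (-(κ / 5) : ℝ)))

/-- (8) the bilinear sums are small -/
def S_TN : Prop := ∃ (C : ℕ) (c : ℝ), 0 < c ∧ c ≤ 1 / 10 ∧ ∀ (N n : ℕ) (t κ : ℝ), 2 ≤ N → n ∈ Finset.Icc N (2 * N) →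
  1 / 2 ≤ κ → |t| = (N : ℝ) ^ κ →
  ‖TT (⌈5 * κ⌉₊ + 5) ⌊(N : ℝ) ^ (2 / 5 : ℝ)⌋₊ (al t n)‖ ≤
    Real.exp (C * (1 + κ) ^ C) * (⌊(N : ℝ) ^ (2 / 5 : ℝ)⌋₊ : ℝ) ^ 2 * (N : ℝ) ^ (-(c / (1 + κ) ^ 2) : ℝ)

/-- (9) the bound for zeta sums -/
def S_ZS : Prop := ∃ (C : ℕ) (c : ℝ), 0 < c ∧ c ≤ 1 / 10 ∧ ∀ (N N' : ℕ) (t κ : ℝ), 2 ≤ N → N ≤ N' → N' ≤ 2 * N →
  1 / 2 ≤ κ → |t| = (N : ℝ) ^ κ →
  ‖∑ n ∈ Finset.Ioc N N', (n : ℂ) ^ (-(t : ℂ) * Complex.I)‖ ≤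
    Real.exp (C * (1 + κ) ^ C) * (N : ℝ) ^ (1 - c / (1 + κ) ^ 2 : ℝ)

/-- (10) upper bound for the zeta function near the line `Re s = 1` -/
def S_ZETA : Prop := ∃ δ K t₀ : ℝ, 0 < δ ∧ δ < 1 ∧ 1 ≤ K ∧ 3 ≤ t₀ ∧ ∀ σ t : ℝ, t₀ ≤ |t| →
  1 - (Real.log |t|) ^ (δ - 1) ≤ σ → σ ≤ 3 → ‖riemannZeta ⟨σ, t⟩‖ ≤ K * Real.log |t|

/-- (11) zero free region and bound for the inverse -/
def S_ZF : Prop := ∃ δ K t₀ : ℝ, 0 < δ ∧ δ < 1 ∧ 1 ≤ K ∧ 3 ≤ t₀ ∧ ∀ σ t : ℝ, t₀ ≤ |t| →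
  1 - (Real.log |t|) ^ (δ - 1) ≤ σ → σ ≤ 2 →
  riemannZeta ⟨σ, t⟩ ≠ 0 ∧ ‖(riemannZeta ⟨σ, t⟩)⁻¹‖ ≤ (Real.log |t|) ^ K

/-- (12) the same for all heights up to `T` -/
def S_INV : Prop := ∃ δ K T₀ : ℝ, 0 < δ ∧ δ < 1 ∧ 1 ≤ K ∧ 3 ≤ T₀ ∧ ∀ (T : ℝ) (s : ℂ), T₀ ≤ T → |s.im| ≤ T →
  1 - (Real.log T) ^ (δ - 1) ≤ s.re → s.re ≤ 2 →
  riemannZeta₁ s ≠ 0 ∧ ‖(s - 1) / riemannZeta₁ s‖ ≤ (Real.log T) ^ K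

/-- (13) twisted sums of the Moebius function -/
def S_MOB : Prop := ∀ A K : ℕ, ∃ C : ℝ, ∀ (N : ℕ) (τ : ℝ), 2 ≤ N → |τ| ≤ (N : ℝ) ^ A →
  ‖∑ n ∈ Finset.Icc 1 N, ((ArithmeticFunction.moebius n : ℤ) : ℂ) * (n : ℂ) ^ (-(τ : ℂ) * Complex.I)‖ ≤
    C * N / (Real.log N) ^ K

end Pool.Agent.Y957.VK
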