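import Pool.Agent.Y957.VK.Triv
import Pool.Agent.Y331.VK.Lin
import Pool.Agent.Y235.VK.Hol
import Pool.Agent.Y950.VK.Cnt
import Pool.Agent.Y911.VK.Cond
import Pool.Agent.Y901.VK.Vmvt
import Pool.Agent.Y309.VK.DA
import Pool.Agent.Y93.VK.DB
import Pool.Agent.Y331.VK.WB
import Pool.Agent.Y125.VK.Shift
import Pool.Agent.Y288.VK.Tw
import Pool.Agent.Y70.VK.Tn
import Pool.Agent.Y824.VK.Zs
import Pool.Agent.Y306.VK.Zeta
import Pool.Agent.Y333.VK.Zf
import Pool.Agent.Y569.VK.Inv
import Pool.Agent.Y25.VK.Mob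

/-!
Project VK: the unconditional theorems of the first part.
-/

set_option autoImplicit false

namespace Pool.Agent.Y957.VK

theorem cnt_all : S_CNT := Pool.Agent.Y950.VK.cnt Pool.Agent.Y331.VK.lin

theorem rec_all : S_REC := rec_of Pool.Agent.Y235.VK.hol cnt_all

/-- Vinogradov's mean value theorem, crude constants -/
theorem vmvt_all : S_VMVT := Pool.Agent.Y901.VK.vmvt rec_all Pool.Agent.Y911.VK.cond

theorem dbl_all : S_DBL := dbl_of Pool.Agent.Y309.VK.da Pool.Agent.Y93.VK.db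

theorem tn_all : S_TN := Pool.Agent.Y70.VK.tn vmvt_all dbl_all (Pool.Agent.Y288.VK.tw Pool.Agent.Y331.VK.wb)

/-- the bound for zeta sums -/
theorem zs_all : S_ZS := Pool.Agent.Y824.VK.zs Pool.Agent.Y125.VK.shift tn_all

theorem zeta_all : S_ZETA := Pool.Agent.Y306.VK.zeta_up zs_all

/-- the zero free region -/
theorem zf_all : S_ZF := Pool.Agent.Y333.VK.zf zeta_all

theorem inv_all : S_INV := Pool.Agent.Y569.VK.inv zf_all

/-- twisted sums of the Moebius function -/
theorem mob_all : S_MOB := Pool.Agent.Y25.VK.mob inv_all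

end Pool.Agent.Y957.VK
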