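import Pool.Agent.Y957.VK.Fin2a
import Pool.Agent.H534R2.BH_Lam

/-!
Project VK: the Liouville function satisfies the hypothesis `Neg`.
-/

set_option autoImplicit false

namespace Pool.Agent.Y957.VK

open Finset MeasureTheory Filter Topology
open Pool.Agent.H376R2.MR (er)

/-- the Liouville function -/
noncomputable def liou (n : ℕ) : ℂ := (-1 : ℂ) ^ (ArithmeticFunction.cardFactors n)

theorem liou_norm (n : ℕ) : ‖liou n‖ = 1 := by
  unfold liou
  rw [norm_pow, norm_neg, norm_one, one_pow]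

theorem norm_er (τ x : ℝ) : ‖er τ x‖ = 1 := by
  unfold er
  exact Complex.norm_exp_ofReal_mul_I _

theorem er_log_mul (τ : ℝ) (l m : ℕ) (hl : l ≠ 0) (hm : m ≠ 0) :
    er τ (Real.log ((l * m ^ 2 : ℕ) : ℝ)) = er τ (Real.log l) * er τ (2 * Real.log m) := by
  unfold er
  rw [← Complex.exp_add]
  congr 1
  have hl' : (l : ℝ) ≠ 0 := by exact_mod_cast hl
  have hm' : (m : ℝ) ≠ 0 := by exact_mod_cast hm
  push_cast
  rw [Real.log_mul hl' (pow_ne_zero _ hm'), Real.log_pow]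
  push_cast
  ring

/-- twisted sums of the Moebius function -/
noncomputable def Wm (τ : ℝ) (M : ℕ) : ℂ :=
  ∑ l ∈ Icc 1 M, ((ArithmeticFunction.moebius l : ℤ) : ℂ) * er τ (Real.log l)

theorem Wm_triv (τ : ℝ) (M : ℕ) : ‖Wm τ M‖ ≤ M := by
  unfold Wm
  refine (norm_sum_le _ _).trans ?_
  have h : ∀ l ∈ Icc 1 M, ‖((ArithmeticFunction.moebius l : ℤ) : ℂ) * er τ (Real.log l)‖ ≤ 1 := fun l _ => by
    rw [norm_mul, norm_er, mul_one]
    exact mu_le l
  refine (Finset.sum_le_sum h).trans ?_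
  simp

theorem liou_sum (τ : ℝ) (N : ℕ) :
    ‖∑ n ∈ Icc 1 N, liou n * er τ (Real.log n)‖ ≤ ∑ m ∈ Icc 1 N, ‖Wm τ (N / m ^ 2)‖ := by
  have h1 := Pool.Agent.H534R2.BH.lam_sum N (fun n => er τ (Real.log n))
  unfold liou
  rw [h1]
  refine (norm_sum_le _ _).trans (Finset.sum_le_sum fun m hm => ?_)
  have hm0 : m ≠ 0 := by have := (Finset.mem_Icc.1 hm).1; omega
  have e : ∑ l ∈ Icc 1 (N / m ^ 2), ((ArithmeticFunction.moebius l : ℤ) : ℂ) *
      er τ (Real.log ((l * m ^ 2 : ℕ) : ℝ)) = Wm τ (N / m ^ 2) * er τ (2 * Real.log m) := by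
    unfold Wm
    rw [Finset.sum_mul]
    refine Finset.sum_congr rfl fun l hl => ?_
    rw [er_log_mul τ l m (by have := (Finset.mem_Icc.1 hl).1; omega) hm0, mul_assoc]
  rw [e, norm_mul, norm_er, mul_one]

theorem div_lower {N m : ℕ} (hN : 16 ≤ N) (hm : 1 ≤ m) (h : m ^ 4 ≤ N) :
    4 ≤ N / m ^ 2 ∧ N ≤ (N / m ^ 2) ^ 4 := by
  set M := N / m ^ 2 with hM
  have hm2 : 0 < m ^ 2 := by positivity
  have h1 : N < (M + 1) * m ^ 2 := by
    have h2 := Nat.lt_mul_div_succ N hm2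
    rw [mul_comm]
    exact h2
  have h3 : N < (M + 1) ^ 2 := by
    by_contra hcon
    rw [not_lt] at hcon
    have h4 : ((M + 1) * m ^ 2) ^ 2 ≤ N * N := by
      calc ((M + 1) * m ^ 2) ^ 2 = (M + 1) ^ 2 * m ^ 4 := by ring
        _ ≤ N * N := Nat.mul_le_mul hcon h
    have h5 : N * N < ((M + 1) * m ^ 2) ^ 2 := by
      rw [sq]
      exact Nat.mul_lt_mul'' h1 h1
    omega
  have h6 : 4 ≤ M := by
    by_contra hcon
    have : M + 1 ≤ 4 := by omega
    have : (M + 1) ^ 2 ≤ 4 ^ 2 := Nat.pow_le_pow_left this 2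
    omega
  refine ⟨h6, h3.le.trans ?_⟩
  have h7 : M + 1 ≤ M ^ 2 := by nlinarith
  calc (M + 1) ^ 2 ≤ (M ^ 2) ^ 2 := Nat.pow_le_pow_left h7 2
    _ = M ^ 4 := by ring

theorem log_pow_le (K : ℕ) : ∃ D : ℝ, 0 ≤ D ∧ ∀ N : ℕ, 1 ≤ N →
    (Real.log N) ^ K ≤ D * (N : ℝ) ^ (1 / 4 : ℝ) := by
  set ε : ℝ := 1 / (4 * (K + 1)) with hε
  have hε0 : 0 < ε := by positivity
  refine ⟨(1 / ε) ^ K, by positivity, fun N hN => ?_⟩
  have hN1 : (1 : ℝ) ≤ N := by exact_mod_cast hN
  have h1 : Real.log N ≤ (N : ℝ) ^ ε / ε := Real.log_le_rpow_div (by positivity) hε0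
  calc (Real.log N) ^ K ≤ ((N : ℝ) ^ ε / ε) ^ K := pow_le_pow_left₀ (Real.log_nonneg hN1) h1 K
    _ = (1 / ε) ^ K * ((N : ℝ) ^ ε) ^ K := by rw [← mul_pow]; congr 1; ring
    _ ≤ (1 / ε) ^ K * (N : ℝ) ^ (1 / 4 : ℝ) := by
        apply mul_le_mul_of_nonneg_left _ (by positivity)
        rw [← Real.rpow_natCast, ← Real.rpow_mul (by positivity)]
        apply Real.rpow_le_rpow_of_exponent_le hN1
        rw [hε, div_mul_eq_mul_div, one_mul, div_le_div_iff₀ (by positivity) (by norm_num)]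
        linarith

theorem inv_sq_sum (a b : ℕ) : ∑ m ∈ Ioc a b, (1 : ℝ) / (m : ℝ) ^ 2 ≤ 2 / (a + 1) := by
  have e : Ioc a b = Ioo a (b + 1) := by
    ext m
    simp only [Finset.mem_Ioc, Finset.mem_Ioo]
    omega
  rw [e]
  have := sum_Ioo_inv_sq_le (α := ℝ) a (b + 1)
  simpa [one_div] using this

/-- the Liouville function is negligible -/
theorem neg_liou : Neg liou := by
  intro A K
  obtain ⟨C, hC⟩ := neg_mu (4 * A) K
  obtain ⟨D, hD0, hD⟩ := log_pow_le K
  set C' : ℝ := max C 0 with hC'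
  have hC'0 : 0 ≤ C' := le_max_right _ _
  refine ⟨2 * C' * 4 ^ K + 4 * D + 3 ^ K, fun N τ hN hτ => ?_⟩
  have hN0 : (0 : ℝ) < N := by exact_mod_cast (by omega : 0 < N)
  have hlog : 0 < Real.log N := Real.log_pos (by exact_mod_cast (by omega : 1 < N))
  have hlogK : 0 < (Real.log N) ^ K := pow_pos hlog K
  rcases lt_or_ge N 16 with h16 | h16
  · -- small N
    have h1 : ‖∑ n ∈ Icc 1 N, liou n * er τ (Real.log n)‖ ≤ N := by
      refine (norm_sum_le _ _).trans ?_
      simp [liou_norm, norm_er]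
    have h2 : Real.log N ≤ 3 := by
      have h3 : Real.log N ≤ Real.log 16 := Real.log_le_log hN0 (by exact_mod_cast h16.le)
      have h4 : Real.log 16 = 4 * Real.log 2 := by
        rw [show (16 : ℝ) = 2 ^ 4 by norm_num, Real.log_pow]
        norm_num
      have := Real.log_two_lt_d9
      linarith
    have h3 : (Real.log N) ^ K ≤ 3 ^ K := pow_le_pow_left₀ hlog.le h2 K
    rw [le_div_iff₀ hlogK]
    calc ‖∑ n ∈ Icc 1 N, liou n * er τ (Real.log n)‖ * (Real.log N) ^ K ≤ N * 3 ^ K := by gcongr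
      _ ≤ (2 * C' * 4 ^ K + 4 * D + 3 ^ K) * N := by
          have : 0 ≤ (2 * C' * 4 ^ K + 4 * D) * N := by positivity
          linarith
  · set Q : ℕ := Nat.sqrt (Nat.sqrt N) with hQ
    have hQ4 : ∀ m : ℕ, m ≤ Q ↔ m ^ 4 ≤ N := fun m => by
      rw [hQ, Nat.le_sqrt', Nat.le_sqrt', ← pow_mul]
    have hQN : Q ≤ N := (Nat.sqrt_le_self _).trans (Nat.sqrt_le_self _)
    have hsplit : Icc 1 N = Ioc 0 Q ∪ Ioc Q N := by
      ext m
      simp only [Finset.mem_Icc, Finset.mem_union, Finset.mem_Ioc]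
      omega
    have hdisj : Disjoint (Ioc 0 Q) (Ioc Q N) := by
      rw [Finset.disjoint_left]
      intro m h1 h2
      simp only [Finset.mem_Ioc] at h1 h2
      omega
    have hb1 : ∑ m ∈ Ioc 0 Q, ‖Wm τ (N / m ^ 2)‖ ≤ 2 * C' * 4 ^ K * N / (Real.log N) ^ K := by
      have h1 : ∀ m ∈ Ioc 0 Q, ‖Wm τ (N / m ^ 2)‖ ≤ (C' * 4 ^ K * N / (Real.log N) ^ K) * (1 / (m : ℝ) ^ 2) := by
        intro m hm
        obtain ⟨hm1, hm2⟩ := Finset.mem_Ioc.1 hm
        have hm0 : (0 : ℝ) < m := by exact_mod_cast hm1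
        obtain ⟨h4, h5⟩ := div_lower h16 hm1 ((hQ4 m).1 hm2)
        set M := N / m ^ 2 with hM
        have hM0 : (0 : ℝ) < M := by exact_mod_cast (by omega : 0 < M)
        have h5' : (N : ℝ) ≤ (M : ℝ) ^ 4 := by exact_mod_cast h5
        have hτ' : |τ| ≤ (M : ℝ) ^ (4 * A) := by
          refine hτ.trans ?_
          rw [pow_mul]
          exact pow_le_pow_left₀ hN0.le h5' A
        have h6 : ‖Wm τ M‖ ≤ C * M / (Real.log M) ^ K := hC M τ (by omega) hτ'
        have hlM : Real.log N ≤ 4 * Real.log M := by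
          have := Real.log_le_log hN0 h5'
          rw [Real.log_pow] at this
          push_cast at this
          exact this
        have hlM0 : 0 < Real.log M := by linarith
        have hMle : (M : ℝ) ≤ N / (m : ℝ) ^ 2 := by
          have := Nat.cast_div_le (α := ℝ) (m := N) (n := m ^ 2)
          push_cast at this
          exact this
        have h7 : (Real.log N) ^ K ≤ 4 ^ K * (Real.log M) ^ K := by
          rw [← mul_pow]
          exact pow_le_pow_left₀ hlog.le hlM K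
        calc ‖Wm τ M‖ ≤ C * M / (Real.log M) ^ K := h6
          _ ≤ C' * (N / (m : ℝ) ^ 2) / (Real.log M) ^ K := by
              gcongr
              exact le_max_left _ _
          _ ≤ C' * (N / (m : ℝ) ^ 2) / ((Real.log N) ^ K / 4 ^ K) := by
              have h8 : (Real.log N) ^ K / 4 ^ K ≤ (Real.log M) ^ K := by
                rw [div_le_iff₀ (by positivity)]
                linarith
              have h9 : 0 < (Real.log N) ^ K / 4 ^ K := by positivity
              gcongr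
          _ = _ := by
              field_simp
      refine (Finset.sum_le_sum h1).trans ?_
      rw [← Finset.mul_sum]
      have h2 := inv_sq_sum 0 Q
      simp only [Nat.cast_zero, zero_add, div_one] at h2
      calc (C' * 4 ^ K * N / (Real.log N) ^ K) * ∑ m ∈ Ioc 0 Q, 1 / (m : ℝ) ^ 2 ≤
          (C' * 4 ^ K * N / (Real.log N) ^ K) * 2 := by gcongr
        _ = _ := by ring
    have hb2 : ∑ m ∈ Ioc Q N, ‖Wm τ (N / m ^ 2)‖ ≤ 4 * D * N / (Real.log N) ^ K := by
      have h1 : ∀ m ∈ Ioc Q N, ‖Wm τ (N / m ^ 2)‖ ≤ N * (1 / (m : ℝ) ^ 2) := fun m _ => by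
        refine (Wm_triv τ _).trans ?_
        have := Nat.cast_div_le (α := ℝ) (m := N) (n := m ^ 2)
        push_cast at this
        rw [mul_one_div]
        exact this
      refine (Finset.sum_le_sum h1).trans ?_
      rw [← Finset.mul_sum]
      have h2 := inv_sq_sum Q N
      have h3 : (N : ℝ) ^ (1 / 4 : ℝ) ≤ Q + 1 := by
        have h4 : N < (Q + 1) ^ 4 := by
          by_contra hcon
          rw [not_lt] at hcon
          have := (hQ4 (Q + 1)).2 hcon
          omega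
        have h5 : (N : ℝ) ≤ ((Q : ℝ) + 1) ^ 4 := by exact_mod_cast h4.le
        calc (N : ℝ) ^ (1 / 4 : ℝ) ≤ (((Q : ℝ) + 1) ^ 4) ^ (1 / 4 : ℝ) :=
              Real.rpow_le_rpow hN0.le h5 (by norm_num)
          _ = Q + 1 := by
              rw [← Real.rpow_natCast, ← Real.rpow_mul (by positivity)]
              norm_num
      have h4 : 0 < (N : ℝ) ^ (1 / 4 : ℝ) := Real.rpow_pos_of_pos hN0 _
      have h5 := hD N (by omega)
      rw [le_div_iff₀ hlogK]
      calc ((N : ℝ) * ∑ m ∈ Ioc Q N, 1 / (m : ℝ) ^ 2) * (Real.log N) ^ K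
          ≤ ((N : ℝ) * (2 / (Q + 1))) * (D * (N : ℝ) ^ (1 / 4 : ℝ)) := by gcongr
        _ ≤ (N * (2 / (N : ℝ) ^ (1 / 4 : ℝ))) * (D * (N : ℝ) ^ (1 / 4 : ℝ)) := by gcongr
        _ = 2 * D * N := by field_simp
        _ ≤ 4 * D * N := by
            have : 0 ≤ D * N := by positivity
            linarith
    have hfin := liou_sum τ N
    have hsum : ∑ m ∈ Icc 1 N, ‖Wm τ (N / m ^ 2)‖ =
        ∑ m ∈ Ioc 0 Q, ‖Wm τ (N / m ^ 2)‖ + ∑ m ∈ Ioc Q N, ‖Wm τ (N / m ^ 2)‖ := by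
      rw [hsplit, Finset.sum_union hdisj]
    rw [hsum] at hfin
    refine hfin.trans ((add_le_add hb1 hb2).trans ?_)
    rw [← add_div]
    apply div_le_div_of_nonneg_right _ hlogK.le
    have : 0 ≤ (3 : ℝ) ^ K * N := by positivity
    linarith

end Pool.Agent.Y957.VK
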