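import Pool.Agent.Y957.VK.Stm3b
import Pool.Agent.Y957.MC.Fin5

/-!
Project VK: discrete and continuous averages of uniformly continuous functions.
-/

set_option autoImplicit false

namespace Pool.Agent.Y957.VK

open Finset MeasureTheory Filter Topology

theorem rie_all : Pool.Agent.Y957.MC.S_RIE :=
  Pool.Agent.Y941.MC.rie Pool.Agent.Y957.MC.det_all Pool.Agent.Y220.MC.PS.psq

/-- the modulus of continuity on the right -/
def Uc (A : ℝ → ℂ) : Prop :=
  ∀ ε : ℝ, 0 < ε → ∃ δ : ℝ, 0 < δ ∧ ∀ t s : ℝ, 0 ≤ s → s < δ → ‖A (t + s) - A t‖ ≤ ε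

theorem Uc.continuous {A : ℝ → ℂ} (h : Uc A) : Continuous A := by
  rw [Metric.continuous_iff]
  intro b ε hε
  obtain ⟨δ, hδ, h1⟩ := h (ε / 2) (by positivity)
  refine ⟨δ, hδ, fun a ha => ?_⟩
  rw [Real.dist_eq, abs_lt] at ha
  rw [dist_eq_norm]
  rcases le_total b a with hab | hab
  · have h2 := h1 b (a - b) (by linarith) (by linarith [ha.2])
    rw [add_sub_cancel] at h2
    linarith
  · have h2 := h1 a (b - a) (by linarith) (by linarith [ha.1])
    rw [add_sub_cancel, norm_sub_rev] at h2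
    linarith

/-- local averages -/
noncomputable def loc (A : ℝ → ℂ) (h t : ℝ) : ℂ := (1 / (h : ℂ)) * ∫ s in t..(t + h), A s

theorem loc_norm {A : ℝ → ℂ} {M : ℝ} (hM : ∀ t, ‖A t‖ ≤ M) {h : ℝ} (hh : 0 < h) (t : ℝ) :
    ‖loc A h t‖ ≤ M := by
  unfold loc
  have h1 : ‖∫ s in t..(t + h), A s‖ ≤ M * |t + h - t| :=
    intervalIntegral.norm_integral_le_of_norm_le_const fun s _ => hM s
  rw [add_sub_cancel_left, abs_of_pos hh] at h1
  rw [norm_mul, norm_div, norm_one, Complex.norm_real, Real.norm_eq_abs, abs_of_pos hh]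
  calc 1 / h * ‖∫ s in t..(t + h), A s‖ ≤ 1 / h * (M * h) := by gcongr
    _ = M := by field_simp

theorem loc_lip {A : ℝ → ℂ} {M : ℝ} (hM : ∀ t, ‖A t‖ ≤ M) (hA : Continuous A) {h : ℝ} (hh : 0 < h)
    (v w : ℝ) : ‖loc A h v - loc A h w‖ ≤ (2 * M / h) * |v - w| := by
  have hi : ∀ a b, IntervalIntegrable A volume a b := fun a b => hA.intervalIntegrable a b
  have e : (∫ s in v..(v + h), A s) - ∫ s in w..(w + h), A s =
      (∫ s in (w + h)..(v + h), A s) - ∫ s in w..v, A s := by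
    have h1 := intervalIntegral.integral_add_adjacent_intervals (hi w v) (hi v (v + h))
    have h2 := intervalIntegral.integral_add_adjacent_intervals (hi w (w + h)) (hi (w + h) (v + h))
    have h3 : ∫ s in v..(v + h), A s = (∫ s in w..(v + h), A s) - ∫ s in w..v, A s := by
      rw [← h1]; ring
    have h4 : ∫ s in w..(w + h), A s = (∫ s in w..(v + h), A s) - ∫ s in (w + h)..(v + h), A s := by
      rw [← h2]; ring
    rw [h3, h4]
    ring
  unfold loc
  rw [← mul_sub, e, norm_mul, norm_div, norm_one, Complex.norm_real, Real.norm_eq_abs, abs_of_pos hh]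
  have h1 : ‖∫ s in (w + h)..(v + h), A s‖ ≤ M * |v + h - (w + h)| :=
    intervalIntegral.norm_integral_le_of_norm_le_const fun s _ => hM s
  have h2 : ‖∫ s in w..v, A s‖ ≤ M * |v - w| :=
    intervalIntegral.norm_integral_le_of_norm_le_const fun s _ => hM s
  rw [add_sub_add_right_eq_sub] at h1
  calc 1 / h * ‖(∫ s in (w + h)..(v + h), A s) - ∫ s in w..v, A s‖ ≤ 1 / h * (M * |v - w| + M * |v - w|) := by
        gcongr
        exact (norm_sub_le _ _).trans (add_le_add h1 h2)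
    _ = _ := by ring

theorem loc_near {A : ℝ → ℂ} (hA : Continuous A) {h ε : ℝ} (hh : 0 < h)
    (hu : ∀ t s : ℝ, 0 ≤ s → s ≤ h → ‖A (t + s) - A t‖ ≤ ε) (t : ℝ) : ‖loc A h t - A t‖ ≤ ε := by
  have h0 : (h : ℂ) ≠ 0 := by exact_mod_cast hh.ne'
  have e : loc A h t - A t = (1 / (h : ℂ)) * ∫ s in t..(t + h), (A s - A t) := by
    rw [intervalIntegral.integral_sub (hA.intervalIntegrable _ _) (by simp)]
    unfold loc
    rw [intervalIntegral.integral_const, add_sub_cancel_left, mul_sub, Complex.real_smul]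
    field_simp
  have h1 : ‖∫ s in t..(t + h), (A s - A t)‖ ≤ ε * |t + h - t| :=
    intervalIntegral.norm_integral_le_of_norm_le_const fun s hs => by
      rw [Set.uIoc_of_le (by linarith)] at hs
      have := hu t (s - t) (by linarith [hs.1]) (by linarith [hs.2])
      rwa [add_sub_cancel] at this
  rw [add_sub_cancel_left, abs_of_pos hh] at h1
  rw [e, norm_mul, norm_div, norm_one, Complex.norm_real, Real.norm_eq_abs, abs_of_pos hh]
  calc 1 / h * ‖∫ s in t..(t + h), (A s - A t)‖ ≤ 1 / h * (ε * h) := by gcongr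
    _ = ε := by field_simp

/-- discrete minus continuous average -/
noncomputable def Dc (A : ℝ → ℂ) (α : ℝ) (N : ℕ) : ℂ :=
  (1 / (N : ℂ)) * (∑ n ∈ Finset.Icc 1 N, A (α * n) - ∫ v in (0 : ℝ)..N, A (α * v))

theorem dc_near {A B : ℝ → ℂ} (hA : Continuous A) (hB : Continuous B) {ε : ℝ} (hε : 0 ≤ ε)
    (h : ∀ t, ‖A t - B t‖ ≤ ε) (α : ℝ) (N : ℕ) : ‖Dc A α N‖ ≤ ‖Dc B α N‖ + 2 * ε := by
  rcases Nat.eq_zero_or_pos N with h0 | h0
  · subst h0
    simp [Dc, hε]
  have hN1 : (0 : ℝ) < N := by exact_mod_cast h0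
  have hac : Continuous fun v : ℝ => A (α * v) := hA.comp (continuous_const.mul continuous_id)
  have hbc : Continuous fun v : ℝ => B (α * v) := hB.comp (continuous_const.mul continuous_id)
  have e : Dc A α N = Dc B α N + (1 / (N : ℂ)) * (∑ n ∈ Finset.Icc 1 N, (A (α * n) - B (α * n)) -
        ∫ v in (0 : ℝ)..N, (A (α * v) - B (α * v))) := by
    unfold Dc
    rw [intervalIntegral.integral_sub (hac.intervalIntegrable _ _) (hbc.intervalIntegrable _ _),
      Finset.sum_sub_distrib]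
    ring
  rw [e]
  refine (norm_add_le _ _).trans (add_le_add le_rfl ?_)
  have h3 : ‖∑ n ∈ Finset.Icc 1 N, (A (α * n) - B (α * n))‖ ≤ N * ε := by
    refine (norm_sum_le _ _).trans ((Finset.sum_le_sum fun n _ => h _).trans ?_)
    simp
  have h4 : ‖∫ v in (0 : ℝ)..N, (A (α * v) - B (α * v))‖ ≤ ε * |(N : ℝ) - 0| :=
    intervalIntegral.norm_integral_le_of_norm_le_const fun v _ => h _
  rw [sub_zero, abs_of_pos hN1] at h4
  rw [norm_mul, norm_div, norm_one, Complex.norm_natCast]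
  calc 1 / (N : ℝ) * ‖_‖ ≤ 1 / (N : ℝ) * (N * ε + ε * N) := by
        gcongr
        exact (norm_sub_le _ _).trans (add_le_add h3 h4)
    _ = 2 * ε := by field_simp; ring

theorem riu_half (A : ℝ → ℂ) (M : ℝ) (hM : ∀ t, ‖A t‖ ≤ M) (hu : Uc A) :
    ∀ᵐ α ∂(volume.restrict (Set.Ioi (0 : ℝ))), Tendsto (Dc A α) atTop (𝓝 0) := by
  have hM0 : 0 ≤ M := (norm_nonneg _).trans (hM 0)
  have hA := hu.continuous
  have h1 : ∀ᵐ α ∂(volume.restrict (Set.Ioi (0 : ℝ))), ∀ q : ℕ,
      Tendsto (Dc (loc A (1 / ((q : ℝ) + 1))) α) atTop (𝓝 0) := by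
    rw [ae_all_iff]
    intro q
    set h : ℝ := 1 / ((q : ℝ) + 1) with hh
    have hh0 : 0 < h := by positivity
    have hM1 : 0 < M + 1 := by positivity
    have hMc : ((M + 1 : ℝ) : ℂ) ≠ 0 := by exact_mod_cast hM1.ne'
    have h2 := rie_all (fun t => loc A h t / ((M + 1 : ℝ) : ℂ)) (2 * M / h) (fun v => by
      rw [norm_div, Complex.norm_real, Real.norm_eq_abs, abs_of_pos hM1, div_le_one hM1]
      linarith [loc_norm hM hh0 v]) (fun v w => by
      rw [← sub_div, norm_div, Complex.norm_real, Real.norm_eq_abs, abs_of_pos hM1]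
      refine (div_le_self (norm_nonneg _) (by linarith)).trans ?_
      exact loc_lip hM hA hh0 v w)
    rw [ae_restrict_iff' measurableSet_Ioi] at h2 ⊢
    filter_upwards [h2] with α hα hα0
    have hα1 : (0 : ℝ) < α := hα0
    have h3 := (hα hα0).const_mul ((M + 1 : ℝ) : ℂ)
    rw [mul_zero] at h3
    refine h3.congr fun N => ?_
    unfold Dc
    have e1 : ∫ v in (0 : ℝ)..(α * N), loc A h v / ((M + 1 : ℝ) : ℂ) =
        (1 / ((M + 1 : ℝ) : ℂ)) * ((α : ℂ) * ∫ v in (0 : ℝ)..N, loc A h (α * v)) := by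
      have h4 := intervalIntegral.integral_comp_mul_left (fun t => loc A h t) hα1.ne'
        (a := 0) (b := (N : ℝ))
      rw [h4, mul_zero, Complex.real_smul, intervalIntegral.integral_div]
      have hαc : (α : ℂ) ≠ 0 := by exact_mod_cast hα1.ne'
      push_cast
      field_simp
    rw [e1, ← Finset.sum_div]
    rcases Nat.eq_zero_or_pos N with h0 | h0
    · subst h0
      simp
    have hNc : (N : ℂ) ≠ 0 := by exact_mod_cast h0.ne'
    have hαc : (α : ℂ) ≠ 0 := by exact_mod_cast hα1.ne'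
    push_cast at hMc ⊢
    field_simp
  filter_upwards [h1] with α hα
  rw [Metric.tendsto_atTop]
  intro ε hε
  obtain ⟨δ, hδ, h2⟩ := hu (ε / 4) (by positivity)
  obtain ⟨q, hq⟩ := exists_nat_one_div_lt hδ
  have hh0 : (0 : ℝ) < 1 / ((q : ℝ) + 1) := by positivity
  obtain ⟨N0, hN0⟩ := (Metric.tendsto_atTop.1 (hα q)) (ε / 4) (by positivity)
  refine ⟨N0, fun N hN => ?_⟩
  have h3 := hN0 N hN
  rw [dist_zero_right] at h3 ⊢
  have hlc : Continuous (loc A (1 / ((q : ℝ) + 1))) := by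
    refine (LipschitzWith.of_dist_le_mul (K := Real.toNNReal (2 * M / (1 / ((q : ℝ) + 1)))) fun v w => ?_).continuous
    rw [dist_eq_norm, Real.dist_eq, Real.coe_toNNReal _ (by positivity)]
    exact loc_lip hM hA hh0 v w
  have h4 := dc_near hA hlc (ε := ε / 4) (by positivity) (fun t => by
    rw [norm_sub_rev]
    exact loc_near hA hh0 (fun t s hs hs' => h2 t s hs (hs'.trans_lt hq)) t) α N
  linarith

theorem riu : S_RIU := by
  intro A M hM hu
  have h1 := riu_half A M hM hu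
  have h2 := riu_half (fun t => A (-t)) M (fun t => hM _) (fun ε hε => by
    obtain ⟨δ, hδ, h⟩ := hu ε hε
    refine ⟨δ, hδ, fun t s hs hsδ => ?_⟩
    have h3 := h (-(t + s)) s hs hsδ
    rw [norm_sub_rev]
    have e : -(t + s) + s = -t := by ring
    rw [e] at h3
    exact h3)
  rw [ae_restrict_iff' measurableSet_Ioi] at h1 h2
  have h3 : ∀ᵐ α : ℝ, -α ∈ Set.Ioi (0 : ℝ) → Tendsto (Dc (fun t => A (-t)) (-α)) atTop (𝓝 0) :=
    (Measure.measurePreserving_neg (volume : Measure ℝ)).quasiMeasurePreserving.ae h2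
  have h4 : ∀ᵐ α : ℝ, α ≠ 0 := by
    rw [ae_iff]
    simp
  filter_upwards [h1, h3, h4] with α ha hb hc
  rcases lt_or_gt_of_ne hc with h | h
  · refine (hb (by simpa using h)).congr fun N => ?_
    unfold Dc
    simp only [neg_mul, neg_neg]
  · exact ha h

end Pool.Agent.Y957.VK
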