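import Pool.Agent.Y957.VK.Stm2
import Pool.Agent.Y957.AD.Four3

/-!
Project VK: the Plancherel step for families.
-/

set_option autoImplicit false

namespace Pool.Agent.Y957.VK

open Finset MeasureTheory Filter FourierTransform
open scoped ENNReal
open Pool.Agent.H376R2.MR (er)
open Pool.Agent.Y957.AD (four_shift memLp_of_bdd er_norm er_zero)

theorem four_fsum {ι : Type*} (s : Finset ι) (F : ι → ℝ → ℂ) (hF : ∀ i ∈ s, Integrable (F i)) (ξ : ℝ) :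
    𝓕 (fun x => ∑ i ∈ s, F i x) ξ = ∑ i ∈ s, 𝓕 (F i) ξ := by
  simp only [Real.fourier_real_eq_integral_exp_smul]
  rw [← integral_finsetSum]
  · congr 1
    funext v
    rw [Finset.smul_sum]
  · intro i hi
    have h := hF i hi
    have := (Real.fourierIntegral_convergent_iff ξ).2 h
    refine (this.congr ?_)
    refine Eventually.of_forall fun v => ?_
    simp only [Real.fourierChar, Circle.smul_def]
    congr 2
    simp
    ring_nf
    rw [← Complex.exp_neg]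

theorem four_smulc (a : ℂ) (F : ℝ → ℂ) (ξ : ℝ) : 𝓕 (fun x => a * F x) ξ = a * 𝓕 F ξ := by
  simp only [Real.fourier_real_eq_integral_exp_smul]
  rw [← integral_const_mul]
  congr 1
  funext v
  simp only [smul_eq_mul]
  ring

theorem Gn_int (d : ℕ → ℂ) {B : ℝ → ℂ} (hB : Integrable B) (c : ℝ) (N : ℕ) : Integrable (Gn d B c N) := by
  unfold Gn
  exact integrable_finsetSum _ fun n _ => (hB.comp_add_right _).const_mul _

theorem Gn_le (d : ℕ → ℂ) (hd : ∀ n, ‖d n‖ ≤ 1) {B : ℝ → ℂ} (hB : ∀ y, ‖B y‖ ≤ 1) (c : ℝ) (N : ℕ) (u : ℝ) :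
    ‖Gn d B c N u‖ ≤ N := by
  unfold Gn
  refine (norm_sum_le _ _).trans ?_
  calc ∑ n ∈ Finset.Icc 1 N, ‖d n * B (u + c * Real.log n)‖ ≤ ∑ n ∈ Finset.Icc 1 N, (1:ℝ) := by
        refine Finset.sum_le_sum fun n _ => ?_
        rw [norm_mul]
        exact mul_le_one₀ (hd n) (norm_nonneg _) (hB _)
    _ = N := by simp

theorem Dn_le (d : ℕ → ℂ) (hd : ∀ n, ‖d n‖ ≤ 1) (c : ℝ) (N : ℕ) (ξ : ℝ) : ‖Dn d c N ξ‖ ≤ N := by
  unfold Dn
  refine (norm_sum_le _ _).trans ?_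
  calc ∑ n ∈ Finset.Icc 1 N, ‖d n * er ξ (c * Real.log n)‖ ≤ ∑ n ∈ Finset.Icc 1 N, (1:ℝ) := by
        refine Finset.sum_le_sum fun n _ => ?_
        rw [norm_mul, er_norm, mul_one]
        exact hd n
    _ = N := by simp

theorem four_Gn (d : ℕ → ℂ) {B : ℝ → ℂ} (hB : Integrable B) (c : ℝ) (N : ℕ) (ξ : ℝ) :
    𝓕 (Gn d B c N) ξ = Dn d c N (2 * Real.pi * ξ) * 𝓕 B ξ := by
  unfold Gn Dn
  rw [four_fsum _ _ fun n _ => (hB.comp_add_right _).const_mul _, Finset.sum_mul]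
  refine Finset.sum_congr rfl fun n _ => ?_
  rw [four_smulc, four_shift]
  ring

/-- decay of the Fourier transform from the `L¹` modulus of continuity -/
theorem four_decay {B : ℝ → ℂ} (hB : Integrable B) {V : ℝ} (hV : ∀ s, 0 ≤ s → s ≤ 1 → ∫ y, ‖B (y + s) - B y‖ ≤ V * s)
    {ξ : ℝ} (hξ : 1 / 2 ≤ |ξ|) : ‖𝓕 B ξ‖ ≤ V / (4 * |ξ|) := by
  have hξ0 : 0 < |ξ| := by linarith
  set s : ℝ := 1 / (2 * |ξ|) with hs
  have hs0 : 0 < s := by positivity
  have hs1 : s ≤ 1 := by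
    rw [hs, div_le_one (by positivity)]
    linarith
  have h1 : 𝓕 (fun x => B (x + s) - B x) ξ = (er (2 * Real.pi * ξ) s - 1) * 𝓕 B ξ := by
    have e : (fun x => B (x + s) - B x) = fun x => ∑ i ∈ (Finset.univ : Finset (Fin 2)),
        (if i = 0 then (fun x => B (x + s)) else (fun x => (-1) * B x)) x := by
      funext x
      simp [Fin.sum_univ_two]
      ring
    rw [e, four_fsum]
    · rw [Fin.sum_univ_two]
      simp only [if_true, one_ne_zero, if_false, Fin.isValue]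
      rw [four_shift, four_smulc]
      ring
    · intro i _
      fin_cases i
      · simpa using hB.comp_add_right s
      · simpa using hB.neg
  have h2 : ‖𝓕 (fun x => B (x + s) - B x) ξ‖ ≤ ∫ y, ‖B (y + s) - B y‖ := by
    rw [Real.fourier_real_eq_integral_exp_smul]
    refine (norm_integral_le_integral_norm _).trans (le_of_eq ?_)
    congr 1
    funext v
    rw [norm_smul, Complex.norm_exp_ofReal_mul_I, one_mul]
  have h3 : er (2 * Real.pi * ξ) s = -1 := by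
    unfold er
    rcases le_or_gt 0 ξ with h | h
    · have : 2 * Real.pi * ξ * s = Real.pi := by
        rw [hs, abs_of_nonneg h]
        have : ξ ≠ 0 := by
          rintro rfl
          simp at hξ0
        field_simp
      rw [this, Complex.exp_pi_mul_I]
    · have : 2 * Real.pi * ξ * s = -Real.pi := by
        rw [hs, abs_of_neg h]
        have : ξ ≠ 0 := h.ne
        field_simp
      rw [this]
      push_cast
      rw [neg_mul, Complex.exp_neg, Complex.exp_pi_mul_I]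
      norm_num
  rw [h1, h3, norm_mul] at h2
  have h4 : ‖(-1 - 1 : ℂ)‖ = 2 := by norm_num
  rw [h4] at h2
  have h5 := h2.trans (hV s hs0.le hs1)
  have h6 : V * s = 2 * (V / (4 * |ξ|)) := by
    rw [hs]
    field_simp
    ring
  rw [h6] at h5
  linarith

/-- integral of `1/ξ²` away from zero -/
theorem tail_int {T K : ℝ} (hT : 1 ≤ T) (hK : 0 ≤ K) : ∫⁻ ξ : ℝ,
    (Set.Iic T)ᶜ.indicator (fun x => ENNReal.ofReal (K / 2 * (x ^ 2)⁻¹)) |ξ| ≤ ENNReal.ofReal (K / T) := by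
  have hT0 : 0 < T := by linarith
  have h0 : ∫⁻ x in Set.Ioi T, ENNReal.ofReal (K / 2 * (x ^ 2)⁻¹) = ENNReal.ofReal (K / 2 / T) := by
    have hi : IntegrableOn (fun x : ℝ => K / 2 * (x ^ 2)⁻¹) (Set.Ioi T) := by
      have := integrableOn_Ioi_rpow_of_lt (a := -2) (by norm_num) hT0
      refine IntegrableOn.congr_fun (this.const_mul (K / 2)) (fun x hx => ?_) measurableSet_Ioi
      have hx0 : 0 < x := hT0.trans hx
      rw [Real.rpow_neg hx0.le, Real.rpow_two]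
    rw [← ofReal_integral_eq_lintegral_ofReal hi]
    · congr 1
      rw [integral_const_mul]
      have h1 := integral_Ioi_rpow_of_lt (a := -2) (by norm_num) hT0
      have h2 : ∫ x in Set.Ioi T, (x ^ 2)⁻¹ = ∫ x in Set.Ioi T, x ^ (-2 : ℝ) := by
        refine setIntegral_congr_fun measurableSet_Ioi fun x hx => ?_
        have hx0 : 0 < x := hT0.trans hx
        rw [Real.rpow_neg hx0.le, Real.rpow_two]
      rw [h2, h1]
      norm_num
      rw [Real.rpow_neg hT0.le, Real.rpow_one]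
      field_simp
    · refine (ae_restrict_mem measurableSet_Ioi).mono fun x _ => ?_
      simp only [Pi.zero_apply]
      positivity
  have hf : Measurable (fun x : ℝ => ENNReal.ofReal (K / 2 * (x ^ 2)⁻¹)) := by fun_prop
  have h1 : ∀ ξ : ℝ, (Set.Iic T)ᶜ.indicator (fun x => ENNReal.ofReal (K / 2 * (x ^ 2)⁻¹)) |ξ| ≤
      (Set.Ioi T).indicator (fun x => ENNReal.ofReal (K / 2 * (x ^ 2)⁻¹)) ξ +
      (Set.Ioi T).indicator (fun x => ENNReal.ofReal (K / 2 * (x ^ 2)⁻¹)) (-ξ) := by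
    intro ξ
    rcases le_or_gt 0 ξ with h | h
    · rw [abs_of_nonneg h, Set.compl_Iic]
      exact le_add_right le_rfl
    · rw [abs_of_neg h, Set.compl_Iic]
      exact le_add_left le_rfl
  calc _ ≤ ∫⁻ ξ : ℝ, ((Set.Ioi T).indicator (fun x => ENNReal.ofReal (K / 2 * (x ^ 2)⁻¹)) ξ +
      (Set.Ioi T).indicator (fun x => ENNReal.ofReal (K / 2 * (x ^ 2)⁻¹)) (-ξ)) := lintegral_mono h1
    _ = (∫⁻ ξ : ℝ, (Set.Ioi T).indicator (fun x => ENNReal.ofReal (K / 2 * (x ^ 2)⁻¹)) ξ) +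
        ∫⁻ ξ : ℝ, (Set.Ioi T).indicator (fun x => ENNReal.ofReal (K / 2 * (x ^ 2)⁻¹)) (-ξ) :=
        lintegral_add_left (hf.indicator measurableSet_Ioi) _
    _ = ENNReal.ofReal (K / 2 / T) + ENNReal.ofReal (K / 2 / T) := by
        rw [lintegral_neg_eq_self, lintegral_indicator measurableSet_Ioi, h0]
    _ = _ := by
        rw [← ENNReal.ofReal_add (by positivity) (by positivity)]
        congr 1
        ring

theorem B_int {B : ℝ → ℂ} (hBm : Measurable B) (hB : ∀ y, ‖B y‖ ≤ 1) {L : ℝ}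
    (hBs : ∀ y, y ∉ Set.Icc 0 L → B y = 0) : Integrable B := by
  have h1 : IntegrableOn B (Set.Icc 0 L) := by
    refine Measure.integrableOn_of_bounded (M := 1) (by simp) hBm.aestronglyMeasurable ?_
    exact Eventually.of_forall fun y => hB y
  rw [← integrable_indicator_iff measurableSet_Icc] at h1
  refine h1.congr (Eventually.of_forall fun y => ?_)
  by_cases hy : y ∈ Set.Icc 0 L
  · simp [hy]
  · simp only [Set.indicator_of_notMem hy, hBs y hy]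

theorem B_sq {B : ℝ → ℂ} (hB : ∀ y, ‖B y‖ ≤ 1) {L : ℝ}
    (hBs : ∀ y, y ∉ Set.Icc 0 L → B y = 0) : ∫⁻ x, ‖B x‖ₑ ^ 2 ≤ ENNReal.ofReal L := by
  calc ∫⁻ x, ‖B x‖ₑ ^ 2 ≤ ∫⁻ x, (Set.Icc 0 L).indicator (fun _ => (1:ℝ≥0∞)) x := by
        refine lintegral_mono fun x => ?_
        by_cases hx : x ∈ Set.Icc 0 L
        · rw [Set.indicator_of_mem hx]
          have : ‖B x‖ₑ ≤ 1 := by
            rw [← ofReal_norm]
            simpa using ENNReal.ofReal_le_ofReal (hB x)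
          calc _ ≤ (1:ℝ≥0∞) ^ 2 := by gcongr
            _ = 1 := one_pow 2
        · rw [Set.indicator_of_notMem hx, hBs x hx]
          simp
    _ = ENNReal.ofReal L := by
        rw [lintegral_indicator measurableSet_Icc, setLIntegral_const, Real.volume_Icc, sub_zero, one_mul]

theorem enorm_sq_le {z : ℂ} {b : ℝ} (h : ‖z‖ ≤ b) : ‖z‖ₑ ^ 2 ≤ ENNReal.ofReal (b ^ 2) := by
  have hb : 0 ≤ b := (norm_nonneg _).trans h
  rw [ENNReal.ofReal_pow hb, ← ofReal_norm]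
  exact pow_le_pow_left' (ENNReal.ofReal_le_ofReal h) 2

/-- abstract splitting of an integral -/
theorem split_int (E F : ℝ → ℝ≥0∞) (hF : Measurable F) {S L T K N2 V : ℝ} (hT : 1 ≤ T) (hS : 0 ≤ S)
    (hL : 0 ≤ L) (hN2 : 0 ≤ N2) (hK : K = N2 * V ^ 2 / 8)
    (h1 : ∀ ξ, |ξ| ≤ T → E ξ ≤ ENNReal.ofReal S) (h2 : ∀ ξ, E ξ ≤ ENNReal.ofReal N2)
    (h3 : ∀ ξ, T < |ξ| → F ξ ≤ ENNReal.ofReal ((V / (4 * |ξ|)) ^ 2)) (h4 : ∫⁻ ξ, F ξ ≤ ENNReal.ofReal L) :
    ∫⁻ ξ, E ξ * F ξ ≤ ENNReal.ofReal (L * S + K / T) := by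
  have hK0 : 0 ≤ K := by rw [hK]; positivity
  have hT0 : 0 < T := by linarith
  have h5 : ∀ ξ : ℝ, E ξ * F ξ ≤ ENNReal.ofReal S * F ξ +
      (Set.Iic T)ᶜ.indicator (fun x => ENNReal.ofReal (K / 2 * (x ^ 2)⁻¹)) |ξ| := by
    intro ξ
    by_cases hξ : |ξ| ≤ T
    · exact le_add_right (mul_le_mul' (h1 ξ hξ) le_rfl)
    · refine le_add_left ?_
      rw [Set.indicator_of_mem (by simpa using hξ)]
      have hξ1 : T < |ξ| := not_le.1 hξ
      have hξ0 : 0 < |ξ| := by linarith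
      calc _ ≤ ENNReal.ofReal N2 * ENNReal.ofReal ((V / (4 * |ξ|)) ^ 2) := mul_le_mul' (h2 ξ) (h3 ξ hξ1)
        _ = ENNReal.ofReal (N2 * (V / (4 * |ξ|)) ^ 2) := by rw [ENNReal.ofReal_mul hN2]
        _ = _ := by
            congr 1
            rw [hK]
            field_simp
            ring
  calc _ ≤ ∫⁻ ξ : ℝ, (ENNReal.ofReal S * F ξ +
        (Set.Iic T)ᶜ.indicator (fun x => ENNReal.ofReal (K / 2 * (x ^ 2)⁻¹)) |ξ|) := lintegral_mono h5
    _ = ENNReal.ofReal S * (∫⁻ ξ : ℝ, F ξ) + ∫⁻ ξ : ℝ,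
        (Set.Iic T)ᶜ.indicator (fun x => ENNReal.ofReal (K / 2 * (x ^ 2)⁻¹)) |ξ| := by
        rw [lintegral_add_left (hF.const_mul _), lintegral_const_mul _ hF]
    _ ≤ ENNReal.ofReal S * ENNReal.ofReal L + ENNReal.ofReal (K / T) :=
        add_le_add (mul_le_mul' le_rfl h4) (tail_int hT hK0)
    _ = _ := by
        rw [← ENNReal.ofReal_mul hS, ← ENNReal.ofReal_add (by positivity) (by positivity), mul_comm S L]

/-- Tonelli with a product -/
theorem ton {Ω : Type*} [MeasurableSpace Ω] (m : Measure Ω) [SFinite m] (E : Ω → ℝ → ℝ≥0∞) (F : ℝ → ℝ≥0∞)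
    (hE : Measurable (Function.uncurry E)) (hF : Measurable F) :
    ∫⁻ ω, (∫⁻ ξ, E ω ξ * F ξ) ∂m = ∫⁻ ξ, (∫⁻ ω, E ω ξ ∂m) * F ξ := by
  rw [lintegral_lintegral_swap (f := fun ω ξ => E ω ξ * F ξ) (hE.mul (hF.comp measurable_snd)).aemeasurable]
  refine lintegral_congr fun ξ => ?_
  exact lintegral_mul_const _ (hE.comp (measurable_id.prodMk measurable_const))

theorem fin_abs {Ω : Type*} [MeasurableSpace Ω] (m : Measure Ω) [SFinite m] (E : Ω → ℝ → ℝ≥0∞) (F : ℝ → ℝ≥0∞)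
    (hE : Measurable (Function.uncurry E)) (hF : Measurable F) {S L T N2 V : ℝ} (hT : 1 ≤ T) (hS : 0 ≤ S)
    (hL : 0 ≤ L) (hN2 : 0 ≤ N2)
    (h1 : ∀ ξ, |ξ| ≤ T → ∫⁻ ω, E ω ξ ∂m ≤ ENNReal.ofReal S) (h2 : ∀ ξ, ∫⁻ ω, E ω ξ ∂m ≤ ENNReal.ofReal N2)
    (h3 : ∀ ξ, T < |ξ| → F ξ ≤ ENNReal.ofReal ((V / (4 * |ξ|)) ^ 2)) (h4 : ∫⁻ ξ, F ξ ≤ ENNReal.ofReal L) :
    ∫⁻ ω, (∫⁻ ξ, E ω ξ * F ξ) ∂m ≤ ENNReal.ofReal (L * S + N2 * V ^ 2 / 8 / T) := by
  rw [ton m E F hE hF]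
  exact split_int _ F hF hT hS hL hN2 rfl h1 h2 h3 h4

theorem Dn_meas {Ω : Type*} [MeasurableSpace Ω] (d : Ω → ℕ → ℂ)
    (hdm : ∀ n, Measurable fun ω => d ω n) (c : ℝ) (N : ℕ) :
    Measurable (Function.uncurry fun (ω : Ω) (ξ : ℝ) => ‖Dn (d ω) c N (2 * Real.pi * ξ)‖ₑ ^ 2) := by
  have : Measurable (fun p : Ω × ℝ => Dn (d p.1) c N (2 * Real.pi * p.2)) := by
    unfold Dn
    refine Finset.measurable_fun_sum _ fun n _ => ?_
    refine ((hdm n).comp measurable_fst).mul ?_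
    unfold er
    fun_prop
  exact this.enorm.pow_const 2

/-- the Plancherel step -/
theorem planch : S_PLANCH := by
  intro Ω _ m _ d hdm hd B hBm hB L V T S c hL hBs hV hT hS N h
  have hBi : Integrable B := B_int hBm hB hBs
  have hFc : Continuous (𝓕 B) := VectorFourier.fourierIntegral_continuous Real.continuous_fourierChar
      (by exact continuous_inner) hBi
  have hFm : Measurable (fun ξ => ‖𝓕 B ξ‖ₑ ^ 2) := hFc.measurable.enorm.pow_const 2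
  have h1 : ∀ ω, ∫⁻ u, ‖Gn (d ω) B c N u‖ₑ ^ 2 =
      ∫⁻ ξ, ‖Dn (d ω) c N (2 * Real.pi * ξ)‖ₑ ^ 2 * ‖𝓕 B ξ‖ₑ ^ 2 := by
    intro ω
    rw [← Pool.Agent.TH794.QD.plancherel _ (Gn_int (d ω) hBi c N)
      (memLp_of_bdd (Gn_int (d ω) hBi c N) (Gn_le (d ω) (hd ω) hB c N))]
    refine lintegral_congr fun ξ => ?_
    rw [four_Gn _ hBi, enorm_mul, mul_pow]
  have hEm := Dn_meas d hdm c N
  have hb1 : ∀ ξ, |ξ| ≤ T → ∫⁻ ω, ‖Dn (d ω) c N (2 * Real.pi * ξ)‖ₑ ^ 2 ∂m ≤ ENNReal.ofReal S := by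
    intro ξ hξ
    refine h _ ?_
    rw [abs_mul, abs_of_pos (show (0:ℝ) < 2 * Real.pi by positivity)]
    exact mul_le_mul_of_nonneg_left hξ (by positivity)
  have hb2 : ∀ ξ, ∫⁻ ω, ‖Dn (d ω) c N (2 * Real.pi * ξ)‖ₑ ^ 2 ∂m ≤
      ENNReal.ofReal (m.real Set.univ * N ^ 2) := by
    intro ξ
    calc _ ≤ ∫⁻ _, ENNReal.ofReal ((N:ℝ) ^ 2) ∂m :=
          lintegral_mono fun ω => enorm_sq_le (Dn_le _ (hd ω) _ _ _)
      _ = _ := by
          rw [lintegral_const, mul_comm, ENNReal.ofReal_mul (by positivity), measureReal_def,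
            ENNReal.ofReal_toReal (measure_ne_top _ _)]
  have hb3 : ∀ ξ, T < |ξ| → ‖𝓕 B ξ‖ₑ ^ 2 ≤ ENNReal.ofReal ((V / (4 * |ξ|)) ^ 2) := fun ξ hξ =>
    enorm_sq_le (four_decay hBi hV (by linarith))
  have hb4 : ∫⁻ ξ, ‖𝓕 B ξ‖ₑ ^ 2 ≤ ENNReal.ofReal L := by
    rw [Pool.Agent.TH794.QD.plancherel _ hBi (memLp_of_bdd hBi hB)]
    exact B_sq hB hBs
  rw [lintegral_congr h1]
  exact fin_abs m (fun ω ξ => ‖Dn (d ω) c N (2 * Real.pi * ξ)‖ₑ ^ 2) (fun ξ => ‖𝓕 B ξ‖ₑ ^ 2) hEm hFm hT hS hL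
    (by positivity) hb1 hb2 hb3 hb4

end Pool.Agent.Y957.VK
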