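import Pool.Agent.Y957.VK.Flow

/-!
Project VK: families of functions on a finite dimensional space, actions parametrised by such a space.
-/

set_option autoImplicit false

namespace Pool.Agent.Y957.VK

open Finset MeasureTheory Filter Topology

/-- a measurable set which meets every line through the origin in a null set is a null set -/
theorem null_of_lines {V : Type*} [NormedAddCommGroup V] [NormedSpace ℝ V] [FiniteDimensional ℝ V]
    [MeasurableSpace V] [BorelSpace V] (ν : Measure V) [ν.IsAddHaarMeasure] (B : Set V)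
    (hB : MeasurableSet B) (h : ∀ v : V, ∀ᵐ t : ℝ, t • v ∉ B) : ν B = 0 := by
  have hm : MeasurableSet {p : V × ℝ | p.2 • p.1 ∉ B} :=
    (measurable_snd.smul measurable_fst) hB.compl
  have h1 : ∀ᵐ t : ℝ, ∀ᵐ v ∂ν, t • v ∉ B :=
    (Measure.ae_ae_comm (μ := ν) (ν := (volume : Measure ℝ)) (p := fun v t => t • v ∉ B) hm).1
      (ae_of_all _ h)
  have h2 : ∀ᵐ t : ℝ, t ≠ 0 := by
    rw [ae_iff]
    simp
  obtain ⟨t, ht, ht0⟩ := (h1.and h2).exists
  have h3 : ν ((fun v => t • v) ⁻¹' B) = 0 := by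
    rw [ae_iff] at ht
    convert ht using 2
    ext v
    simp
  rw [Measure.addHaar_preimage_smul ν ht0] at h3
  rcases mul_eq_zero.1 h3 with h4 | h4
  · exfalso
    rw [ENNReal.ofReal_eq_zero] at h4
    have : 0 < |(t ^ Module.finrank ℝ V)⁻¹| := abs_pos.2 (inv_ne_zero (pow_ne_zero _ ht0))
    linarith
  · exact h4

/-- families of functions on a finite dimensional space -/
theorem familyV (huc2 : S_UC2) (g : ℕ → ℂ) (hg : ∀ n, ‖g n‖ ≤ 1) (hneg : Neg g)
    {V : Type*} [NormedAddCommGroup V] [NormedSpace ℝ V] [FiniteDimensional ℝ V]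
    [MeasurableSpace V] [BorelSpace V] (ν : Measure V) [ν.IsAddHaarMeasure]
    {E : Type*} [SeminormedAddCommGroup E] (Φ : E → V → ℂ) (M : ℝ)
    (hM : ∀ u u' v, ‖Φ u v - Φ u' v‖ ≤ M * ‖u - u'‖) (h0 : ∀ v, Φ 0 v = 0)
    (hc : ∀ u, Continuous (Φ u))
    (huc : ∀ (u : E) (v : V) (ε : ℝ), 0 < ε → ∃ δ : ℝ, 0 < δ ∧ ∀ t s : ℝ, 0 ≤ s → s < δ →
      ‖Φ u ((t + s) • v) - Φ u (t • v)‖ ≤ ε)
    (S : Set E) (hS : TopologicalSpace.IsSeparable S) :
    ∀ᵐ v ∂ν, ∀ u ∈ S, Tendsto (fun N : ℕ => (1 / (N : ℂ)) * ∑ n ∈ Finset.Icc 1 N, g n * Φ u ((n : ℝ) • v))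
      atTop (𝓝 0) := by
  obtain ⟨D, hD, hSD⟩ := hS
  have h1 : ∀ᵐ v ∂ν, ∀ u ∈ D, Tendsto (fun N : ℕ => (1 / (N : ℂ)) * ∑ n ∈ Finset.Icc 1 N,
      g n * Φ u ((n : ℝ) • v)) atTop (𝓝 0) := by
    rw [ae_ball_iff hD]
    intro u _
    rw [ae_iff]
    have hmeas : MeasurableSet {v : V | Tendsto (fun N : ℕ => (1 / (N : ℂ)) * ∑ n ∈ Finset.Icc 1 N,
        g n * Φ u ((n : ℝ) • v)) atTop (𝓝 0)} := by
      refine measurableSet_tendsto (𝓝 (0 : ℂ)) fun N => ?_
      refine Continuous.measurable ?_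
      refine continuous_const.mul (continuous_finsetSum _ fun n _ => continuous_const.mul ?_)
      exact (hc u).comp (continuous_const.smul continuous_id)
    refine null_of_lines ν _ hmeas.compl fun v => ?_
    have h2 := huc2 g hg hneg (fun t => Φ u (t • v)) (M * ‖u‖) (fun t => by
      have := hM u 0 (t • v)
      rwa [h0, sub_zero, sub_zero] at this) (huc u v) 1 one_pos
    filter_upwards [h2] with t ht
    simp only [not_not]
    refine ht.congr fun N => ?_
    congr 1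
    refine Finset.sum_congr rfl fun n _ => ?_
    simp only [Real.rpow_one]
    rw [smul_smul, mul_comm (n : ℝ) t]
  filter_upwards [h1] with v hv u hu
  refine ces_approx g _ hg fun ε hε => ?_
  have hM1 : 0 < |M| + 1 := by positivity
  obtain ⟨w, hw, huw⟩ := Metric.mem_closure_iff.1 (hSD hu) (ε / (|M| + 1)) (by positivity)
  refine ⟨fun n => Φ w ((n : ℝ) • v), fun n => ?_, hv w hw⟩
  refine (hM u w _).trans ?_
  rw [dist_eq_norm] at huw
  calc M * ‖u - w‖ ≤ (|M| + 1) * ‖u - w‖ := by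
        gcongr
        have := le_abs_self M
        linarith
    _ ≤ (|M| + 1) * (ε / (|M| + 1)) := by gcongr
    _ = ε := by field_simp

end Pool.Agent.Y957.VK
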