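import Pool.Agent.Y957.VK.E1
import Pool.Agent.Y957.VK.FlowV
import Pool.Agent.Y185.VK.Win
import Pool.Agent.Y220.VK.Step
import Pool.Agent.Y185.VK.Seq
import Pool.Agent.Y901.VK.Bc
import Pool.Agent.Y65.VK.PiAll
import Pool.Agent.Y961.VK.UC

/-!
Project VK: assembly of the second part.
-/

set_option autoImplicit false

namespace Pool.Agent.Y957.VK

open Finset MeasureTheory Filter Topology

theorem step_all : S_STEP := Pool.Agent.Y220.VK.step planch Pool.Agent.Y185.VK.win

theorem pi_all : S_PI := Pool.Agent.Y65.VK.pi_all step_all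

theorem all_all : S_ALL := Pool.Agent.Y65.VK.all_of Pool.Agent.Y901.VK.bc pi_all

theorem seq2_all : S_SEQ2 := Pool.Agent.Y185.VK.seq2 all_all

theorem uc2_all : S_UC2 := Pool.Agent.Y961.VK.uc2 all_all

/-- convergence of the averages implies convergence of the logarithmic averages -/
theorem log_of_ces (c : ℕ → ℂ) (M : ℝ) (hM : ∀ n, ‖c n‖ ≤ M)
    (h : Tendsto (fun N : ℕ => (1 / (N : ℂ)) * ∑ n ∈ Finset.Icc 1 N, c n) atTop (𝓝 0)) :
    Tendsto (fun X : ℕ => (1 / (Real.log X : ℂ)) * ∑ n ∈ Icc 1 X, c n / n) atTop (𝓝 0) := by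
  refine Pool.Agent.Y950.AD.log_of_almost c M hM ?_
  set b : ℕ → ℝ := fun N => ‖(1 / (N : ℂ)) * ∑ n ∈ Finset.Icc 1 N, c n‖ with hb
  have hb0 : Tendsto b atTop (𝓝 0) := by
    have h7 := h.norm
    rwa [norm_zero] at h7
  have hbn : ∀ N, 0 ≤ b N := fun N => norm_nonneg _
  rw [Metric.tendsto_atTop]
  intro ε hε
  obtain ⟨N0, hN0⟩ := (Metric.tendsto_atTop.1 hb0) (ε / 4) (by positivity)
  set D : ℝ := ∑ N ∈ Icc 1 N0, b N / N with hD
  have hlog : Tendsto (fun X : ℕ => Real.log X) atTop atTop :=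
    Real.tendsto_log_atTop.comp tendsto_natCast_atTop_atTop
  obtain ⟨X0, hX0⟩ := (hlog.eventually_ge_atTop (max 1 (4 * D / ε))).exists_forall_of_atTop
  refine ⟨max X0 (N0 + 1), fun X hX => ?_⟩
  have h1 := hX0 X ((le_max_left _ _).trans hX)
  have hXN : N0 ≤ X := by have := (le_max_right _ _).trans hX; omega
  have hL1 : 1 ≤ Real.log X := (le_max_left _ _).trans h1
  have hL2 : 4 * D / ε ≤ Real.log X := (le_max_right _ _).trans h1
  have hs : ∑ N ∈ Icc 1 X, b N / N ≤ D + ε / 4 * (1 + Real.log X) := by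
    have h2 : ∑ N ∈ Icc 1 X, b N / N ≤ ∑ N ∈ Icc 1 X, ((if N ≤ N0 then b N / N else 0) + ε / 4 * (1 / N)) := by
      refine Finset.sum_le_sum fun N hN => ?_
      have hN1 : (0 : ℝ) < N := by exact_mod_cast (Finset.mem_Icc.1 hN).1
      split_ifs with h3
      · have : 0 ≤ ε / 4 * (1 / (N : ℝ)) := by positivity
        linarith
      · have h4 := hN0 N (by omega)
        rw [Real.dist_eq, sub_zero, abs_of_nonneg (hbn N)] at h4
        rw [zero_add, mul_one_div]
        gcongr
    refine h2.trans ?_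
    rw [Finset.sum_add_distrib, ← Finset.mul_sum, ← Finset.sum_filter]
    have h5 : (Icc 1 X).filter (fun N => N ≤ N0) = Icc 1 N0 := by
      ext N
      simp only [Finset.mem_filter, Finset.mem_Icc]
      omega
    rw [h5]
    gcongr
    exact Pool.Agent.Y950.AD.harm X
  have hs0 : 0 ≤ ∑ N ∈ Icc 1 X, b N / N := Finset.sum_nonneg fun N _ => by positivity
  rw [Real.dist_eq, sub_zero, abs_of_nonneg (by positivity)]
  have h6 : D ≤ ε / 4 * Real.log X := by
    rw [div_le_iff₀ hε] at hL2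
    linarith
  calc 1 / Real.log X * ∑ N ∈ Icc 1 X, b N / N ≤ 1 / Real.log X * (ε / 4 * Real.log X + ε / 4 * (Real.log X + Real.log X)) := by
        gcongr
        refine hs.trans ?_
        gcongr
    _ = 3 * ε / 4 := by field_simp; ring
    _ < ε := by linarith

end Pool.Agent.Y957.VK
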