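import Pool.Agent.Y957.VK.PrimeCs

/-!
Project VK: primes and integers along horocycle orbits.
-/

set_option autoImplicit false

namespace Pool.Agent.Y957.VK

open Finset MeasureTheory Filter Topology BoundedContinuousFunction Matrix

/-- `SL(2, ℝ)` -/
abbrev SL2 := Matrix.SpecialLinearGroup (Fin 2) ℝ

/-- the horocycle subgroup -/
def hu (t : ℝ) : SL2 := ⟨!![1, t; 0, 1], by simp [Matrix.det_fin_two]⟩

/-- the geodesic subgroup -/
noncomputable def ga (s : ℝ) : SL2 :=
  ⟨!![Real.exp (-s), 0; 0, Real.exp s], by simp [Matrix.det_fin_two, ← Real.exp_add]⟩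

theorem hu_add (s t : ℝ) : hu (s + t) = hu t * hu s := by
  apply Subtype.ext
  ext i j
  fin_cases i <;> fin_cases j <;> simp [hu, Matrix.mul_apply, Fin.sum_univ_two]

theorem hu_zero : hu 0 = 1 := by
  apply Subtype.ext
  ext i j
  fin_cases i <;> fin_cases j <;> simp [hu]

theorem ga_hu (s t : ℝ) : ga s * hu t = hu (Real.exp (-2 * s) * t) * ga s := by
  have e : Real.exp (-2 * s) * t * Real.exp s = Real.exp (-s) * t := by
    have : Real.exp (-2 * s) * Real.exp s = Real.exp (-s) := by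
      rw [← Real.exp_add]
      congr 1
      ring
    calc Real.exp (-2 * s) * t * Real.exp s = (Real.exp (-2 * s) * Real.exp s) * t := by ring
      _ = _ := by rw [this]
  have e' : Real.exp (-(2 * s)) * t * Real.exp s = Real.exp (-s) * t := by
    rw [← e, neg_mul]
  apply Subtype.ext
  ext i j
  fin_cases i <;> fin_cases j <;> simp [hu, ga, Matrix.mul_apply, Fin.sum_univ_two] <;> linarith

theorem continuous_hu : Continuous hu := by
  refine Continuous.subtype_mk ?_ _
  refine continuous_matrix fun i j => ?_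
  fin_cases i <;> fin_cases j <;> simp <;> fun_prop

theorem isFl_hu : IsFl fun (t : ℝ) (g : SL2) => g * hu t where
  zero g := by rw [hu_zero, mul_one]
  add s t g := by rw [hu_add, mul_assoc]

theorem ae_exp {P : ℝ → Prop} (h : ∀ᵐ α : ℝ, P α) : ∀ᵐ s : ℝ, P (Real.exp (-2 * s)) := by
  rw [ae_iff] at h ⊢
  have h1 : volume ((fun a : ℝ => -Real.log a / 2) '' ({α | ¬ P α} ∩ Set.Ioi 0)) = 0 := by
    apply addHaar_image_eq_zero_of_differentiableOn_of_addHaar_eq_zero volume _
      (measure_mono_null Set.inter_subset_left h)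
    intro a ha
    have h2 : a ≠ 0 := ne_of_gt ha.2
    exact (((Real.differentiableAt_log h2).neg).div_const 2).differentiableWithinAt
  refine measure_mono_null (fun s hs => ?_) h1
  refine ⟨Real.exp (-2 * s), ⟨hs, Real.exp_pos _⟩, ?_⟩
  simp only [Real.log_exp]
  ring

/-- the main theorem on horocycle orbits -/
theorem horo (huc : S_WUC) (hlw : S_LW) (hpr : S_PR) (Γ : Subgroup SL2) (K : Set SL2) (hK : IsCompact K)
    (hΓ : ∀ g : SL2, ∃ γ ∈ Γ, γ * g ∈ K) (x : SL2) :
    ∀ᵐ s : ℝ, ∀ f : SL2 → ℂ, Continuous f → (∀ γ ∈ Γ, ∀ g, f (γ * g) = f g) →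
      Tendsto (fun N : ℕ => (1 / (Nat.primeCounting N : ℂ)) *
          ∑ p ∈ (Finset.Icc 1 N).filter Nat.Prime, f (x * ga s * hu p) -
        (1 / (N : ℂ)) * ∑ n ∈ Finset.Icc 1 N, f (x * ga s * hu n)) atTop (𝓝 0) := by
  have : CompactSpace K := isCompact_iff_compactSpace.1 hK
  have : TopologicalSpace.MetrizableSpace (Matrix (Fin 2) (Fin 2) ℝ) :=
    inferInstanceAs (TopologicalSpace.MetrizableSpace (Fin 2 → Fin 2 → ℝ))
  have : TopologicalSpace.MetrizableSpace SL2 :=
    Matrix.SpecialLinearGroup.isClosedEmbedding_val.isEmbedding.metrizableSpace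
  have hc : Continuous fun p : ℝ × SL2 => p.2 * hu p.1 :=
    continuous_snd.mul (continuous_hu.comp continuous_fst)
  have hsep : TopologicalSpace.IsSeparable {f : SL2 →ᵇ ℂ | ∀ γ ∈ Γ, ∀ g, f (γ * g) = f g} := by
    refine sep_of_restrict K _ fun f hf g hg C _ h y => ?_
    obtain ⟨γ, hγ, hy⟩ := hΓ y
    have := h _ hy
    rwa [hf γ hγ, hg γ hγ] at this
  have h1 := prime_sep huc hlw hpr _ isFl_hu x _ hsep (fun f hf ε hε => by
    obtain ⟨δ, hδ, h⟩ := unif_on _ isFl_hu hc f f.continuous K hK ε hε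
    refine ⟨δ, hδ, fun s hs hsδ y => ?_⟩
    obtain ⟨γ, hγ, hy⟩ := hΓ y
    have h2 := h s hs hsδ _ hy
    rwa [mul_assoc, hf γ hγ, hf γ hγ] at h2)
  filter_upwards [ae_exp h1] with s hs
  intro f hf hinv
  obtain ⟨C, hC⟩ := hK.exists_bound_of_continuousOn (f := fun g => f (g * ga s))
    (hf.comp (continuous_mul_const _)).continuousOn
  have hb : ∀ g, ‖f (g * ga s)‖ ≤ C := fun g => by
    obtain ⟨γ, hγ, hy⟩ := hΓ g
    have := hC _ hy
    rwa [mul_assoc, hinv γ hγ] at this
  let F : SL2 →ᵇ ℂ := BoundedContinuousFunction.ofNormedAddCommGroup (fun g => f (g * ga s))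
    (hf.comp (continuous_mul_const _)) C hb
  have h2 := hs F (fun γ hγ g => by
    change f (γ * g * ga s) = f (g * ga s)
    rw [mul_assoc, hinv γ hγ])
  have e : ∀ n : ℕ, F (x * hu (Real.exp (-2 * s) * n)) = f (x * ga s * hu n) := fun n => by
    change f (x * hu (Real.exp (-2 * s) * n) * ga s) = _
    rw [mul_assoc, mul_assoc, ga_hu]
  refine h2.congr fun N => ?_
  unfold dif
  simp only [e]

end Pool.Agent.Y957.VK
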