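import Pool.Agent.Y957.VK.PrimeNth

/-!
Project VK: one-parameter subgroups acting on quotients, orbits along the primes.
-/

set_option autoImplicit false

namespace Pool.Agent.Y957.VK

open Finset MeasureTheory Filter Topology

theorem ae_exp' {P : ℝ → Prop} (h : ∀ᵐ α : ℝ, P α) {c : ℝ} (hc : c ≠ 0) :
    ∀ᵐ s : ℝ, P (Real.exp (c * s)) := by
  rw [ae_iff] at h ⊢
  have h1 : volume ((fun a : ℝ => Real.log a / c) '' ({α | ¬ P α} ∩ Set.Ioi 0)) = 0 := by
    apply addHaar_image_eq_zero_of_differentiableOn_of_addHaar_eq_zero volume _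
      (measure_mono_null Set.inter_subset_left h)
    intro a ha
    have h2 : a ≠ 0 := ne_of_gt ha.2
    exact ((Real.differentiableAt_log h2).div_const c).differentiableWithinAt
  refine measure_mono_null (fun s hs => ?_) h1
  refine ⟨Real.exp (c * s), ⟨hs, Real.exp_pos _⟩, ?_⟩
  simp only [Real.log_exp]
  field_simp

/-- the difference between the average over the first `N` primes and the average over an interval -/
noncomputable def pdif {Y : Type*} (f : Y → ℝ) (φ : ℝ → Y → Y) (α : ℝ) (x : Y) (N : ℕ) : ℝ :=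
  (1 / (N : ℝ)) * ∑ k ∈ Finset.range N, f (φ (α * Nat.nth Nat.Prime k) x) -
        (1 / (α * pr N)) * ∫ t in (0 : ℝ)..(α * pr N), f (φ t x)

theorem marg (huc : S_WUC) (hlw : S_LW) (hpr : S_PR) (hri : S_RIU) {G : Type*} [Group G]
    [TopologicalSpace G] {Y : Type*} [MulAction G Y] [TopologicalSpace Y] [ContinuousSMul G Y]
    [T2Space Y] [LocallyCompactSpace Y] [SecondCountableTopology Y]
    (u : ℝ → G) (hu : Continuous u) (hadd : ∀ s t, u (s + t) = u s * u t) (x : Y) :
    (∀ᵐ α : ℝ, 0 < α → ∀ f : Y → ℝ, Continuous f → HasCompactSupport f →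
      Tendsto (pdif f (fun t y => u t • y) α x) atTop (𝓝 0)) ∧
    ∀ (a : ℝ → G) (c : ℝ), c ≠ 0 → (∀ s t, a s * u t = u (Real.exp (c * s) * t) * a s) →
      ∀ᵐ s : ℝ, ∀ f : Y → ℝ, Continuous f → HasCompactSupport f →
        Tendsto (pdif f (fun t y => u t • y) 1 (a s • x)) atTop (𝓝 0) := by
  have h0 : u 0 = 1 := by
    have := hadd 0 0
    rw [add_zero] at this
    exact (mul_eq_left.1 this.symm)
  have hφ : IsFl fun (t : ℝ) (y : Y) => u t • y :=
    ⟨fun y => by rw [h0, one_smul], fun s t y => by rw [hadd, mul_smul]⟩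
  have hc : Continuous fun p : ℝ × Y => u p.1 • p.2 := (hu.comp continuous_fst).smul continuous_snd
  have hmain := prime_orbit huc hlw hpr hri _ hφ hc x
  refine ⟨hmain, fun a c hc0 hau => ?_⟩
  filter_upwards [ae_exp' hmain (neg_ne_zero.2 hc0)] with s hs f hf hfs
  have hα : 0 < Real.exp (-c * s) := Real.exp_pos _
  have h1 := hs hα (fun y => f (a s • y)) (hf.comp (continuous_const_smul _))
    (hfs.comp_homeomorph (Homeomorph.smul (a s)))
  have e : ∀ t : ℝ, u t • a s • x = a s • u (Real.exp (-c * s) * t) • x := fun t => by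
    have h2 := hau s (Real.exp (-c * s) * t)
    rw [← mul_assoc, ← Real.exp_add] at h2
    have h3 : c * s + -c * s = 0 := by ring
    rw [h3, Real.exp_zero, one_mul] at h2
    rw [← mul_smul, ← mul_smul, h2]
  refine h1.congr fun N => ?_
  unfold pdif
  simp only [one_mul, e]
  congr 1
  have h4 := intervalIntegral.integral_comp_mul_left (fun t => f (a s • u t • x)) hα.ne'
    (a := 0) (b := (pr N : ℝ))
  rw [h4, mul_zero, smul_eq_mul, ← mul_assoc]
  congr 1
  rw [one_div, mul_inv, one_div, mul_comm]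

end Pool.Agent.Y957.VK
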