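import Pool.Agent.Y957.VK.Fin2
import Pool.Agent.Y957.VK.Horo
import Pool.Agent.Y957.VK.Marg
import Pool.Agent.Y748.VK.Wneg
import Pool.Agent.Y768.VK.WUC
import Pool.Agent.Y555.VK.Lw
import Pool.Agent.Y145.VK.WDesc
import Pool.Agent.Y727.VK.Pr
import Pool.Agent.Y751.VK.Lam

/-!
Project VK: assembly of the third part (weights of logarithmic size, primes).
-/

set_option autoImplicit false

namespace Pool.Agent.Y957.VK

open Finset MeasureTheory Filter Topology

theorem lam_all : S_LAM := Pool.Agent.Y751.VK.lam inv_all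

theorem lw_all : S_LW := Pool.Agent.Y555.VK.lw lam_all

theorem wall_all : S_WALL := wall Pool.Agent.Y748.VK.wneg Pool.Agent.Y145.VK.wdesc all_all

theorem wuc_all : S_WUC := Pool.Agent.Y768.VK.wuc wall_all

theorem pr_all : S_PR := Pool.Agent.Y727.VK.pr lw_all

/-- primes and integers along horocycle orbits -/
theorem horo_all (Γ : Subgroup SL2) (K : Set SL2) (hK : IsCompact K)
    (hΓ : ∀ g : SL2, ∃ γ ∈ Γ, γ * g ∈ K) (x : SL2) :
    ∀ᵐ s : ℝ, ∀ f : SL2 → ℂ, Continuous f → (∀ γ ∈ Γ, ∀ g, f (γ * g) = f g) →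
      Tendsto (fun N : ℕ => (1 / (Nat.primeCounting N : ℂ)) *
          ∑ p ∈ (Finset.Icc 1 N).filter Nat.Prime, f (x * ga s * hu p) -
        (1 / (N : ℂ)) * ∑ n ∈ Finset.Icc 1 N, f (x * ga s * hu n)) atTop (𝓝 0) :=
  horo wuc_all lw_all pr_all Γ K hK hΓ x

end Pool.Agent.Y957.VK
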