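import Pool.Agent.Y957.VK.Stm2
import Pool.Agent.Y957.VK.Fin2a
import Pool.Agent.Y950.AD.Flow

/-!
Project VK: families of functions and families of flows, from the statement for uniformly continuous
functions.
-/

set_option autoImplicit false

namespace Pool.Agent.Y957.VK

open Finset MeasureTheory Filter Topology

/-- the Cesàro averages of `g n * A (α n ^ c)` tend to zero -/
def Ces (g : ℕ → ℂ) (A : ℝ → ℂ) (c α : ℝ) : Prop :=
  Tendsto (fun N : ℕ => (1 / (N : ℂ)) * ∑ n ∈ Finset.Icc 1 N, g n * A (α * (n : ℝ) ^ c)) atTop (𝓝 0)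

/-- approximation -/
theorem ces_approx (g a : ℕ → ℂ) (hg : ∀ n, ‖g n‖ ≤ 1)
    (h : ∀ ε : ℝ, 0 < ε → ∃ b : ℕ → ℂ, (∀ n, ‖a n - b n‖ ≤ ε) ∧
      Tendsto (fun N : ℕ => (1 / (N : ℂ)) * ∑ n ∈ Finset.Icc 1 N, g n * b n) atTop (𝓝 0)) :
    Tendsto (fun N : ℕ => (1 / (N : ℂ)) * ∑ n ∈ Finset.Icc 1 N, g n * a n) atTop (𝓝 0) := by
  rw [Metric.tendsto_atTop]
  intro ε hε
  obtain ⟨b, hb, hb2⟩ := h (ε / 2) (by positivity)
  obtain ⟨N0, hN0⟩ := (Metric.tendsto_atTop.1 hb2) (ε / 2) (by positivity)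
  refine ⟨max N0 1, fun N hN => ?_⟩
  have h1 := hN0 N ((le_max_left _ _).trans hN)
  have hN1 : 1 ≤ N := (le_max_right _ _).trans hN
  have hN' : (0 : ℝ) < N := by exact_mod_cast hN1
  rw [dist_zero_right] at h1 ⊢
  have h2 : ‖(1 / (N : ℂ)) * ∑ n ∈ Finset.Icc 1 N, g n * (a n - b n)‖ ≤ ε / 2 := by
    rw [norm_mul, norm_div, norm_one, Complex.norm_natCast]
    have h3 : ‖∑ n ∈ Finset.Icc 1 N, g n * (a n - b n)‖ ≤ N * (ε / 2) := by
      refine (norm_sum_le _ _).trans ?_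
      have : ∀ n ∈ Finset.Icc 1 N, ‖g n * (a n - b n)‖ ≤ ε / 2 := fun n _ => by
        rw [norm_mul]
        calc ‖g n‖ * ‖a n - b n‖ ≤ 1 * (ε / 2) :=
              mul_le_mul (hg n) (hb n) (norm_nonneg _) zero_le_one
          _ = ε / 2 := one_mul _
      refine (Finset.sum_le_sum this).trans ?_
      rw [Finset.sum_const, Nat.card_Icc, nsmul_eq_mul]
      simp
    calc 1 / (N : ℝ) * ‖∑ n ∈ Finset.Icc 1 N, g n * (a n - b n)‖ ≤ 1 / (N : ℝ) * (N * (ε / 2)) := by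
          gcongr
      _ = ε / 2 := by field_simp
  have h4 : (1 / (N : ℂ)) * ∑ n ∈ Finset.Icc 1 N, g n * a n =
      (1 / (N : ℂ)) * ∑ n ∈ Finset.Icc 1 N, g n * b n +
        (1 / (N : ℂ)) * ∑ n ∈ Finset.Icc 1 N, g n * (a n - b n) := by
    rw [← mul_add, ← Finset.sum_add_distrib]
    congr 1
    exact Finset.sum_congr rfl fun n _ => by ring
  rw [h4]
  calc _ ≤ _ := norm_add_le _ _
    _ < ε / 2 + ε / 2 := add_lt_add_of_lt_of_le h1 h2
    _ = ε := by ring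

/-- separable families of functions -/
theorem family (huc2 : S_UC2) (g : ℕ → ℂ) (hg : ∀ n, ‖g n‖ ≤ 1) (hneg : Neg g) (c : ℝ) (hc : 0 < c)
    {E : Type*} [SeminormedAddCommGroup E] (Φ : E → ℝ → ℂ) (M : ℝ)
    (hM : ∀ u v t, ‖Φ u t - Φ v t‖ ≤ M * ‖u - v‖) (h0 : ∀ t, Φ 0 t = 0)
    (huc : ∀ (u : E) (ε : ℝ), 0 < ε → ∃ δ : ℝ, 0 < δ ∧ ∀ t s : ℝ, 0 ≤ s → s < δ → ‖Φ u (t + s) - Φ u t‖ ≤ ε)
    (S : Set E) (hS : TopologicalSpace.IsSeparable S) : ∀ᵐ α : ℝ, ∀ u ∈ S, Ces g (Φ u) c α := by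
  obtain ⟨D, hD, hSD⟩ := hS
  have h1 : ∀ᵐ α : ℝ, ∀ u ∈ D, Ces g (Φ u) c α := by
    rw [ae_ball_iff hD]
    intro u _
    refine huc2 g hg hneg (Φ u) (M * ‖u‖) (fun t => ?_) (huc u) c hc
    have := hM u 0 t
    rwa [h0, sub_zero, sub_zero] at this
  filter_upwards [h1] with α hα u hu
  refine ces_approx g _ hg fun ε hε => ?_
  have hM1 : 0 < |M| + 1 := by positivity
  obtain ⟨v, hv, huv⟩ := Metric.mem_closure_iff.1 (hSD hu) (ε / (|M| + 1)) (by positivity)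
  refine ⟨fun n => Φ v (α * (n : ℝ) ^ c), fun n => ?_, hα v hv⟩
  refine (hM u v _).trans ?_
  rw [dist_eq_norm] at huv
  calc M * ‖u - v‖ ≤ (|M| + 1) * ‖u - v‖ := by
        gcongr
        have := le_abs_self M
        linarith
    _ ≤ (|M| + 1) * (ε / (|M| + 1)) := by gcongr
    _ = ε := by field_simp

universe u

/-- one flow -/
theorem flow (huc2 : S_UC2) (g : ℕ → ℂ) (hg : ∀ n, ‖g n‖ ≤ 1) (hneg : Neg g) (c : ℝ) (hc : 0 < c)
    (X : Type u) [MetricSpace X] [CompactSpace X] (φ : Flow ℝ X) (x : X) :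
    ∀ᵐ α : ℝ, ∀ f : C(X, ℂ), Ces g (fun t => f (φ t x)) c α := by
  have h := family huc2 g hg hneg c hc (E := C(X, ℂ)) (fun f t => f (φ t x)) 1
    (fun f f' t => by
      rw [one_mul, ← dist_eq_norm, ← dist_eq_norm]
      exact ContinuousMap.dist_apply_le_dist _)
    (fun t => rfl)
    (fun f ε hε => by
      obtain ⟨δ, hδ, h⟩ := Pool.Agent.Y950.AD.unif φ f ε hε
      refine ⟨δ, hδ, fun t s hs hsδ => ?_⟩
      have h1 := h s hs hsδ (φ t x)
      rw [← φ.map_add, add_comm s t] at h1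
      exact h1)
    Set.univ (TopologicalSpace.IsSeparable.of_separableSpace _)
  filter_upwards [h] with α hα f
  exact hα f (Set.mem_univ _)

end Pool.Agent.Y957.VK
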