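import Pool.Agent.Y957.VK.Stm3
import Pool.Agent.Y957.VK.FlowV

/-!
Project VK: families of functions, weights of logarithmic size.
-/

set_option autoImplicit false

namespace Pool.Agent.Y957.VK

open Finset MeasureTheory Filter Topology
open Pool.Agent.Y957.AD (PolyVar)

theorem Lg_ne (n : ℕ) : Lg n ≠ 0 := by
  unfold Lg
  have h : 0 < Real.log (n + 3) := Real.log_pos (by
    have : (0 : ℝ) ≤ n := Nat.cast_nonneg n
    linarith)
  exact_mod_cast h.ne'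

theorem norm_Lg (n : ℕ) : ‖Lg n‖ = Real.log (n + 3) := by
  unfold Lg
  have h : 0 < Real.log (n + 3) := Real.log_pos (by
    have : (0 : ℝ) ≤ n := Nat.cast_nonneg n
    linarith)
  rw [Complex.norm_real, Real.norm_eq_abs, abs_of_pos h]

theorem wall (h1 : S_WNEG) (h2 : S_WDESC) (h3 : S_ALL) : S_WALL := by
  intro w hw hneg k A hA hAm hAv c hc
  have hL : ∀ n : ℕ, 0 < Real.log ((n : ℝ) + 3) := fun n => Real.log_pos (by
    have : (0 : ℝ) ≤ n := Nat.cast_nonneg n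
    linarith)
  have h4 := h3 (fun n => w n / Lg n) (fun n => by
    rw [norm_div, norm_Lg, div_le_one (hL n)]
    exact hw n) (h1 w hw hneg) k A hA hAm hAv c hc
  filter_upwards [h4] with α hα
  intro K
  refine (h2 _ hα K).congr fun N => ?_
  congr 2
  refine Finset.sum_congr rfl fun n _ => ?_
  rw [← mul_assoc, mul_div_cancel₀ _ (Lg_ne n)]

/-- approximation -/
theorem w_approx (w a : ℕ → ℂ) (C : ℝ) (hw : ∀ N : ℕ, ∑ n ∈ Finset.Icc 1 N, ‖w n‖ ≤ C * N)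
    (h : ∀ ε : ℝ, 0 < ε → ∃ b : ℕ → ℂ, (∀ n, ‖a n - b n‖ ≤ ε) ∧
      Tendsto (fun N : ℕ => (1 / (N : ℂ)) * ∑ n ∈ Finset.Icc 1 N, w n * b n) atTop (𝓝 0)) :
    Tendsto (fun N : ℕ => (1 / (N : ℂ)) * ∑ n ∈ Finset.Icc 1 N, w n * a n) atTop (𝓝 0) := by
  have hC : 0 ≤ C := by
    have := hw 1
    simp only [Nat.cast_one, mul_one] at this
    exact (Finset.sum_nonneg fun n _ => norm_nonneg _).trans this
  rw [Metric.tendsto_atTop]
  intro ε hε
  obtain ⟨b, hb, hb2⟩ := h (ε / (2 * (C + 1))) (by positivity)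
  obtain ⟨N0, hN0⟩ := (Metric.tendsto_atTop.1 hb2) (ε / 2) (by positivity)
  refine ⟨max N0 1, fun N hN => ?_⟩
  have h1 := hN0 N ((le_max_left _ _).trans hN)
  have hN1 : 1 ≤ N := (le_max_right _ _).trans hN
  have hN' : (0 : ℝ) < N := by exact_mod_cast hN1
  rw [dist_zero_right] at h1 ⊢
  have h2 : ‖(1 / (N : ℂ)) * ∑ n ∈ Finset.Icc 1 N, w n * (a n - b n)‖ ≤ ε / 2 := by
    rw [norm_mul, norm_div, norm_one, Complex.norm_natCast]
    have h3 : ‖∑ n ∈ Finset.Icc 1 N, w n * (a n - b n)‖ ≤ (C * N) * (ε / (2 * (C + 1))) := by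
      refine (norm_sum_le _ _).trans ?_
      refine le_trans ?_ (mul_le_mul_of_nonneg_right (hw N) (by positivity))
      rw [Finset.sum_mul]
      refine Finset.sum_le_sum fun n _ => ?_
      rw [norm_mul]
      exact mul_le_mul_of_nonneg_left (hb n) (norm_nonneg _)
    calc 1 / (N : ℝ) * ‖∑ n ∈ Finset.Icc 1 N, w n * (a n - b n)‖ ≤
          1 / (N : ℝ) * ((C * N) * (ε / (2 * (C + 1)))) := by gcongr
      _ = (C / (C + 1)) * (ε / 2) := by field_simp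
      _ ≤ 1 * (ε / 2) := by
          gcongr
          rw [div_le_one (by positivity)]
          linarith
      _ = ε / 2 := one_mul _
  have h4 : (1 / (N : ℂ)) * ∑ n ∈ Finset.Icc 1 N, w n * a n =
      (1 / (N : ℂ)) * ∑ n ∈ Finset.Icc 1 N, w n * b n +
        (1 / (N : ℂ)) * ∑ n ∈ Finset.Icc 1 N, w n * (a n - b n) := by
    rw [← mul_add, ← Finset.sum_add_distrib]
    congr 1
    exact Finset.sum_congr rfl fun n _ => by ring
  rw [h4]
  calc _ ≤ _ := norm_add_le _ _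
    _ < ε / 2 + ε / 2 := add_lt_add_of_lt_of_le h1 h2
    _ = ε := by ring

/-- separable families of functions on the line -/
theorem familyW (huc : S_WUC) (w : ℕ → ℂ) (hw : ∀ n : ℕ, ‖w n‖ ≤ Real.log (n + 3))
    (C : ℝ) (hC : ∀ N : ℕ, ∑ n ∈ Finset.Icc 1 N, ‖w n‖ ≤ C * N) (hneg : Neg w) (c : ℝ) (hc : 0 < c)
    {E : Type*} [SeminormedAddCommGroup E] (Φ : E → ℝ → ℂ) (M : ℝ)
    (hM : ∀ u v t, ‖Φ u t - Φ v t‖ ≤ M * ‖u - v‖) (h0 : ∀ t, Φ 0 t = 0)
    (hu : ∀ (u : E) (ε : ℝ), 0 < ε → ∃ δ : ℝ, 0 < δ ∧ ∀ t s : ℝ, 0 ≤ s → s < δ → ‖Φ u (t + s) - Φ u t‖ ≤ ε)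
    (S : Set E) (hS : TopologicalSpace.IsSeparable S) : ∀ᵐ α : ℝ, ∀ u ∈ S, Ces w (Φ u) c α := by
  obtain ⟨D, hD, hSD⟩ := hS
  have h1 : ∀ᵐ α : ℝ, ∀ u ∈ D, Ces w (Φ u) c α := by
    rw [ae_ball_iff hD]
    intro u _
    refine huc w hw ⟨C, hC⟩ hneg (Φ u) (M * ‖u‖) (fun t => ?_) (hu u) c hc
    have := hM u 0 t
    rwa [h0, sub_zero, sub_zero] at this
  filter_upwards [h1] with α hα u hu'
  refine w_approx w _ C hC fun ε hε => ?_
  have hM1 : 0 < |M| + 1 := by positivity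
  obtain ⟨v, hv, huv⟩ := Metric.mem_closure_iff.1 (hSD hu') (ε / (|M| + 1)) (by positivity)
  refine ⟨fun n => Φ v (α * (n : ℝ) ^ c), fun n => ?_, hα v hv⟩
  refine (hM u v _).trans ?_
  rw [dist_eq_norm] at huv
  calc M * ‖u - v‖ ≤ (|M| + 1) * ‖u - v‖ := by
        gcongr
        have := le_abs_self M
        linarith
    _ ≤ (|M| + 1) * (ε / (|M| + 1)) := by gcongr
    _ = ε := by field_simp

/-- families of functions on a finite dimensional space -/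
theorem familyVW (huc : S_WUC) (w : ℕ → ℂ) (hw : ∀ n : ℕ, ‖w n‖ ≤ Real.log (n + 3))
    (C : ℝ) (hC : ∀ N : ℕ, ∑ n ∈ Finset.Icc 1 N, ‖w n‖ ≤ C * N) (hneg : Neg w)
    {V : Type*} [NormedAddCommGroup V] [NormedSpace ℝ V] [FiniteDimensional ℝ V]
    [MeasurableSpace V] [BorelSpace V] (ν : Measure V) [ν.IsAddHaarMeasure]
    {E : Type*} [SeminormedAddCommGroup E] (Φ : E → V → ℂ) (M : ℝ)
    (hM : ∀ u u' v, ‖Φ u v - Φ u' v‖ ≤ M * ‖u - u'‖) (h0 : ∀ v, Φ 0 v = 0)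
    (hc : ∀ u, Continuous (Φ u))
    (hu : ∀ (u : E) (v : V) (ε : ℝ), 0 < ε → ∃ δ : ℝ, 0 < δ ∧ ∀ t s : ℝ, 0 ≤ s → s < δ →
      ‖Φ u ((t + s) • v) - Φ u (t • v)‖ ≤ ε)
    (S : Set E) (hS : TopologicalSpace.IsSeparable S) :
    ∀ᵐ v ∂ν, ∀ u ∈ S, Tendsto (fun N : ℕ => (1 / (N : ℂ)) * ∑ n ∈ Finset.Icc 1 N, w n * Φ u ((n : ℝ) • v))
      atTop (𝓝 0) := by
  obtain ⟨D, hD, hSD⟩ := hS
  have h1 : ∀ᵐ v ∂ν, ∀ u ∈ D, Tendsto (fun N : ℕ => (1 / (N : ℂ)) * ∑ n ∈ Finset.Icc 1 N,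
      w n * Φ u ((n : ℝ) • v)) atTop (𝓝 0) := by
    rw [ae_ball_iff hD]
    intro u _
    rw [ae_iff]
    have hmeas : MeasurableSet {v : V | Tendsto (fun N : ℕ => (1 / (N : ℂ)) * ∑ n ∈ Finset.Icc 1 N,
        w n * Φ u ((n : ℝ) • v)) atTop (𝓝 0)} := by
      refine measurableSet_tendsto (𝓝 (0 : ℂ)) fun N => ?_
      refine Continuous.measurable ?_
      refine continuous_const.mul (continuous_finsetSum _ fun n _ => continuous_const.mul ?_)
      exact (hc u).comp (continuous_const.smul continuous_id)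
    refine null_of_lines ν _ hmeas.compl fun v => ?_
    have h2 := huc w hw ⟨C, hC⟩ hneg (fun t => Φ u (t • v)) (M * ‖u‖) (fun t => by
      have := hM u 0 (t • v)
      rwa [h0, sub_zero, sub_zero] at this) (hu u v) 1 one_pos
    filter_upwards [h2] with t ht
    simp only [not_not]
    refine ht.congr fun N => ?_
    congr 1
    refine Finset.sum_congr rfl fun n _ => ?_
    simp only [Real.rpow_one]
    rw [smul_smul, mul_comm (n : ℝ) t]
  filter_upwards [h1] with v hv u hu'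
  refine w_approx w _ C hC fun ε hε => ?_
  have hM1 : 0 < |M| + 1 := by positivity
  obtain ⟨z, hz, huz⟩ := Metric.mem_closure_iff.1 (hSD hu') (ε / (|M| + 1)) (by positivity)
  refine ⟨fun n => Φ z ((n : ℝ) • v), fun n => ?_, hv z hz⟩
  refine (hM u z _).trans ?_
  rw [dist_eq_norm] at huz
  calc M * ‖u - z‖ ≤ (|M| + 1) * ‖u - z‖ := by
        gcongr
        have := le_abs_self M
        linarith
    _ ≤ (|M| + 1) * (ε / (|M| + 1)) := by gcongr
    _ = ε := by field_simp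

end Pool.Agent.Y957.VK
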