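import Pool.Agent.Y957.VK.PrimeFlow

/-!
Project VK: flows on locally compact spaces, functions with compact support.
-/

set_option autoImplicit false

namespace Pool.Agent.Y957.VK

open Finset MeasureTheory Filter Topology BoundedContinuousFunction

/-- modulus of continuity along a flow, uniformly on a compact set -/
theorem unif_on {Y : Type*} [TopologicalSpace Y] (φ : ℝ → Y → Y) (hφ : IsFl φ)
    (hc : Continuous fun p : ℝ × Y => φ p.1 p.2) (f : Y → ℂ) (hf : Continuous f) (L : Set Y)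
    (hL : IsCompact L) (ε : ℝ) (hε : 0 < ε) :
    ∃ δ : ℝ, 0 < δ ∧ ∀ s : ℝ, 0 ≤ s → s < δ → ∀ y ∈ L, ‖f (φ s y) - f y‖ ≤ ε := by
  have : CompactSpace L := isCompact_iff_compactSpace.1 hL
  let G : C(ℝ × L, ℂ) := ⟨fun p => f (φ p.1 p.2), hf.comp
    (hc.comp (continuous_fst.prodMk (continuous_subtype_val.comp continuous_snd)))⟩
  have hcont : Continuous (G.curry : ℝ → C(L, ℂ)) := G.curry.continuous
  obtain ⟨δ, hδ, h⟩ := (Metric.continuous_iff.1 hcont) 0 ε hε
  refine ⟨δ, hδ, fun s hs0 hs y hy => ?_⟩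
  have h1 := h s (by rw [Real.dist_eq, sub_zero, abs_of_nonneg hs0]; exact hs)
  have h2 := (ContinuousMap.dist_apply_le_dist (f := G.curry s) (g := G.curry 0) ⟨y, hy⟩).trans h1.le
  have e1 : (G.curry s) ⟨y, hy⟩ = f (φ s y) := rfl
  have e2 : (G.curry 0) ⟨y, hy⟩ = f y := by
    change f (φ 0 y) = f y
    rw [hφ.zero]
  rw [e1, e2, dist_eq_norm] at h2
  exact h2

/-- compactly supported functions are uniformly continuous along a flow -/
theorem unif_cs {Y : Type*} [TopologicalSpace Y] (φ : ℝ → Y → Y) (hφ : IsFl φ)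
    (hc : Continuous fun p : ℝ × Y => φ p.1 p.2) (f : Y → ℂ) (hf : Continuous f)
    (hs : HasCompactSupport f) (ε : ℝ) (hε : 0 < ε) :
    ∃ δ : ℝ, 0 < δ ∧ ∀ s : ℝ, 0 ≤ s → s < δ → ∀ y, ‖f (φ s y) - f y‖ ≤ ε := by
  have hL : IsCompact ((fun p : ℝ × Y => φ p.1 p.2) '' (Set.Icc (-1) 0 ×ˢ tsupport f)) :=
    (isCompact_Icc.prod hs).image hc
  obtain ⟨δ, hδ, h⟩ := unif_on φ hφ hc f hf _ hL ε hε
  refine ⟨min δ 1, lt_min hδ one_pos, fun s hs0 hs1 y => ?_⟩
  by_cases hy : y ∈ (fun p : ℝ × Y => φ p.1 p.2) '' (Set.Icc (-1) 0 ×ˢ tsupport f)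
  · exact h s hs0 (hs1.trans_le (min_le_left _ _)) y hy
  · have hs2 : s < 1 := hs1.trans_le (min_le_right _ _)
    have h1 : f y = 0 := by
      by_contra hne
      apply hy
      exact ⟨(0, y), ⟨⟨by norm_num, le_refl _⟩, subset_tsupport f hne⟩, hφ.zero y⟩
    have h2 : f (φ s y) = 0 := by
      by_contra hne
      apply hy
      refine ⟨(-s, φ s y), ⟨⟨by linarith, by linarith⟩, subset_tsupport f hne⟩, ?_⟩
      change φ (-s) (φ s y) = y
      rw [← hφ.add, neg_add_cancel, hφ.zero]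
    rw [h1, h2, sub_zero, norm_zero]
    exact hε.le

/-- bounded continuous functions with compact support form a separable set -/
theorem sep_cs (Y : Type*) [TopologicalSpace Y] [T2Space Y] [LocallyCompactSpace Y]
    [SecondCountableTopology Y] :
    TopologicalSpace.IsSeparable {f : Y →ᵇ ℂ | HasCompactSupport f} := by
  have : TopologicalSpace.MetrizableSpace Y := TopologicalSpace.metrizableSpace_of_t3_secondCountable Y
  have K : CompactExhaustion Y := default
  have h1 : ∀ n, TopologicalSpace.IsSeparable {f : Y →ᵇ ℂ | tsupport f ⊆ K n} := by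
    intro n
    have : CompactSpace (K n) := isCompact_iff_compactSpace.1 (K.isCompact n)
    refine sep_of_restrict (K n) _ fun f hf g hg C hC h y => ?_
    by_cases hy : y ∈ K n
    · exact h y hy
    · have e1 : f y = 0 := image_eq_zero_of_notMem_tsupport fun h => hy (hf h)
      have e2 : g y = 0 := image_eq_zero_of_notMem_tsupport fun h => hy (hg h)
      rw [e1, e2, sub_zero, norm_zero]
      exact hC
  refine (TopologicalSpace.IsSeparable.iUnion h1).mono fun f hf => ?_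
  obtain ⟨n, hn⟩ := K.exists_superset_of_isCompact hf
  exact Set.mem_iUnion.2 ⟨n, hn⟩

/-- flows on locally compact spaces: primes and integers -/
theorem prime_cs (huc : S_WUC) (hlw : S_LW) (hpr : S_PR) {Y : Type*} [TopologicalSpace Y] [T2Space Y]
    [LocallyCompactSpace Y] [SecondCountableTopology Y] (φ : ℝ → Y → Y) (hφ : IsFl φ)
    (hc : Continuous fun p : ℝ × Y => φ p.1 p.2) (x : Y) :
    ∀ᵐ α : ℝ, ∀ f : Y →ᵇ ℂ, HasCompactSupport f → Tendsto (dif fun n => f (φ (α * n) x)) atTop (𝓝 0) :=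
  prime_sep huc hlw hpr φ hφ x _ (sep_cs Y) fun f hf ε hε => unif_cs φ hφ hc f f.continuous hf ε hε

/-- flows on locally compact spaces: integers and continuous time -/
theorem int_cs (hri : S_RIU) {Y : Type*} [TopologicalSpace Y] [T2Space Y]
    [LocallyCompactSpace Y] [SecondCountableTopology Y] (φ : ℝ → Y → Y) (hφ : IsFl φ)
    (hc : Continuous fun p : ℝ × Y => φ p.1 p.2) (x : Y) :
    ∀ᵐ α : ℝ, ∀ f : Y →ᵇ ℂ, HasCompactSupport f → Tendsto (fun N : ℕ => (1 / (N : ℂ)) *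
      (∑ n ∈ Finset.Icc 1 N, f (φ (α * n) x) - ∫ v in (0 : ℝ)..N, f (φ (α * v) x))) atTop (𝓝 0) := by
  have h1 := ae_sep _ (sep_cs Y) (fun f α => Tendsto (fun N : ℕ => (1 / (N : ℂ)) *
      (∑ n ∈ Finset.Icc 1 N, f (φ (α * n) x) - ∫ v in (0 : ℝ)..N, f (φ (α * v) x))) atTop (𝓝 0))
    (fun f hf => hri (fun t => f (φ t x)) ‖f‖ (fun t => f.norm_coe_le_norm _) fun ε hε => by
      obtain ⟨δ, hδ, h⟩ := unif_cs φ hφ hc f f.continuous hf ε hε
      refine ⟨δ, hδ, fun t s hs hsδ => ?_⟩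
      have h3 := h s hs hsδ (φ t x)
      rwa [← hφ.add, add_comm s t] at h3)
  filter_upwards [h1] with α hα f hf
  obtain ⟨D, hDS, -, hSD, hD⟩ := hα
  rw [Metric.tendsto_atTop]
  intro ε hε
  obtain ⟨g, hg, hfg⟩ := Metric.mem_closure_iff.1 (hSD hf) (ε / 4) (by positivity)
  rw [dist_eq_norm] at hfg
  obtain ⟨N0, hN0⟩ := (Metric.tendsto_atTop.1 (hD g hg)) (ε / 4) (by positivity)
  refine ⟨max N0 1, fun N hN => ?_⟩
  have h2 := hN0 N ((le_max_left _ _).trans hN)
  have hN1 : (0 : ℝ) < N := by exact_mod_cast (le_max_right _ _).trans hN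
  rw [dist_zero_right] at h2 ⊢
  have hfc : Continuous fun v : ℝ => f (φ (α * v) x) :=
    f.continuous.comp (hc.comp ((continuous_const.mul continuous_id).prodMk continuous_const))
  have hgc : Continuous fun v : ℝ => g (φ (α * v) x) :=
    g.continuous.comp (hc.comp ((continuous_const.mul continuous_id).prodMk continuous_const))
  have hd : ∀ y, ‖f y - g y‖ ≤ ε / 4 := fun y => ((f - g).norm_coe_le_norm y).trans hfg.le
  have e : (1 / (N : ℂ)) * (∑ n ∈ Finset.Icc 1 N, f (φ (α * n) x) - ∫ v in (0 : ℝ)..N, f (φ (α * v) x)) =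
      (1 / (N : ℂ)) * (∑ n ∈ Finset.Icc 1 N, g (φ (α * n) x) - ∫ v in (0 : ℝ)..N, g (φ (α * v) x)) +
      (1 / (N : ℂ)) * (∑ n ∈ Finset.Icc 1 N, (f (φ (α * n) x) - g (φ (α * n) x)) -
        ∫ v in (0 : ℝ)..N, (f (φ (α * v) x) - g (φ (α * v) x))) := by
    rw [intervalIntegral.integral_sub (hfc.intervalIntegrable _ _) (hgc.intervalIntegrable _ _),
      Finset.sum_sub_distrib]
    ring
  rw [e]
  have h3 : ‖∑ n ∈ Finset.Icc 1 N, (f (φ (α * n) x) - g (φ (α * n) x))‖ ≤ N * (ε / 4) := by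
    refine (norm_sum_le _ _).trans ((Finset.sum_le_sum fun n _ => hd _).trans ?_)
    rw [Finset.sum_const, Nat.card_Icc, nsmul_eq_mul]
    simp
  have h4 : ‖∫ v in (0 : ℝ)..N, (f (φ (α * v) x) - g (φ (α * v) x))‖ ≤ (ε / 4) * |(N : ℝ) - 0| :=
    intervalIntegral.norm_integral_le_of_norm_le_const fun v _ => hd _
  rw [sub_zero, abs_of_pos hN1] at h4
  have h5 : ‖(1 / (N : ℂ)) * (∑ n ∈ Finset.Icc 1 N, (f (φ (α * n) x) - g (φ (α * n) x)) -
        ∫ v in (0 : ℝ)..N, (f (φ (α * v) x) - g (φ (α * v) x)))‖ ≤ ε / 2 := by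
    rw [norm_mul, norm_div, norm_one, Complex.norm_natCast]
    calc 1 / (N : ℝ) * ‖_‖ ≤ 1 / (N : ℝ) * (N * (ε / 4) + (ε / 4) * N) := by
          gcongr
          exact (norm_sub_le _ _).trans (add_le_add h3 h4)
      _ = ε / 2 := by field_simp; ring
  calc _ ≤ _ := norm_add_le _ _
    _ < ε / 4 + ε / 2 := add_lt_add_of_lt_of_le h2 h5
    _ < ε := by linarith

end Pool.Agent.Y957.VK
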