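import Mathlib

/-!
Project VK, third part: discrete and continuous averages.
-/

set_option autoImplicit false

namespace Pool.Agent.Y957.VK

open Finset MeasureTheory Filter Topology

/-- (W7) discrete and continuous averages of uniformly continuous functions -/
def S_RIU : Prop := ∀ (A : ℝ → ℂ) (M : ℝ), (∀ t, ‖A t‖ ≤ M) →
  (∀ ε : ℝ, 0 < ε → ∃ δ : ℝ, 0 < δ ∧ ∀ t s : ℝ, 0 ≤ s → s < δ → ‖A (t + s) - A t‖ ≤ ε) →
    ∀ᵐ α : ℝ, Tendsto (fun N : ℕ => (1 / (N : ℂ)) *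
      (∑ n ∈ Finset.Icc 1 N, A (α * n) - ∫ v in (0 : ℝ)..N, A (α * v))) atTop (𝓝 0)

end Pool.Agent.Y957.VK
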