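import Pool.Agent.Y957.VK.FlowW
import Pool.Agent.Y957.VK.Stm3b

/-!
Project VK: prime orbit theorems for almost every time map.
-/

set_option autoImplicit false

namespace Pool.Agent.Y957.VK

open Finset MeasureTheory Filter Topology BoundedContinuousFunction

/-- countable families suffice -/
theorem ae_sep {E : Type*} [SeminormedAddCommGroup E] (S : Set E) (hS : TopologicalSpace.IsSeparable S)
    (P : E → ℝ → Prop) (h : ∀ u ∈ S, ∀ᵐ α : ℝ, P u α) :
    ∀ᵐ α : ℝ, ∃ D ⊆ S, D.Countable ∧ S ⊆ closure D ∧ ∀ u ∈ D, P u α := by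
  obtain ⟨D, hDS, hD, hSD⟩ := hS.exists_countable_dense_subset
  have h1 : ∀ᵐ α : ℝ, ∀ u ∈ D, P u α := by
    rw [ae_ball_iff hD]
    exact fun u hu => h u (hDS hu)
  filter_upwards [h1] with α hα
  exact ⟨D, hDS, hD, hSD, hα⟩

/-- a one-parameter family of maps -/
structure IsFl {Y : Type*} (φ : ℝ → Y → Y) : Prop where
  zero : ∀ y, φ 0 y = y
  add : ∀ s t y, φ (s + t) y = φ s (φ t y)

/-- the difference of the averages over primes and over integers -/
noncomputable def dif (b : ℕ → ℂ) (N : ℕ) : ℂ :=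
  (1 / (Nat.primeCounting N : ℂ)) * ∑ p ∈ (Finset.Icc 1 N).filter Nat.Prime, b p -
      (1 / (N : ℂ)) * ∑ n ∈ Finset.Icc 1 N, b n

/-- primes and integers along an orbit, for a separable set of observables -/
theorem prime_sep (huc : S_WUC) (hlw : S_LW) (hpr : S_PR) {Y : Type*} [TopologicalSpace Y]
    (φ : ℝ → Y → Y) (hφ : IsFl φ) (x : Y) (S : Set (Y →ᵇ ℂ)) (hS : TopologicalSpace.IsSeparable S)
    (hu : ∀ f ∈ S, ∀ ε : ℝ, 0 < ε → ∃ δ : ℝ, 0 < δ ∧ ∀ s : ℝ, 0 ≤ s → s < δ → ∀ y, ‖f (φ s y) - f y‖ ≤ ε) :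
    ∀ᵐ α : ℝ, ∀ f ∈ S, Tendsto (dif fun n => f (φ (α * n) x)) atTop (𝓝 0) := by
  obtain ⟨hw, ⟨C, hC⟩, hneg⟩ := hlw
  have h1 := ae_sep S hS (fun f α => Tendsto (fun N : ℕ => (1 / (N : ℂ)) * ∑ n ∈ Finset.Icc 1 N,
      lamw n * f (φ (α * n) x)) atTop (𝓝 0)) (fun f hf => by
    have h2 := huc lamw hw ⟨C, hC⟩ hneg (fun t => f (φ t x)) ‖f‖ (fun t => f.norm_coe_le_norm _)
      (fun ε hε => by
        obtain ⟨δ, hδ, h⟩ := hu f hf ε hε
        refine ⟨δ, hδ, fun t s hs hsδ => ?_⟩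
        have h3 := h s hs hsδ (φ t x)
        rwa [← hφ.add, add_comm s t] at h3) 1 one_pos
    filter_upwards [h2] with α hα
    refine hα.congr fun N => ?_
    congr 1
    refine Finset.sum_congr rfl fun n _ => ?_
    simp only [Real.rpow_one])
  filter_upwards [h1] with α hα f hf
  obtain ⟨D, hDS, -, hSD, hD⟩ := hα
  refine hpr _ ‖f‖ (fun n => f.norm_coe_le_norm _) ?_
  refine w_approx lamw _ C hC fun ε hε => ?_
  obtain ⟨v, hv, huv⟩ := Metric.mem_closure_iff.1 (hSD hf) ε hε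
  refine ⟨fun n => v (φ (α * n) x), fun n => ?_, hD v hv⟩
  rw [dist_eq_norm] at huv
  have h3 : ‖(f - v) (φ (α * n) x)‖ ≤ ‖f - v‖ := (f - v).norm_coe_le_norm _
  exact h3.trans huv.le

/-- restriction to a compact set -/
theorem sep_of_restrict {Y : Type*} [TopologicalSpace Y] (K : Set Y) [CompactSpace K]
    [TopologicalSpace.MetrizableSpace K] (S : Set (Y →ᵇ ℂ))
    (h : ∀ f ∈ S, ∀ g ∈ S, ∀ C : ℝ, 0 ≤ C → (∀ y ∈ K, ‖f y - g y‖ ≤ C) → ∀ y, ‖f y - g y‖ ≤ C) :
    TopologicalSpace.IsSeparable S := by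
  let _ := TopologicalSpace.metrizableSpaceMetric K
  let r : S → C(K, ℂ) := fun f => ⟨fun y => f.1 y, f.1.continuous.comp continuous_subtype_val⟩
  have hr : Isometry r := by
    refine Isometry.of_dist_eq fun f g => ?_
    apply le_antisymm
    · rw [ContinuousMap.dist_le dist_nonneg]
      intro y
      exact BoundedContinuousFunction.dist_coe_le_dist _
    · change dist f.1 g.1 ≤ _
      rw [BoundedContinuousFunction.dist_le dist_nonneg]
      intro y
      rw [dist_eq_norm]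
      refine h f.1 f.2 g.1 g.2 _ dist_nonneg (fun z hz => ?_) y
      rw [← dist_eq_norm]
      exact ContinuousMap.dist_apply_le_dist (f := r f) (g := r g) ⟨z, hz⟩
  have : SecondCountableTopology S := hr.isEmbedding.secondCountableTopology
  exact TopologicalSpace.IsSeparable.of_subtype S

end Pool.Agent.Y957.VK
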