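import Pool.Agent.Y957.VK.PrimeCs

/-!
Project VK: orbits along the sequence of primes.
-/

set_option autoImplicit false

namespace Pool.Agent.Y957.VK

open Finset MeasureTheory Filter Topology BoundedContinuousFunction

/-- the `N`-th prime, `N ≥ 1` -/
noncomputable def pr (N : ℕ) : ℕ := Nat.nth Nat.Prime (N - 1)

theorem pr_count {N : ℕ} (hN : 1 ≤ N) : Nat.primeCounting (pr N) = N := by
  unfold pr Nat.primeCounting Nat.primeCounting'
  rw [Nat.count_succ, Nat.count_nth_of_infinite Nat.infinite_setOfPred_prime,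
    if_pos (Nat.prime_nth_prime _)]
  omega

theorem pr_sum {N : ℕ} (hN : 1 ≤ N) (b : ℕ → ℂ) :
    ∑ p ∈ (Finset.Icc 1 (pr N)).filter Nat.Prime, b p = ∑ k ∈ Finset.range N, b (Nat.nth Nat.Prime k) := by
  have e : (Finset.Icc 1 (pr N)).filter Nat.Prime = (Finset.range N).image (Nat.nth Nat.Prime) := by
    ext p
    simp only [Finset.mem_filter, Finset.mem_Icc, Finset.mem_image, Finset.mem_range]
    constructor
    · rintro ⟨⟨_, h2⟩, h3⟩
      refine ⟨Nat.count Nat.Prime p, ?_, Nat.nth_count h3⟩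
      have h4 : Nat.count Nat.Prime p ≤ Nat.count Nat.Prime (pr N) := Nat.count_monotone _ h2
      unfold pr at h4
      rw [Nat.count_nth_of_infinite Nat.infinite_setOfPred_prime] at h4
      omega
    · rintro ⟨k, hk, rfl⟩
      have h1 := Nat.prime_nth_prime k
      refine ⟨⟨h1.one_lt.le, ?_⟩, h1⟩
      exact (Nat.nth_monotone Nat.infinite_setOfPred_prime) (by omega)
  rw [e, Finset.sum_image]
  intro a _ b _ hab
  exact Nat.nth_injective Nat.infinite_setOfPred_prime hab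

theorem pr_tendsto : Tendsto pr atTop atTop := by
  have h1 : Tendsto (Nat.nth Nat.Prime) atTop atTop :=
    (Nat.nth_strictMono Nat.infinite_setOfPred_prime).tendsto_atTop
  exact h1.comp (tendsto_sub_atTop_nat 1)

/-- the averages along the first `N` primes -/
theorem prime_orbit (huc : S_WUC) (hlw : S_LW) (hpr : S_PR) (hri : S_RIU) {Y : Type*}
    [TopologicalSpace Y] [T2Space Y] [LocallyCompactSpace Y] [SecondCountableTopology Y]
    (φ : ℝ → Y → Y) (hφ : IsFl φ) (hc : Continuous fun p : ℝ × Y => φ p.1 p.2) (x : Y) :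
    ∀ᵐ α : ℝ, 0 < α → ∀ f : Y → ℝ, Continuous f → HasCompactSupport f →
      Tendsto (fun N : ℕ => (1 / (N : ℝ)) * ∑ k ∈ Finset.range N, f (φ (α * Nat.nth Nat.Prime k) x) -
        (1 / (α * pr N)) * ∫ t in (0 : ℝ)..(α * pr N), f (φ t x)) atTop (𝓝 0) := by
  filter_upwards [prime_cs huc hlw hpr φ hφ hc x, int_cs hri φ hφ hc x] with α h1 h2 hα f hf hs
  obtain ⟨C, hC⟩ := hs.exists_bound_of_continuous hf
  let F : Y →ᵇ ℂ := BoundedContinuousFunction.ofNormedAddCommGroup (fun y => ((f y : ℝ) : ℂ))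
    (Complex.continuous_ofReal.comp hf) C (fun y => by
      rw [Complex.norm_real]
      exact hC y)
  have hF : HasCompactSupport F := by
    have : HasCompactSupport (fun y => ((f y : ℝ) : ℂ)) := hs.comp_left (g := fun r : ℝ => (r : ℂ)) (by simp)
    exact this
  have h3 := ((h1 F hF).comp pr_tendsto).add ((h2 F hF).comp pr_tendsto)
  rw [add_zero] at h3
  have h4 := (Complex.continuous_re.tendsto 0).comp h3
  rw [Complex.zero_re] at h4
  refine h4.congr' ?_
  filter_upwards [eventually_ge_atTop 1] with N hN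
  have hP : 0 < pr N := (Nat.prime_nth_prime _).pos
  have hP' : (0 : ℝ) < pr N := by exact_mod_cast hP
  have hFv : ∀ y, F y = ((f y : ℝ) : ℂ) := fun y => rfl
  have hint : ∫ v in (0 : ℝ)..(pr N : ℝ), F (φ (α * v) x) =
      ((α⁻¹ * ∫ t in (0 : ℝ)..(α * pr N), f (φ t x) : ℝ) : ℂ) := by
    have e1 : ∫ v in (0 : ℝ)..(pr N : ℝ), f (φ (α * v) x) = α⁻¹ * ∫ t in (0 : ℝ)..(α * pr N), f (φ t x) := by
      have := intervalIntegral.integral_comp_mul_left (fun t => f (φ t x)) hα.ne' (a := 0) (b := (pr N : ℝ))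
      rw [this, mul_zero, smul_eq_mul]
    rw [← e1, ← intervalIntegral.integral_ofReal]
    rfl
  have hsum : ∀ s : Finset ℕ, ∑ n ∈ s, F (φ (α * n) x) = ((∑ n ∈ s, f (φ (α * n) x) : ℝ) : ℂ) := fun s => by
    push_cast
    rfl
  have hsumP : ∑ p ∈ (Finset.Icc 1 (pr N)).filter Nat.Prime, F (φ (α * p) x) =
      ((∑ k ∈ Finset.range N, f (φ (α * Nat.nth Nat.Prime k) x) : ℝ) : ℂ) := by
    rw [pr_sum hN (fun n => F (φ (α * n) x))]
    push_cast
    rfl
  simp only [Function.comp_apply, dif]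
  rw [hsumP, hsum, hint, pr_count hN]
  have e : (1 / (N : ℂ)) * ((∑ k ∈ Finset.range N, f (φ (α * Nat.nth Nat.Prime k) x) : ℝ) : ℂ) -
      (1 / ((pr N : ℕ) : ℂ)) * ((∑ n ∈ Finset.Icc 1 (pr N), f (φ (α * n) x) : ℝ) : ℂ) +
      (1 / ((pr N : ℕ) : ℂ)) * (((∑ n ∈ Finset.Icc 1 (pr N), f (φ (α * n) x) : ℝ) : ℂ) -
        ((α⁻¹ * ∫ t in (0 : ℝ)..(α * pr N), f (φ t x) : ℝ) : ℂ)) =
      (((1 / (N : ℝ)) * ∑ k ∈ Finset.range N, f (φ (α * Nat.nth Nat.Prime k) x) -
        (1 / (α * pr N)) * ∫ t in (0 : ℝ)..(α * pr N), f (φ t x) : ℝ) : ℂ) := by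
    push_cast
    have hα' : (α : ℂ) ≠ 0 := by exact_mod_cast hα.ne'
    have hP'' : ((pr N : ℕ) : ℂ) ≠ 0 := by exact_mod_cast hP.ne'
    field_simp
    ring
  rw [e, Complex.ofReal_re]

end Pool.Agent.Y957.VK
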