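import Pool.Agent.Y957.MC.Poly
import Pool.Agent.Y571.MC.Poly
import Pool.Agent.Y274.MC.Regc

/-!
Step functions with jumps at the integers: modulus of continuity in the mean, averages along polynomials.
-/

set_option autoImplicit false

namespace Pool.Agent.Y957.St

open Finset MeasureTheory Filter Topology
open Pool.Agent.Y957.MC (Mod S_DETG detg_all Adm S_REGC)

/-- the step function of a sequence -/
noncomputable def sf (b : ℕ → ℂ) (t : ℝ) : ℂ := b ⌊t⌋₊

theorem sf_meas (b : ℕ → ℂ) : Measurable (sf b) := (measurable_of_countable b).comp Nat.measurable_floor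

theorem sf_diff {b : ℕ → ℂ} (hb : ∀ n, ‖b n‖ ≤ 1) {x y : ℝ} (h : x ≤ y) :
    ‖sf b y - sf b x‖ ≤ 2 * ((⌊y⌋₊ : ℝ) - ⌊x⌋₊) := by
  have h1 : ⌊x⌋₊ ≤ ⌊y⌋₊ := Nat.floor_mono h
  rcases h1.eq_or_lt with h2 | h2
  · unfold sf
    rw [h2, sub_self, norm_zero]
    simp
  · have h3 : (⌊x⌋₊ : ℝ) + 1 ≤ ⌊y⌋₊ := by exact_mod_cast h2
    have h4 : ‖sf b y - sf b x‖ ≤ 2 := (norm_sub_le _ _).trans (by
      have := hb ⌊y⌋₊
      have := hb ⌊x⌋₊
      unfold sf
      linarith)
    linarith

theorem sf_mod (b : ℕ → ℂ) (hb : ∀ n, ‖b n‖ ≤ 1) (Λ : ℝ) (hΛ : 1 ≤ Λ) :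
    ∃ C : ℝ, ∀ M : ℝ, 1 ≤ M → Mod Λ (sf b) C M := by
  refine ⟨2 * Real.exp (Λ + 1), fun M hM h hh hh1 => ?_⟩
  have hM0 : 0 < M := by linarith
  set w : ℝ → ℝ := fun s => (⌊M * Real.exp s⌋₊ : ℝ) with hw
  have hmono : Monotone w := fun s t hst => by
    simp only [hw]
    exact_mod_cast Nat.floor_mono (mul_le_mul_of_nonneg_left (Real.exp_le_exp.2 hst) hM0.le)
  have hwi : ∀ c d, IntervalIntegrable w volume c d := fun c d => hmono.intervalIntegrable
  have hwi' : ∀ c d, IntervalIntegrable (fun s => w (s + h)) volume c d := fun c d => by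
    have : Monotone fun s => w (s + h) := fun s t hst => hmono (by linarith)
    exact this.intervalIntegrable
  have hfm : Measurable fun s : ℝ => ‖sf b (M * Real.exp (s + h)) - sf b (M * Real.exp s)‖ := by
    have h1 : Measurable fun s : ℝ => sf b (M * Real.exp s) :=
      (sf_meas b).comp (Real.continuous_exp.measurable.const_mul M)
    exact ((h1.comp (measurable_id.add_const h)).sub h1).norm
  have hfi : IntervalIntegrable (fun s : ℝ => ‖sf b (M * Real.exp (s + h)) - sf b (M * Real.exp s)‖)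
      volume 0 Λ := by
    refine (intervalIntegrable_const (c := (2 : ℝ))).mono_fun hfm.aestronglyMeasurable ?_
    refine ae_of_all _ fun s => ?_
    have h2 : ‖(2 : ℝ)‖ = 2 := by norm_num
    simp only [norm_norm, h2]
    refine (norm_sub_le _ _).trans ?_
    have := hb ⌊M * Real.exp (s + h)⌋₊
    have := hb ⌊M * Real.exp s⌋₊
    unfold sf
    linarith
  have h1 : ∫ s in (0 : ℝ)..Λ, ‖sf b (M * Real.exp (s + h)) - sf b (M * Real.exp s)‖ ≤
      ∫ s in (0 : ℝ)..Λ, 2 * (w (s + h) - w s) := by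
    refine intervalIntegral.integral_mono_on (by linarith) hfi (((hwi' _ _).sub (hwi _ _)).const_mul 2) ?_
    intro s _
    exact sf_diff hb (mul_le_mul_of_nonneg_left (Real.exp_le_exp.2 (by linarith)) hM0.le)
  refine h1.trans ?_
  rw [intervalIntegral.integral_const_mul, intervalIntegral.integral_sub (hwi' _ _) (hwi _ _),
    intervalIntegral.integral_comp_add_right (fun s => w s) h, zero_add]
  have h2 : (∫ s in h..(Λ + h), w s) - ∫ s in (0 : ℝ)..Λ, w s =
      (∫ s in Λ..(Λ + h), w s) - ∫ s in (0 : ℝ)..h, w s := by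
    have e1 := intervalIntegral.integral_add_adjacent_intervals (hwi 0 h) (hwi h (Λ + h))
    have e2 := intervalIntegral.integral_add_adjacent_intervals (hwi 0 Λ) (hwi Λ (Λ + h))
    linarith
  have h3 : 0 ≤ ∫ s in (0 : ℝ)..h, w s :=
    intervalIntegral.integral_nonneg hh.le fun s _ => by positivity
  have h4 : ∫ s in Λ..(Λ + h), w s ≤ M * Real.exp (Λ + 1) * h := by
    have h5 : ∫ s in Λ..(Λ + h), w s ≤ ∫ s in Λ..(Λ + h), M * Real.exp (Λ + 1) := by
      refine intervalIntegral.integral_mono_on (by linarith) (hwi _ _) (by simp) fun s hs => ?_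
      refine (Nat.floor_le (by positivity)).trans ?_
      apply mul_le_mul_of_nonneg_left _ hM0.le
      exact Real.exp_le_exp.2 (by linarith [hs.2])
    refine h5.trans (le_of_eq ?_)
    rw [intervalIntegral.integral_const, smul_eq_mul]
    ring
  rw [h2]
  calc 2 * ((∫ s in Λ..(Λ + h), w s) - ∫ s in (0 : ℝ)..h, w s) ≤ 2 * (M * Real.exp (Λ + 1) * h) := by
        linarith
    _ = _ := by ring

/-- periodic bumps at the integers -/
noncomputable def Bh (h t : ℝ) : ℝ := max 0 (min 1 (2 - ‖(t : UnitAddCircle)‖ / h))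

theorem Bh_cont (h : ℝ) : Continuous (Bh h) := by
  unfold Bh
  have h1 : Continuous fun t : ℝ => ‖(t : UnitAddCircle)‖ := (AddCircle.continuous_mk' 1).norm
  exact continuous_const.max (continuous_const.min (continuous_const.sub (h1.div_const h)))

theorem Bh_nonneg (h t : ℝ) : 0 ≤ Bh h t := le_max_left _ _

theorem Bh_le (h t : ℝ) : Bh h t ≤ 1 := max_le zero_le_one (min_le_left _ _)

theorem Bh_one {h t : ℝ} (hh : 0 < h) (ht : ‖(t : UnitAddCircle)‖ ≤ h) : Bh h t = 1 := by
  unfold Bh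
  have h1 : ‖(t : UnitAddCircle)‖ / h ≤ 1 := (div_le_one hh).2 ht
  rw [min_eq_left (by linarith), max_eq_right zero_le_one]

theorem Bh_zero {h t : ℝ} (hh : 0 < h) (ht : 2 * h ≤ ‖(t : UnitAddCircle)‖) : Bh h t = 0 := by
  unfold Bh
  have h1 : 2 ≤ ‖(t : UnitAddCircle)‖ / h := (le_div_iff₀ hh).2 ht
  rw [max_eq_left]
  exact (min_le_right _ _).trans (by linarith)

theorem Bh_per (h : ℝ) : Function.Periodic (Bh h) 1 := by
  intro t
  unfold Bh
  rw [AddCircle.coe_add, AddCircle.coe_period, add_zero]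

theorem Bh_int {h : ℝ} (hh : 0 < h) (hh4 : h ≤ 1 / 4) : ∫ t in (0 : ℝ)..1, Bh h t ≤ 4 * h := by
  have hi : ∀ a b, IntervalIntegrable (Bh h) volume a b := fun a b => (Bh_cont h).intervalIntegrable a b
  rw [← intervalIntegral.integral_add_adjacent_intervals (hi 0 (2 * h)) (hi (2 * h) 1),
    ← intervalIntegral.integral_add_adjacent_intervals (hi (2 * h) (1 - 2 * h)) (hi (1 - 2 * h) 1)]
  have h1 : ∫ t in (0 : ℝ)..(2 * h), Bh h t ≤ 2 * h := by
    have := intervalIntegral.integral_mono_on (a := 0) (b := 2 * h) (by linarith) (hi _ _)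
      (intervalIntegrable_const (c := (1 : ℝ))) fun t _ => Bh_le h t
    rw [intervalIntegral.integral_const, smul_eq_mul] at this
    linarith
  have h2 : ∫ t in (1 - 2 * h)..1, Bh h t ≤ 2 * h := by
    have := intervalIntegral.integral_mono_on (a := 1 - 2 * h) (b := 1) (by linarith) (hi _ _)
      (intervalIntegrable_const (c := (1 : ℝ))) fun t _ => Bh_le h t
    rw [intervalIntegral.integral_const, smul_eq_mul] at this
    linarith
  have h3 : ∫ t in (2 * h)..(1 - 2 * h), Bh h t = 0 := by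
    rw [intervalIntegral.integral_congr (g := fun _ => (0 : ℝ))]
    · simp
    · intro t ht
      rw [Set.uIcc_of_le (by linarith)] at ht
      simp only
      apply Bh_zero hh
      rw [UnitAddCircle.norm_eq]
      rcases le_or_gt t (1 / 2) with h4 | h4
      · have : |t - round t| = |t| ∨ 2 * h ≤ |t - round t| := by
          rcases eq_or_ne (round t) 0 with h5 | h5
          · left
            rw [h5]; simp
          · right
            have h6 : |t| ≤ 1 / 2 := by rw [abs_of_nonneg (by linarith [ht.1])]; exact h4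
            have h7 : (1 : ℝ) ≤ |((round t : ℤ) : ℝ)| := by
              have := Int.one_le_abs h5
              exact_mod_cast this
            have h8 : |((round t : ℤ) : ℝ)| ≤ |t| + |t - round t| := by
              have := abs_sub_abs_le_abs_sub ((round t : ℤ) : ℝ) t
              rw [abs_sub_comm] at this
              linarith
            linarith
        rcases this with h5 | h5
        · rw [h5, abs_of_nonneg (by linarith [ht.1])]
          exact ht.1
        · exact h5
      · have h6 := round_le t 1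
        have : |t - round t| = |t - 1| ∨ 2 * h ≤ |t - round t| := by
          rcases eq_or_ne (round t) 1 with h5 | h5
          · left
            rw [h5]; simp
          · right
            have h7 : (1 : ℝ) ≤ |(((round t - 1 : ℤ)) : ℝ)| := by
              have := Int.one_le_abs (sub_ne_zero.2 h5)
              exact_mod_cast this
            have h9 : |t - 1| ≤ 1 / 2 := by
              rw [abs_le]
              constructor <;> linarith [ht.2]
            have h8 : |(((round t - 1 : ℤ)) : ℝ)| ≤ |t - 1| + |t - round t| := by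
              have e : (((round t - 1 : ℤ)) : ℝ) = (t - 1) - (t - round t) := by push_cast; ring
              rw [e]
              exact abs_sub _ _
            linarith
        rcases this with h5 | h5
        · rw [h5, abs_sub_comm, abs_of_nonneg (by linarith [ht.2])]
          linarith [ht.2]
        · exact h5
  linarith

/-- averages of the bumps over long intervals -/
theorem Bh_avg {h : ℝ} (hh : 0 < h) (hh4 : h ≤ 1 / 4) (V : ℝ) (hV : 1 ≤ V) :
    (1 / V) * ∫ t in (0 : ℝ)..V, Bh h t ≤ 8 * h := by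
  have hi : ∀ a b, IntervalIntegrable (Bh h) volume a b := fun a b => (Bh_cont h).intervalIntegrable a b
  have h1 : ∫ t in (0 : ℝ)..V, Bh h t ≤ ∫ t in (0 : ℝ)..(⌈V⌉₊ : ℝ), Bh h t := by
    have e := intervalIntegral.integral_add_adjacent_intervals (hi 0 V) (hi V (⌈V⌉₊ : ℝ))
    have : 0 ≤ ∫ t in V..(⌈V⌉₊ : ℝ), Bh h t :=
      intervalIntegral.integral_nonneg (Nat.le_ceil V) fun t _ => Bh_nonneg h t
    linarith
  have h2 : ∀ n : ℕ, ∫ t in (0 : ℝ)..(n : ℝ), Bh h t = n * ∫ t in (0 : ℝ)..1, Bh h t := by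
    intro n
    induction n with
    | zero => simp
    | succ n ih =>
      rw [← intervalIntegral.integral_add_adjacent_intervals (hi 0 n) (hi n _), ih]
      have h3 : ∫ t in (n : ℝ)..((n + 1 : ℕ) : ℝ), Bh h t = ∫ t in (0 : ℝ)..1, Bh h t := by
        have h4 := (Bh_per h).intervalIntegral_add_eq (n : ℝ) 0
        rw [zero_add] at h4
        push_cast
        exact h4
      rw [h3]
      push_cast
      ring
  rw [h2] at h1
  have h3 := Bh_int hh hh4
  have h4 : (⌈V⌉₊ : ℝ) ≤ 2 * V := by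
    have := Nat.ceil_lt_add_one (by linarith : 0 ≤ V)
    linarith
  have hV0 : 0 < V := by linarith
  calc (1 / V) * ∫ t in (0 : ℝ)..V, Bh h t ≤ (1 / V) * ((⌈V⌉₊ : ℝ) * ∫ t in (0 : ℝ)..1, Bh h t) := by gcongr
    _ ≤ (1 / V) * ((2 * V) * (4 * h)) := by
        gcongr
        exact intervalIntegral.integral_nonneg zero_le_one fun t _ => Bh_nonneg h t
    _ = 8 * h := by field_simp; ring

/-- local averages of a step function -/
noncomputable def lo (b : ℕ → ℂ) (h t : ℝ) : ℂ := (1 / (h : ℂ)) * ∫ s in t..(t + h), sf b s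

theorem sf_ii (b : ℕ → ℂ) (hb : ∀ n, ‖b n‖ ≤ 1) (x y : ℝ) : IntervalIntegrable (sf b) volume x y := by
  refine (intervalIntegrable_const (c := (1 : ℝ))).mono_fun (sf_meas b).aestronglyMeasurable ?_
  refine ae_of_all _ fun s => ?_
  simp only [norm_one]
  exact hb _

theorem lo_norm {b : ℕ → ℂ} (hb : ∀ n, ‖b n‖ ≤ 1) {h : ℝ} (hh : 0 < h) (t : ℝ) : ‖lo b h t‖ ≤ 1 := by
  unfold lo
  have h1 : ‖∫ s in t..(t + h), sf b s‖ ≤ 1 * |t + h - t| :=
    intervalIntegral.norm_integral_le_of_norm_le_const fun s _ => hb _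
  rw [add_sub_cancel_left, abs_of_pos hh] at h1
  rw [norm_mul, norm_div, norm_one, Complex.norm_real, Real.norm_eq_abs, abs_of_pos hh]
  calc 1 / h * ‖∫ s in t..(t + h), sf b s‖ ≤ 1 / h * (1 * h) := by gcongr
    _ = 1 := by field_simp

theorem lo_cont {b : ℕ → ℂ} (hb : ∀ n, ‖b n‖ ≤ 1) (h : ℝ) : Continuous (lo b h) := by
  have hp : Continuous fun x : ℝ => ∫ s in (0 : ℝ)..x, sf b s :=
    intervalIntegral.continuous_primitive (fun x y => sf_ii b hb x y) 0
  have e : lo b h = fun t => (1 / (h : ℂ)) * ((∫ s in (0 : ℝ)..(t + h), sf b s) - ∫ s in (0 : ℝ)..t, sf b s) := by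
    funext t
    unfold lo
    congr 1
    rw [← intervalIntegral.integral_add_adjacent_intervals (sf_ii b hb 0 t) (sf_ii b hb t (t + h))]
    ring
  rw [e]
  exact continuous_const.mul ((hp.comp (continuous_id.add continuous_const)).sub hp)

theorem lo_near {b : ℕ → ℂ} (hb : ∀ n, ‖b n‖ ≤ 1) {h : ℝ} (hh : 0 < h) (hh1 : h ≤ 1 / 4) (t : ℝ) :
    ‖lo b h t - sf b t‖ ≤ 2 * Bh h t := by
  by_cases hc : ⌊t + h⌋₊ = ⌊t⌋₊
  · have h1 : ∫ s in t..(t + h), sf b s = ∫ s in t..(t + h), b ⌊t⌋₊ := by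
      apply intervalIntegral.integral_congr
      intro s hs
      rw [Set.uIcc_of_le (by linarith)] at hs
      have h2 : ⌊s⌋₊ = ⌊t⌋₊ := le_antisymm ((Nat.floor_mono hs.2).trans hc.le) (Nat.floor_mono hs.1)
      simp only [sf, h2]
    have h0 : (h : ℂ) ≠ 0 := by exact_mod_cast hh.ne'
    have h2 : lo b h t = sf b t := by
      unfold lo
      rw [h1, intervalIntegral.integral_const, add_sub_cancel_left, Complex.real_smul]
      unfold sf
      field_simp
    rw [h2, sub_self, norm_zero]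
    have := Bh_nonneg h t
    linarith
  · -- an integer in (t, t + h]
    have h1 : ⌊t⌋₊ < ⌊t + h⌋₊ := lt_of_le_of_ne (Nat.floor_mono (by linarith)) (Ne.symm hc)
    have ht : 0 ≤ t := by
      by_contra hcon
      have h0 : ⌊t + h⌋₊ = 0 := Nat.floor_eq_zero.2 (by linarith)
      omega
    have h2 : ((⌊t⌋₊ : ℕ) : ℝ) + 1 ≤ t + h := by
      have h3 : (⌊t⌋₊ + 1 : ℕ) ≤ ⌊t + h⌋₊ := h1
      have h4 : ((⌊t⌋₊ + 1 : ℕ) : ℝ) ≤ t + h :=
        (Nat.cast_le.2 h3).trans (Nat.floor_le (by linarith))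
      push_cast at h4
      exact h4
    have h3 : t < ((⌊t⌋₊ : ℕ) : ℝ) + 1 := Nat.lt_floor_add_one t
    have h4 : ‖(t : UnitAddCircle)‖ ≤ h := by
      rw [UnitAddCircle.norm_eq]
      have h5 := round_le t (⌊t⌋₊ + 1 : ℤ)
      refine h5.trans ?_
      push_cast
      rw [abs_sub_comm, abs_of_pos (by linarith)]
      linarith
    rw [Bh_one hh h4]
    have h5 := lo_norm hb hh t
    have h6 : ‖sf b t‖ ≤ 1 := hb _
    have := norm_sub_le (lo b h t) (sf b t)
    linarith

theorem sf_int (b : ℕ → ℂ) (hb : ∀ n, ‖b n‖ ≤ 1) (M : ℕ) :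
    ∫ t in (0 : ℝ)..(M : ℝ), sf b t = ∑ m ∈ Finset.range M, b m := by
  induction M with
  | zero => simp
  | succ M ih =>
    rw [← intervalIntegral.integral_add_adjacent_intervals (sf_ii b hb 0 M) (sf_ii b hb M _), ih,
      Finset.sum_range_succ]
    congr 1
    have h1 : ∫ t in (M : ℝ)..((M + 1 : ℕ) : ℝ), sf b t = ∫ t in (M : ℝ)..((M + 1 : ℕ) : ℝ), b M := by
      apply intervalIntegral.integral_congr_ae
      have hne : ∀ᵐ t : ℝ, t ≠ ((M + 1 : ℕ) : ℝ) := by
        rw [ae_iff]
        simp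
      filter_upwards [hne] with t ht hmem
      rw [Set.uIoc_of_le (by push_cast; linarith)] at hmem
      have h2 : ⌊t⌋₊ = M := by
        rw [Nat.floor_eq_iff (le_trans (Nat.cast_nonneg M) hmem.1.le)]
        refine ⟨hmem.1.le, lt_of_le_of_ne ?_ ?_⟩
        · have := hmem.2
          push_cast at this
          exact this
        · push_cast at ht
          exact ht
      simp only [sf, h2]
    rw [h1, intervalIntegral.integral_const]
    push_cast
    simp

/-- averages of a step function over long intervals -/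
theorem sf_avg (b : ℕ → ℂ) (hb : ∀ n, ‖b n‖ ≤ 1) (L : ℂ)
    (hL : Tendsto (fun M : ℕ => (1 / (M : ℂ)) * ∑ m ∈ Finset.range M, b m) atTop (𝓝 L)) :
    Tendsto (fun V : ℝ => (1 / (V : ℂ)) * ∫ t in (0 : ℝ)..V, sf b t) atTop (𝓝 L) := by
  have hfl : Tendsto (fun V : ℝ => ⌊V⌋₊) atTop atTop := tendsto_nat_floor_atTop
  have h1 := hL.comp hfl
  have h2 : Tendsto (fun V : ℝ => (2 : ℝ) / V) atTop (𝓝 0) := tendsto_const_nhds.div_atTop tendsto_id
  rw [tendsto_iff_norm_sub_tendsto_zero] at h1 ⊢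
  have h3 := h1.add h2
  rw [add_zero] at h3
  refine squeeze_zero' (Eventually.of_forall fun _ => norm_nonneg _) ?_ h3
  filter_upwards [eventually_ge_atTop (1 : ℝ)] with V hV
  simp only [Function.comp]
  obtain ⟨M, hM⟩ : ∃ M, M = ⌊V⌋₊ := ⟨_, rfl⟩
  rw [← hM]
  have hV0 : 0 < V := by linarith
  have hM1 : 1 ≤ M := by
    rw [hM]
    exact Nat.le_floor (by exact_mod_cast hV)
  have hM0 : (0 : ℝ) < M := by exact_mod_cast hM1
  have hMV : (M : ℝ) ≤ V := by rw [hM]; exact Nat.floor_le hV0.le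
  have hVM : V < M + 1 := by rw [hM]; exact Nat.lt_floor_add_one V
  have e : ∫ t in (0 : ℝ)..V, sf b t = (∑ m ∈ Finset.range M, b m) + ∫ t in (M : ℝ)..V, sf b t := by
    rw [← sf_int b hb M, intervalIntegral.integral_add_adjacent_intervals (sf_ii b hb _ _) (sf_ii b hb _ _)]
  have r1 : ‖∫ t in (M : ℝ)..V, sf b t‖ ≤ 1 := by
    have := intervalIntegral.norm_integral_le_of_norm_le_const (a := (M : ℝ)) (b := V) (C := 1)
      (f := sf b) fun s _ => hb _
    rw [abs_of_nonneg (by linarith)] at this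
    linarith
  have r2 : ‖∑ m ∈ Finset.range M, b m‖ ≤ M := by
    refine (norm_sum_le _ _).trans ((Finset.sum_le_sum fun m _ => hb m).trans ?_)
    simp
  have e2 : (1 / (V : ℂ)) * (∫ t in (0 : ℝ)..V, sf b t) - L =
      ((1 / (M : ℂ)) * ∑ m ∈ Finset.range M, b m - L) +
      (((1 / V - 1 / M : ℝ) : ℂ) * ∑ m ∈ Finset.range M, b m + ((1 / V : ℝ) : ℂ) * ∫ t in (M : ℝ)..V, sf b t) := by
    rw [e]
    push_cast
    ring
  rw [e2]
  refine (norm_add_le _ _).trans ?_
  have r3 : ‖((1 / V - 1 / M : ℝ) : ℂ) * ∑ m ∈ Finset.range M, b m + ((1 / V : ℝ) : ℂ) *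
      ∫ t in (M : ℝ)..V, sf b t‖ ≤ 2 / V := by
    refine (norm_add_le _ _).trans ?_
    rw [norm_mul, norm_mul, Complex.norm_real, Complex.norm_real, Real.norm_eq_abs, Real.norm_eq_abs,
      abs_of_pos (by positivity : 0 < 1 / V)]
    have r4 : |1 / V - 1 / (M : ℝ)| ≤ (1 / V) * (1 / M) := by
      rw [abs_sub_comm, abs_of_nonneg (sub_nonneg.2 (one_div_le_one_div_of_le hM0 hMV))]
      have : 1 / (M : ℝ) - 1 / V = (V - M) * ((1 / V) * (1 / M)) := by field_simp
      rw [this]
      have h5 : 0 ≤ (1 / V) * (1 / (M : ℝ)) := by positivity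
      nlinarith
    calc |1 / V - 1 / (M : ℝ)| * ‖∑ m ∈ Finset.range M, b m‖ + 1 / V * ‖∫ t in (M : ℝ)..V, sf b t‖
        ≤ ((1 / V) * (1 / M)) * M + 1 / V * 1 := by gcongr
      _ = 2 / V := by field_simp; norm_num
  linarith

end Pool.Agent.Y957.St
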