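import Pool.Agent.Y957.VK.Step
import Pool.Agent.Y957.VK.PrimeCs

/-!
Integer parts of dilated polynomials: averages of sequences.
-/

set_option autoImplicit false

namespace Pool.Agent.Y957.St

open Finset MeasureTheory Filter Topology BoundedContinuousFunction
open Pool.Agent.Y957.MC (Mod S_DETG detg_all Adm S_REGC)

/-- continuous averages of the step function along a polynomial -/
theorem cont_avg (p : ℝ → ℝ) (hp : Adm p) (hpm : Measurable p) (b : ℕ → ℂ) (hb : ∀ n, ‖b n‖ ≤ 1) (L : ℂ)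
    (hL : Tendsto (fun M : ℕ => (1 / (M : ℂ)) * ∑ m ∈ Finset.range M, b m) atTop (𝓝 L))
    (a : ℝ) (ha : 0 < a) :
    Tendsto (fun N : ℕ => (1 / (N : ℂ)) * ∫ v in (0 : ℝ)..N, sf b (a * p v)) atTop (𝓝 L) := by
  obtain ⟨K, hK, hreg⟩ := Pool.Agent.Y274.MC.regc p hp hpm
  have hS := sf_avg b hb L hL
  rw [Metric.tendsto_atTop] at hS ⊢
  intro ε hε
  obtain ⟨h, hh⟩ : ∃ h : ℝ, h = min (1 / 4) (ε / (100 * (K + 1))) := ⟨_, rfl⟩
  have hK1 : 0 < 100 * (K + 1) := by positivity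
  have hh0 : 0 < h := by rw [hh]; exact lt_min (by norm_num) (div_pos hε hK1)
  have hh4 : h ≤ 1 / 4 := by rw [hh]; exact min_le_left _ _
  have hKh : 33 * K * h ≤ ε / 2 := by
    have h1 : h ≤ ε / (100 * (K + 1)) := by rw [hh]; exact min_le_right _ _
    rw [le_div_iff₀ hK1] at h1
    nlinarith
  have hlm : Continuous (lo b h) := lo_cont hb h
  have hBi : ∀ x y, IntervalIntegrable (Bh h) volume x y := fun x y => (Bh_cont h).intervalIntegrable x y
  -- averages of the local means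
  obtain ⟨V0, hV0⟩ := hS h hh0
  have h1 : ∀ᶠ V : ℝ in atTop, ‖(1 / (V : ℂ)) * (∫ v in (0 : ℝ)..V, lo b h v) - L‖ ≤ 17 * h := by
    filter_upwards [eventually_ge_atTop V0, eventually_ge_atTop (1 : ℝ)] with V hV hV1
    have hVp : 0 < V := by linarith
    have e1 : (1 / (V : ℂ)) * (∫ v in (0 : ℝ)..V, lo b h v) - L =
        ((1 / (V : ℂ)) * (∫ v in (0 : ℝ)..V, sf b v) - L) +
          ((1 / V : ℝ) : ℂ) * ∫ v in (0 : ℝ)..V, (lo b h v - sf b v) := by
      rw [intervalIntegral.integral_sub (hlm.intervalIntegrable _ _) (sf_ii b hb _ _)]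
      push_cast
      ring
    rw [e1]
    have h2 := hV0 V hV
    rw [dist_eq_norm] at h2
    have h3 : ‖∫ v in (0 : ℝ)..V, (lo b h v - sf b v)‖ ≤ ∫ v in (0 : ℝ)..V, 2 * Bh h v :=
      intervalIntegral.norm_integral_le_of_norm_le hVp.le (ae_of_all _ fun v _ => lo_near hb hh0 hh4 v)
        ((hBi _ _).const_mul 2)
    rw [intervalIntegral.integral_const_mul] at h3
    have h4 := Bh_avg hh0 hh4 V hV1
    have h5 : ‖((1 / V : ℝ) : ℂ) * ∫ v in (0 : ℝ)..V, (lo b h v - sf b v)‖ ≤ 16 * h := by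
      rw [norm_mul, Complex.norm_real, Real.norm_eq_abs, abs_of_pos (by positivity)]
      calc 1 / V * ‖∫ v in (0 : ℝ)..V, (lo b h v - sf b v)‖ ≤ 1 / V * (2 * ∫ v in (0 : ℝ)..V, Bh h v) := by
            gcongr
        _ = 2 * ((1 / V) * ∫ v in (0 : ℝ)..V, Bh h v) := by ring
        _ ≤ 2 * (8 * h) := by linarith
        _ = 16 * h := by ring
    linarith [norm_add_le ((1 / (V : ℂ)) * (∫ v in (0 : ℝ)..V, sf b v) - L)
      (((1 / V : ℝ) : ℂ) * ∫ v in (0 : ℝ)..V, (lo b h v - sf b v))]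
  have h2 := hreg a ha (lo b h) hlm (lo_norm hb hh0) L (17 * h) (by positivity) h1 (ε / 10) (by positivity)
  -- averages of the bumps
  have h3 : ∀ᶠ V : ℝ in atTop, ‖(1 / (V : ℂ)) * (∫ v in (0 : ℝ)..V, (Bh h v : ℂ)) - 0‖ ≤ 8 * h := by
    filter_upwards [eventually_ge_atTop (1 : ℝ)] with V hV1
    have hVp : 0 < V := by linarith
    have h4 := Bh_avg hh0 hh4 V hV1
    rw [sub_zero, intervalIntegral.integral_ofReal]
    have e : (1 / (V : ℂ)) * ((∫ v in (0 : ℝ)..V, Bh h v : ℝ) : ℂ) =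
        (((1 / V) * ∫ v in (0 : ℝ)..V, Bh h v : ℝ) : ℂ) := by push_cast; ring
    rw [e, Complex.norm_real, Real.norm_eq_abs, abs_of_nonneg]
    · exact h4
    · exact mul_nonneg (by positivity) (intervalIntegral.integral_nonneg hVp.le fun v _ => Bh_nonneg h v)
  have h4 := hreg a ha (fun v => (Bh h v : ℂ)) (Complex.continuous_ofReal.comp (Bh_cont h))
    (fun v => by
      rw [Complex.norm_real, Real.norm_eq_abs, abs_of_nonneg (Bh_nonneg h v)]
      exact Bh_le h v) 0 (8 * h) (by positivity) h3 (ε / 10) (by positivity)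
  obtain ⟨N0, hN0⟩ := eventually_atTop.1 (h2.and h4)
  refine ⟨max N0 1, fun N hN => ?_⟩
  obtain ⟨h5, h6⟩ := hN0 N ((le_max_left _ _).trans hN)
  have hN1 : (0 : ℝ) < N := by exact_mod_cast (le_max_right _ _).trans hN
  have hpa : Measurable fun v => a * p v := hpm.const_mul a
  have hbd : ∀ (F : ℝ → ℂ), Measurable F → (∀ v, ‖F v‖ ≤ 1) → ∀ x y,
      IntervalIntegrable (fun v => F (a * p v)) volume x y := fun F hF hF1 x y => by
    refine (intervalIntegrable_const (c := (1 : ℝ))).mono_fun (hF.comp hpa).aestronglyMeasurable ?_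
    refine ae_of_all _ fun s => ?_
    simp only [norm_one]
    exact hF1 _
  have hBd : ∀ x y, IntervalIntegrable (fun v => Bh h (a * p v)) volume x y := fun x y => by
    refine (intervalIntegrable_const (c := (1 : ℝ))).mono_fun
      ((Bh_cont h).measurable.comp hpa).aestronglyMeasurable ?_
    refine ae_of_all _ fun s => ?_
    show ‖Bh h (a * p s)‖ ≤ ‖(1 : ℝ)‖
    rw [norm_one, Real.norm_eq_abs, abs_of_nonneg (Bh_nonneg h _)]
    exact Bh_le h _
  have e1 : (1 / (N : ℂ)) * (∫ v in (0 : ℝ)..N, sf b (a * p v)) - L =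
      ((1 / (N : ℂ)) * (∫ v in (0 : ℝ)..N, lo b h (a * p v)) - L) -
        ((1 / (N : ℝ) : ℝ) : ℂ) * ∫ v in (0 : ℝ)..N, (lo b h (a * p v) - sf b (a * p v)) := by
    rw [intervalIntegral.integral_sub (hbd _ hlm.measurable (lo_norm hb hh0) _ _)
      (hbd _ (sf_meas b) (fun v => hb _) _ _)]
    push_cast
    ring
  have h7 : ‖∫ v in (0 : ℝ)..N, (lo b h (a * p v) - sf b (a * p v))‖ ≤ ∫ v in (0 : ℝ)..N, 2 * Bh h (a * p v) :=
    intervalIntegral.norm_integral_le_of_norm_le hN1.le (ae_of_all _ fun v _ => lo_near hb hh0 hh4 _)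
      ((hBd _ _).const_mul 2)
  rw [intervalIntegral.integral_const_mul] at h7
  have h8 : (1 / (N : ℝ)) * ∫ v in (0 : ℝ)..N, Bh h (a * p v) ≤ ε / 10 + K * (8 * h) := by
    rw [sub_zero, intervalIntegral.integral_ofReal] at h6
    have e : (1 / (N : ℂ)) * ((∫ v in (0 : ℝ)..N, Bh h (a * p v) : ℝ) : ℂ) =
        (((1 / (N : ℝ)) * ∫ v in (0 : ℝ)..N, Bh h (a * p v) : ℝ) : ℂ) := by push_cast; ring
    rw [e, Complex.norm_real, Real.norm_eq_abs] at h6
    exact (le_abs_self _).trans h6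
  have h9 : ‖((1 / (N : ℝ) : ℝ) : ℂ) * ∫ v in (0 : ℝ)..N, (lo b h (a * p v) - sf b (a * p v))‖ ≤
      2 * (ε / 10 + K * (8 * h)) := by
    rw [norm_mul, Complex.norm_real, Real.norm_eq_abs, abs_of_pos (by positivity)]
    calc 1 / (N : ℝ) * ‖∫ v in (0 : ℝ)..N, (lo b h (a * p v) - sf b (a * p v))‖
        ≤ 1 / (N : ℝ) * (2 * ∫ v in (0 : ℝ)..N, Bh h (a * p v)) := by gcongr
      _ = 2 * ((1 / (N : ℝ)) * ∫ v in (0 : ℝ)..N, Bh h (a * p v)) := by ring
      _ ≤ _ := by linarith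
  rw [dist_eq_norm, e1]
  have h10 := norm_sub_le ((1 / (N : ℂ)) * (∫ v in (0 : ℝ)..N, lo b h (a * p v)) - L)
    (((1 / (N : ℝ) : ℝ) : ℂ) * ∫ v in (0 : ℝ)..N, (lo b h (a * p v) - sf b (a * p v)))
  nlinarith

/-- averages of a sequence along the integer parts of the dilates of a polynomial -/
theorem core (P : Polynomial ℝ) (hd : 0 < P.natDegree) (hl : 0 < P.leadingCoeff) (b : ℕ → ℂ)
    (hb : ∀ n, ‖b n‖ ≤ 1) (L : ℂ)
    (hL : Tendsto (fun M : ℕ => (1 / (M : ℂ)) * ∑ m ∈ Finset.range M, b m) atTop (𝓝 L)) :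
    ∀ᵐ a : ℝ, 0 < a → Tendsto (fun N : ℕ => (1 / (N : ℂ)) * ∑ n ∈ Icc 1 N, b ⌊a * P.eval (n : ℝ)⌋₊)
      atTop (𝓝 L) := by
  have hA := Pool.Agent.Y571.MC.poly P hd hl
  have hm : Measurable fun x : ℝ => P.eval x := P.continuous.measurable
  have h1 := detg_all _ hA hm (sf b) (sf_meas b) (fun v => hb _) (fun Λ hΛ => sf_mod b hb Λ hΛ)
  rw [ae_restrict_iff' measurableSet_Ioi] at h1
  filter_upwards [h1] with a ha ha0
  have h2 := (ha ha0).add (cont_avg _ hA hm b hb L hL a ha0)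
  rw [zero_add] at h2
  refine h2.congr fun N => ?_
  simp only [sf]
  ring

end Pool.Agent.Y957.St
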