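import Pool.Agent.Y957.VK.Step2
import Pool.Agent.Y957.VK.FlowV

/-!
Integer parts of polynomials: sequences indexed by the integers.
-/

set_option autoImplicit false

namespace Pool.Agent.Y957.St

open Finset MeasureTheory Filter Topology BoundedContinuousFunction

theorem sum_shift (c : ℕ → ℂ) (N : ℕ) : ∑ i ∈ range N, c (i + 1) = ∑ n ∈ Icc 1 N, c n := by
  induction N with
  | zero => simp
  | succ N ih => rw [Finset.sum_range_succ, ih, Finset.sum_Icc_succ_top (by omega)]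

theorem ev_congr (b b' : ℕ → ℂ) (h : ∀ᶠ n in atTop, b n = b' n) (L : ℂ)
    (hb : Tendsto (fun N : ℕ => (1 / (N : ℂ)) * ∑ n ∈ Icc 1 N, b n) atTop (𝓝 L)) :
    Tendsto (fun N : ℕ => (1 / (N : ℂ)) * ∑ n ∈ Icc 1 N, b' n) atTop (𝓝 L) := by
  have h1 : Tendsto (fun i : ℕ => b' (i + 1) - b (i + 1)) atTop (𝓝 0) := by
    refine tendsto_const_nhds.congr' ?_
    filter_upwards [(tendsto_add_atTop_nat 1).eventually h] with i hi
    rw [hi, sub_self]
  have h2 := hb.add h1.cesaro_smul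
  rw [add_zero] at h2
  refine h2.congr fun N => ?_
  rw [Finset.sum_sub_distrib, sum_shift b, sum_shift b', Complex.real_smul]
  push_cast
  ring

theorem avg_range (b : ℕ → ℂ) (hb : ∀ n, ‖b n‖ ≤ 1) (L : ℂ)
    (h : Tendsto (fun N : ℕ => (1 / (N : ℂ)) * ∑ n ∈ Icc 1 N, b n) atTop (𝓝 L)) :
    Tendsto (fun N : ℕ => (1 / (N : ℂ)) * ∑ n ∈ range N, b n) atTop (𝓝 L) := by
  have h1 : Tendsto (fun N : ℕ => (1 / (N : ℂ)) * (b 0 - b N)) atTop (𝓝 0) := by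
    rw [tendsto_zero_iff_norm_tendsto_zero]
    have h2 : Tendsto (fun N : ℕ => (2 : ℝ) / N) atTop (𝓝 0) := tendsto_const_div_atTop_nhds_zero_nat 2
    refine squeeze_zero (fun _ => norm_nonneg _) (fun N => ?_) h2
    rw [norm_mul, norm_div, norm_one, Complex.norm_natCast]
    have h3 : ‖b 0 - b N‖ ≤ 2 := (norm_sub_le _ _).trans (by linarith [hb 0, hb N])
    calc 1 / (N : ℝ) * ‖b 0 - b N‖ ≤ 1 / (N : ℝ) * 2 := by gcongr
      _ = 2 / N := by ring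
  have h2 := h.add h1
  rw [add_zero] at h2
  refine h2.congr fun N => ?_
  have e : ∑ n ∈ Icc 1 N, b n + (b 0 - b N) = ∑ n ∈ range N, b n := by
    rw [← sum_shift b N]
    have := Finset.sum_range_succ' b N
    rw [Finset.sum_range_succ] at this
    linear_combination -this
  rw [← e]
  ring

/-- positive leading coefficient -/
theorem two_pos (P : Polynomial ℝ) (hd : 0 < P.natDegree) (hl : 0 < P.leadingCoeff) (c : ℤ → ℂ)
    (hc : ∀ n, ‖c n‖ ≤ 1) (L : ℂ)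
    (h1 : Tendsto (fun M : ℕ => (1 / (M : ℂ)) * ∑ m ∈ Icc 1 M, c (m : ℤ)) atTop (𝓝 L))
    (h2 : Tendsto (fun M : ℕ => (1 / (M : ℂ)) * ∑ m ∈ Icc 1 M, c (-(m : ℤ))) atTop (𝓝 L)) :
    ∀ᵐ a : ℝ, Tendsto (fun N : ℕ => (1 / (N : ℂ)) * ∑ n ∈ Icc 1 N, c ⌊a * P.eval (n : ℝ)⌋) atTop (𝓝 L) := by
  have k1 := core P hd hl (fun m => c (m : ℤ)) (fun m => hc _) L (avg_range _ (fun m => hc _) L h1)
  have k2 := core P hd hl (fun m => c (-((m + 1 : ℕ) : ℤ))) (fun m => hc _) L (by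
    refine h2.congr fun N => ?_
    rw [← sum_shift (fun m : ℕ => c (-(m : ℤ)))])
  have k3 : ∀ᵐ a : ℝ, 0 < -a → Tendsto (fun N : ℕ => (1 / (N : ℂ)) *
      ∑ n ∈ Icc 1 N, c (-((⌊-a * P.eval (n : ℝ)⌋₊ + 1 : ℕ) : ℤ))) atTop (𝓝 L) :=
    (Measure.measurePreserving_neg (volume : Measure ℝ)).quasiMeasurePreserving.ae k2
  have k4 : ∀ᵐ a : ℝ, ∀ n : ℕ, ∀ k : ℤ, P.eval (n : ℝ) ≠ 0 → a * P.eval (n : ℝ) ≠ k := by
    rw [ae_all_iff]
    intro n
    rw [ae_all_iff]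
    intro k
    by_cases hP : P.eval (n : ℝ) = 0
    · exact ae_of_all _ fun a ha => absurd hP ha
    · have : ∀ᵐ a : ℝ, a ≠ k / P.eval (n : ℝ) := by
        rw [ae_iff]
        simp
      filter_upwards [this] with a ha _ hcon
      exact ha ((eq_div_iff hP).2 hcon)
  have k5 : ∀ᵐ a : ℝ, a ≠ 0 := by
    rw [ae_iff]
    simp
  have hev : ∀ᶠ n : ℕ in atTop, 0 < P.eval (n : ℝ) :=
    tendsto_natCast_atTop_atTop.eventually
      ((P.tendsto_atTop_of_leadingCoeff_nonneg (Polynomial.natDegree_pos_iff_degree_pos.1 hd)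
        hl.le).eventually_gt_atTop 0)
  filter_upwards [k1, k3, k4, k5] with a a1 a3 a4 a5
  rcases lt_or_gt_of_ne a5 with ha | ha
  · refine ev_congr _ _ ?_ L (a3 (by linarith))
    filter_upwards [hev] with n hn
    congr 1
    symm
    rw [Int.floor_eq_iff]
    have t0 : 0 ≤ -a * P.eval (n : ℝ) := mul_nonneg (by linarith) hn.le
    have t1 := Nat.floor_le t0
    have t2 := Nat.lt_floor_add_one (-a * P.eval (n : ℝ))
    have t3 : ((⌊-a * P.eval (n : ℝ)⌋₊ : ℕ) : ℝ) ≠ -a * P.eval (n : ℝ) := by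
      intro hcon
      refine a4 n (-(⌊-a * P.eval (n : ℝ)⌋₊ : ℤ)) hn.ne' ?_
      push_cast
      rw [hcon]
      ring
    have t4 : ((⌊-a * P.eval (n : ℝ)⌋₊ : ℕ) : ℝ) < -a * P.eval (n : ℝ) := lt_of_le_of_ne t1 t3
    push_cast
    constructor
    · linarith
    · linarith
  · refine ev_congr _ _ ?_ L (a1 ha)
    filter_upwards [hev] with n hn
    congr 1
    exact Int.natCast_floor_eq_floor (mul_nonneg ha.le hn.le)

/-- nonconstant polynomials, bounded sequences -/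
theorem two (P : Polynomial ℝ) (hd : 0 < P.natDegree) (c : ℤ → ℂ) (C : ℝ) (hc : ∀ n, ‖c n‖ ≤ C) (L : ℂ)
    (h1 : Tendsto (fun M : ℕ => (1 / (M : ℂ)) * ∑ m ∈ Icc 1 M, c (m : ℤ)) atTop (𝓝 L))
    (h2 : Tendsto (fun M : ℕ => (1 / (M : ℂ)) * ∑ m ∈ Icc 1 M, c (-(m : ℤ))) atTop (𝓝 L)) :
    ∀ᵐ a : ℝ, Tendsto (fun N : ℕ => (1 / (N : ℂ)) * ∑ n ∈ Icc 1 N, c ⌊a * P.eval (n : ℝ)⌋) atTop (𝓝 L) := by
  have hC : 0 ≤ C := (norm_nonneg _).trans (hc 0)
  obtain ⟨D, hD⟩ : ∃ D : ℝ, D = C + 1 := ⟨_, rfl⟩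
  have hD0 : 0 < D := by linarith
  have hDc : (D : ℂ) ≠ 0 := by exact_mod_cast hD0.ne'
  have hsc : ∀ g : ℕ → ℤ, Tendsto (fun M : ℕ => (1 / (M : ℂ)) * ∑ m ∈ Icc 1 M, c (g m)) atTop (𝓝 L) →
      Tendsto (fun M : ℕ => (1 / (M : ℂ)) * ∑ m ∈ Icc 1 M, (1 / (D : ℂ)) * c (g m)) atTop
        (𝓝 ((1 / (D : ℂ)) * L)) := fun g hg => by
    refine (hg.const_mul (1 / (D : ℂ))).congr fun N => ?_
    rw [← Finset.mul_sum]
    ring
  have hc1 : ∀ n, ‖(1 / (D : ℂ)) * c n‖ ≤ 1 := fun n => by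
    rw [norm_mul, norm_div, norm_one, Complex.norm_real, Real.norm_eq_abs, abs_of_pos hD0]
    have := hc n
    rw [one_div, inv_mul_le_iff₀ hD0]
    linarith
  have key : ∀ᵐ a : ℝ, Tendsto (fun N : ℕ => (1 / (N : ℂ)) * ∑ n ∈ Icc 1 N,
      (1 / (D : ℂ)) * c ⌊a * P.eval (n : ℝ)⌋) atTop (𝓝 ((1 / (D : ℂ)) * L)) := by
    rcases lt_trichotomy P.leadingCoeff 0 with hl | hl | hl
    · have k1 := two_pos (-P) (by rwa [Polynomial.natDegree_neg])
        (by rw [Polynomial.leadingCoeff_neg]; linarith) (fun n => (1 / (D : ℂ)) * c n) hc1 _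
        (hsc _ h1) (hsc _ h2)
      have k2 : ∀ᵐ a : ℝ, Tendsto (fun N : ℕ => (1 / (N : ℂ)) *
          ∑ n ∈ Icc 1 N, (1 / (D : ℂ)) * c ⌊-a * (-P).eval (n : ℝ)⌋) atTop (𝓝 ((1 / (D : ℂ)) * L)) :=
        (Measure.measurePreserving_neg (volume : Measure ℝ)).quasiMeasurePreserving.ae k1
      filter_upwards [k2] with a ha
      simpa only [Polynomial.eval_neg, neg_mul_neg] using ha
    · exfalso
      rw [Polynomial.leadingCoeff_eq_zero] at hl
      rw [hl] at hd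
      simp at hd
    · exact two_pos P hd hl (fun n => (1 / (D : ℂ)) * c n) hc1 _ (hsc _ h1) (hsc _ h2)
  filter_upwards [key] with a ha
  have h3 := ha.const_mul (D : ℂ)
  rw [← mul_assoc, mul_one_div_cancel hDc, one_mul] at h3
  refine h3.congr fun N => ?_
  rw [← Finset.mul_sum]
  field_simp

end Pool.Agent.Y957.St
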