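import Pool.Agent.Y957.VK.Stm2

/-!
Project VK, third part: weights of logarithmic size, for instance `Λ(n) - 1`.  Definitions and statements.
-/

set_option autoImplicit false

namespace Pool.Agent.Y957.VK

open Finset MeasureTheory Filter Topology
open Pool.Agent.H376R2.MR (er)
open Pool.Agent.Y957.AD (PolyVar)

/-- `log (n + 3)` -/
noncomputable def Lg (n : ℕ) : ℂ := ((Real.log (n + 3) : ℝ) : ℂ)

/-- `Λ(n) - 1` -/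
noncomputable def lamw (n : ℕ) : ℂ := (ArithmeticFunction.vonMangoldt n : ℂ) - 1

/-- (W1) division by the logarithm -/
def S_WNEG : Prop := ∀ w : ℕ → ℂ, (∀ n : ℕ, ‖w n‖ ≤ Real.log (n + 3)) → Neg w → Neg (fun n => w n / Lg n)

/-- (W2) multiplication by the logarithm -/
def S_WDESC : Prop := ∀ b : ℕ → ℂ,
  (∀ K : ℕ, Tendsto (fun N : ℕ => (Real.log N) ^ K / N * ‖∑ n ∈ Finset.Icc 1 N, b n‖) atTop (𝓝 0)) →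
  ∀ K : ℕ, Tendsto (fun N : ℕ => (Real.log N) ^ K / N * ‖∑ n ∈ Finset.Icc 1 N, Lg n * b n‖) atTop (𝓝 0)

/-- (W3) almost every tuple of dilations, weights of logarithmic size -/
def S_WALL : Prop := ∀ w : ℕ → ℂ, (∀ n : ℕ, ‖w n‖ ≤ Real.log (n + 3)) → Neg w →
  ∀ (k : ℕ) (A : Fin k → ℝ → ℂ),
  (∀ i x, ‖A i x‖ ≤ 1) → (∀ i, Measurable (A i)) → (∀ i, PolyVar (A i)) → ∀ c : Fin k → ℝ, (∀ i, 0 < c i) →
    ∀ᵐ α ∂((volume : Measure (Fin k → ℝ)).restrict {α | ∀ i, 0 < α i}), ∀ K : ℕ,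
      Tendsto (fun N : ℕ => (Real.log N) ^ K / N *
        ‖∑ n ∈ Finset.Icc 1 N, w n * ∏ i, A i (α i * (n : ℝ) ^ (c i))‖) atTop (𝓝 0)

/-- (W4) uniformly continuous functions, one factor, weights of logarithmic size and bounded mean -/
def S_WUC : Prop := ∀ w : ℕ → ℂ, (∀ n : ℕ, ‖w n‖ ≤ Real.log (n + 3)) →
  (∃ C : ℝ, ∀ N : ℕ, ∑ n ∈ Finset.Icc 1 N, ‖w n‖ ≤ C * N) → Neg w → ∀ (A : ℝ → ℂ) (M : ℝ), (∀ t, ‖A t‖ ≤ M) →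
  (∀ ε : ℝ, 0 < ε → ∃ δ : ℝ, 0 < δ ∧ ∀ t s : ℝ, 0 ≤ s → s < δ → ‖A (t + s) - A t‖ ≤ ε) → ∀ c : ℝ, 0 < c →
    ∀ᵐ α : ℝ, Tendsto (fun N : ℕ => (1 / (N : ℂ)) * ∑ n ∈ Finset.Icc 1 N, w n * A (α * (n : ℝ) ^ c))
      atTop (𝓝 0)

/-- (W5) the weight `Λ(n) - 1` -/
def S_LW : Prop := (∀ n : ℕ, ‖lamw n‖ ≤ Real.log (n + 3)) ∧
  (∃ C : ℝ, ∀ N : ℕ, ∑ n ∈ Finset.Icc 1 N, ‖lamw n‖ ≤ C * N) ∧ Neg lamw

/-- (W6) from `Λ` to primes: bounded sequences -/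
def S_PR : Prop := ∀ (b : ℕ → ℂ) (M : ℝ), (∀ n, ‖b n‖ ≤ M) →
  Tendsto (fun N : ℕ => (1 / (N : ℂ)) * ∑ n ∈ Finset.Icc 1 N, lamw n * b n) atTop (𝓝 0) →
    Tendsto (fun N : ℕ => (1 / (Nat.primeCounting N : ℂ)) * ∑ p ∈ (Finset.Icc 1 N).filter Nat.Prime, b p -
      (1 / (N : ℂ)) * ∑ n ∈ Finset.Icc 1 N, b n) atTop (𝓝 0)

end Pool.Agent.Y957.VK
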