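import Pool.Agent.Y957.VK.Fin3
import Pool.Agent.Y957.VK.Marg

/-!
Orthogonality for most dilations, uniformly in the sequence.
-/

set_option autoImplicit false

namespace Pool.Agent.Y957.Un

open Finset MeasureTheory Filter Topology
open Pool.Agent.Y957.VK

noncomputable def av (g b : ℕ → ℂ) (α : ℝ) (N : ℕ) : ℂ :=
  (1 / (N : ℂ)) * ∑ n ∈ Icc 1 N, g n * b ⌊α * n⌋₊

theorem av_meas (g b : ℕ → ℂ) (N : ℕ) : Measurable fun α => av g b α N := by
  unfold av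
  refine (Finset.measurable_sum _ fun n _ => ?_).const_mul _
  exact ((measurable_of_countable b).comp
    (Nat.measurable_floor.comp (measurable_id.mul_const _))).const_mul _

theorem av_ae (g : ℕ → ℂ) (hg : ∀ n, ‖g n‖ ≤ 1) (hneg : Neg g) (b : ℕ → ℂ) (M : ℝ) (hb : ∀ n, ‖b n‖ ≤ M) :
    ∀ᵐ α : ℝ, 0 < α → Tendsto (av g b α) atTop (𝓝 0) := by
  have hA := seq2_all g hg hneg 1 (fun _ => b) M (fun _ => hb) (fun _ => 1) (fun _ => one_pos)
  have hms : MeasurableSet {α : Fin 1 → ℝ | ∀ i, 0 < α i} := by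
    rw [Set.ofPred_forall]
    exact MeasurableSet.iInter fun i => measurableSet_lt measurable_const (measurable_pi_apply i)
  rw [ae_restrict_iff' hms] at hA
  have h2 := (volume_preserving_funUnique (Fin 1) ℝ).symm.quasiMeasurePreserving.ae hA
  filter_upwards [h2] with α hα hα0
  have e : ∀ i, (MeasurableEquiv.funUnique (Fin 1) ℝ).symm α i = α := by
    intro i
    rw [Subsingleton.elim i default]
    exact (MeasurableEquiv.funUnique (Fin 1) ℝ).apply_symm_apply α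
  have h3 := hα (fun i => by rw [e]; exact hα0) 0
  simp only [e, pow_zero, Fin.prod_univ_one, Real.rpow_one] at h3
  rw [tendsto_zero_iff_norm_tendsto_zero]
  refine h3.congr fun N => ?_
  unfold av
  rw [norm_mul, norm_div, norm_one, Complex.norm_natCast]

theorem av_diff (g : ℕ → ℂ) (hg : ∀ n, ‖g n‖ ≤ 1) (b b' : ℕ → ℂ) (M : ℝ) (hM : 0 ≤ M)
    (hb : ∀ n, ‖b n‖ ≤ M) (hb' : ∀ n, ‖b' n‖ ≤ M) (α : ℝ) (hα : 0 < α) (N R R1 : ℕ)
    (hup : α * N ≤ R1) (h : ∀ m, R < m → m ≤ R1 → b m = b' m) :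
    ‖av g b α N - av g b' α N‖ ≤ 2 * M * ((R + 1) / α) / N := by
  have hT : 0 ≤ (R + 1 : ℝ) / α := by positivity
  have e : av g b α N - av g b' α N = (1 / (N : ℂ)) * ∑ n ∈ Icc 1 N, g n * (b ⌊α * n⌋₊ - b' ⌊α * n⌋₊) := by
    unfold av
    rw [← mul_sub, ← Finset.sum_sub_distrib]
    congr 1
    exact Finset.sum_congr rfl fun n _ => by ring
  rw [e, norm_mul, norm_div, norm_one, Complex.norm_natCast]
  have h1 : ‖∑ n ∈ Icc 1 N, g n * (b ⌊α * n⌋₊ - b' ⌊α * n⌋₊)‖ ≤ 2 * M * ((R + 1) / α) := by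
    have h2 : ∀ n ∈ Icc 1 N, ‖g n * (b ⌊α * n⌋₊ - b' ⌊α * n⌋₊)‖ ≤
        if n ≤ ⌊(R + 1 : ℝ) / α⌋₊ then 2 * M else 0 := by
      intro n hn
      rw [norm_mul]
      split_ifs with hc
      · have h3 : ‖b ⌊α * n⌋₊ - b' ⌊α * n⌋₊‖ ≤ 2 * M :=
          (norm_sub_le _ _).trans (by linarith [hb ⌊α * n⌋₊, hb' ⌊α * n⌋₊])
        calc ‖g n‖ * ‖b ⌊α * n⌋₊ - b' ⌊α * n⌋₊‖ ≤ 1 * (2 * M) := by
              gcongr
              exact hg n
          _ = 2 * M := one_mul _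
      · have h3 : ⌊(R + 1 : ℝ) / α⌋₊ < n := not_le.1 hc
        have h4 : (R + 1 : ℝ) / α < n := (Nat.floor_lt hT).1 h3
        have h5 : (R + 1 : ℝ) < α * n := by
          rw [div_lt_iff₀ hα] at h4
          linarith
        have h6 : R < ⌊α * n⌋₊ := by
          have : R + 1 ≤ ⌊α * n⌋₊ := Nat.le_floor (by push_cast; exact h5.le)
          omega
        have h7 : ⌊α * n⌋₊ ≤ R1 := by
          have h8 : (n : ℝ) ≤ N := by exact_mod_cast (Finset.mem_Icc.1 hn).2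
          have h9 : α * n ≤ R1 := (mul_le_mul_of_nonneg_left h8 hα.le).trans hup
          exact Nat.floor_le_of_le h9
        rw [h _ h6 h7, sub_self, norm_zero, mul_zero]
    refine (norm_sum_le _ _).trans ((Finset.sum_le_sum h2).trans ?_)
    rw [← Finset.sum_filter, Finset.sum_const, nsmul_eq_mul]
    have h3 : (((Icc 1 N).filter fun n => n ≤ ⌊(R + 1 : ℝ) / α⌋₊).card : ℝ) ≤ (R + 1) / α := by
      have h4 : ((Icc 1 N).filter fun n => n ≤ ⌊(R + 1 : ℝ) / α⌋₊) ⊆ Icc 1 ⌊(R + 1 : ℝ) / α⌋₊ := by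
        intro n hn
        rw [Finset.mem_filter, Finset.mem_Icc] at hn
        exact Finset.mem_Icc.2 ⟨hn.1.1, hn.2⟩
      have h5 := Finset.card_le_card h4
      rw [Nat.card_Icc, Nat.add_sub_cancel] at h5
      exact (Nat.cast_le.2 h5).trans (Nat.floor_le hT)
    calc (((Icc 1 N).filter fun n => n ≤ ⌊(R + 1 : ℝ) / α⌋₊).card : ℝ) * (2 * M)
        ≤ (R + 1) / α * (2 * M) := by gcongr
      _ = _ := by ring
  calc 1 / (N : ℝ) * ‖∑ n ∈ Icc 1 N, g n * (b ⌊α * n⌋₊ - b' ⌊α * n⌋₊)‖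
      ≤ 1 / (N : ℝ) * (2 * M * ((R + 1) / α)) := by gcongr
    _ = _ := by ring

end Pool.Agent.Y957.Un
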