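import Pool.Agent.Y957.VK.Un

/-!
Orthogonality for most dilations, uniformly in the sequence: the gluing.
-/

set_option autoImplicit false

namespace Pool.Agent.Y957.Un

open Finset MeasureTheory Filter Topology
open Pool.Agent.Y957.VK

theorem unif (g : ℕ → ℂ) (hg : ∀ n, ‖g n‖ ≤ 1) (hneg : Neg g) (c E : ℝ) (hE : 0 < E) (hc : c ≠ 0) (M : ℝ)
    (hM : 0 ≤ M) (η : ℝ) (hη : 0 < η) :
    ∃ N0 : ℕ, ∀ N : ℕ, N0 ≤ N → ∀ b : ℕ → ℂ, (∀ n, ‖b n‖ ≤ M) →
      (volume.restrict (Set.Icc (0 : ℝ) 1)) {s | η ≤ ‖av g b (E * Real.exp (c * s)) N‖} ≤ ENNReal.ofReal η := by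
  by_contra hcon
  push Not at hcon
  choose Nn hNn bb hbb hbig using hcon
  obtain ⟨Ax, hAx⟩ : ∃ Ax : ℝ, Ax = E * Real.exp |c| := ⟨_, rfl⟩
  obtain ⟨An, hAn⟩ : ∃ An : ℝ, An = E * Real.exp (-|c|) := ⟨_, rfl⟩
  have hAx0 : 0 < Ax := by rw [hAx]; positivity
  have hAn0 : 0 < An := by rw [hAn]; positivity
  have hα : ∀ s ∈ Set.Icc (0 : ℝ) 1, An ≤ E * Real.exp (c * s) ∧ E * Real.exp (c * s) ≤ Ax := by
    intro s hs
    have h1 : |c * s| ≤ |c| := by
      rw [abs_mul, abs_of_nonneg hs.1]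
      exact mul_le_of_le_one_right (abs_nonneg c) hs.2
    have h2 := abs_le.1 h1
    rw [hAx, hAn]
    constructor
    · apply mul_le_mul_of_nonneg_left _ hE.le
      exact Real.exp_le_exp.2 h2.1
    · apply mul_le_mul_of_nonneg_left _ hE.le
      exact Real.exp_le_exp.2 h2.2
  obtain ⟨T, hT⟩ : ∃ T : ℕ → ℕ, ∀ R, T R =
      ⌈2 * M * ((R + 1) / An) * (2 / η)⌉₊ + ⌈((R : ℝ) + 1) / Ax⌉₊ + (R + 1) := ⟨_, fun _ => rfl⟩
  obtain ⟨R, hR0, hR⟩ : ∃ R : ℕ → ℕ, R 0 = 0 ∧ ∀ j, R (j + 1) = ⌈Ax * (Nn (T (R j)) : ℝ)⌉₊ :=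
    ⟨fun j => Nat.rec 0 (fun _ r => ⌈Ax * (Nn (T r) : ℝ)⌉₊) j, rfl, fun _ => rfl⟩
  have hT1 : ∀ r, 2 * M * ((r + 1) / An) * (2 / η) ≤ Nn (T r) := fun r => by
    refine (Nat.le_ceil _).trans ?_
    have h1 : ⌈2 * M * ((r + 1 : ℝ) / An) * (2 / η)⌉₊ ≤ Nn (T r) := by
      refine le_trans ?_ (hNn (T r))
      rw [hT]
      omega
    exact_mod_cast h1
  have hT2 : ∀ r : ℕ, ((r : ℝ) + 1) / Ax ≤ Nn (T r) := fun r => by
    refine (Nat.le_ceil _).trans ?_
    have h1 : ⌈((r : ℝ) + 1) / Ax⌉₊ ≤ Nn (T r) := by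
      refine le_trans ?_ (hNn (T r))
      rw [hT]
      omega
    exact_mod_cast h1
  have hT3 : ∀ r : ℕ, r + 1 ≤ Nn (T r) := fun r => by
    refine le_trans ?_ (hNn (T r))
    rw [hT]
    omega
  have hmono : StrictMono R := strictMono_nat_of_lt_succ fun j => by
    have h1 := hT2 (R j)
    rw [div_le_iff₀ hAx0] at h1
    have h2 : ((R j : ℝ) + 1) ≤ R (j + 1) := by
      rw [hR j]
      refine le_trans ?_ (Nat.le_ceil _)
      linarith
    have h3 : R j + 1 ≤ R (j + 1) := by exact_mod_cast h2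
    omega
  have hex : ∀ m : ℕ, ∃ j, m ≤ R (j + 1) := fun m => ⟨m, by
    have := hmono.le_apply (x := m + 1)
    omega⟩
  classical
  obtain ⟨b, hb⟩ : ∃ b : ℕ → ℂ, ∀ m, b m = bb (T (R (Nat.find (hex m)))) m := ⟨_, fun _ => rfl⟩
  have hbM : ∀ m, ‖b m‖ ≤ M := fun m => by
    rw [hb]
    exact hbb _ _
  have hbj : ∀ j m, R j < m → m ≤ R (j + 1) → b m = bb (T (R j)) m := by
    intro j m h1 h2
    have h3 : Nat.find (hex m) = j := by
      rw [Nat.find_eq_iff]
      refine ⟨h2, fun i hi hle => ?_⟩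
      have : R (i + 1) ≤ R j := hmono.monotone (by omega)
      omega
    rw [hb, h3]
  -- almost every s
  have hae := av_ae g hg hneg b M hbM
  have hae2 := ae_exp' hae hc
  have hae3 : ∀ᵐ s : ℝ, Tendsto (av g b (E * Real.exp (c * s))) atTop (𝓝 0) := by
    have h1 := (measurePreserving_add_right (volume : Measure ℝ) (Real.log E / c)).quasiMeasurePreserving.ae hae2
    filter_upwards [h1] with s hs
    have e : Real.exp (c * (s + Real.log E / c)) = E * Real.exp (c * s) := by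
      rw [mul_add, mul_div_cancel₀ _ hc, Real.exp_add, Real.exp_log hE, mul_comm]
    rw [e] at hs
    exact hs (by positivity)
  have hmeas : ∀ N : ℕ, Measurable fun s : ℝ => av g b (E * Real.exp (c * s)) N := fun N =>
    (av_meas g b N).comp ((Real.measurable_exp.comp (measurable_id.const_mul c)).const_mul E)
  have htm : TendstoInMeasure (volume.restrict (Set.Icc (0 : ℝ) 1))
      (fun (N : ℕ) (s : ℝ) => av g b (E * Real.exp (c * s)) N) atTop (fun _ => 0) := by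
    refine tendstoInMeasure_of_tendsto_ae (fun N => (hmeas N).aestronglyMeasurable) ?_
    exact ae_restrict_of_ae hae3
  rw [tendstoInMeasure_iff_norm] at htm
  have h1 := htm (η / 2) (by positivity)
  have h2 : ∀ᶠ N : ℕ in atTop, (volume.restrict (Set.Icc (0 : ℝ) 1))
      {s | η / 2 ≤ ‖av g b (E * Real.exp (c * s)) N - 0‖} < ENNReal.ofReal η :=
    h1.eventually_lt_const (ENNReal.ofReal_pos.2 hη)
  obtain ⟨K, hK⟩ := eventually_atTop.1 h2
  -- the scale number K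
  have hKN : K ≤ Nn (T (R K)) := by
    have := hmono.le_apply (x := K)
    have := hT3 (R K)
    omega
  have h3 := hK _ hKN
  have h4 := hbig (T (R K))
  refine absurd (h4.trans_le (le_trans ?_ h3.le)) (lt_irrefl _)
  rw [Measure.restrict_apply' measurableSet_Icc, Measure.restrict_apply' measurableSet_Icc]
  refine measure_mono ?_
  rintro s ⟨hs, hs1⟩
  refine ⟨?_, hs1⟩
  simp only [Set.mem_ofPred_eq, sub_zero] at hs ⊢
  obtain ⟨ha1, ha2⟩ := hα s hs1
  have hαp : 0 < E * Real.exp (c * s) := by positivity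
  have h5 := av_diff g hg b (bb (T (R K))) M hM hbM (hbb _) (E * Real.exp (c * s)) hαp (Nn (T (R K))) (R K)
    (R (K + 1)) (by
      rw [hR K]
      refine le_trans ?_ (Nat.le_ceil _)
      exact mul_le_mul_of_nonneg_right ha2 (Nat.cast_nonneg _)) (hbj K)
  have hNp : (0 : ℝ) < Nn (T (R K)) := by
    have := hT3 (R K)
    have h6 : 0 < Nn (T (R K)) := by omega
    exact_mod_cast h6
  have h6 : 2 * M * (((R K : ℝ) + 1) / (E * Real.exp (c * s))) / (Nn (T (R K)) : ℝ) ≤ η / 2 := by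
    rw [div_le_iff₀ hNp]
    have h7 := hT1 (R K)
    have h8 : 2 * M * (((R K : ℝ) + 1) / (E * Real.exp (c * s))) ≤ 2 * M * (((R K : ℝ) + 1) / An) := by
      gcongr
    have h9 : 2 * M * (((R K : ℝ) + 1) / An) = (η / 2) * (2 * M * (((R K : ℝ) + 1) / An) * (2 / η)) := by
      field_simp
    rw [h9] at h8
    refine h8.trans ?_
    gcongr
  have h7 : ‖av g (bb (T (R K))) (E * Real.exp (c * s)) (Nn (T (R K)))‖ ≤
      ‖av g b (E * Real.exp (c * s)) (Nn (T (R K)))‖ +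
      ‖av g b (E * Real.exp (c * s)) (Nn (T (R K))) - av g (bb (T (R K))) (E * Real.exp (c * s)) (Nn (T (R K)))‖ := by
    have := norm_sub_norm_le (av g (bb (T (R K))) (E * Real.exp (c * s)) (Nn (T (R K))))
      (av g b (E * Real.exp (c * s)) (Nn (T (R K))))
    rw [norm_sub_rev] at this
    linarith
  linarith

end Pool.Agent.Y957.Un
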