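import Pool.Agent.Y957.VK.Un2
import Pool.Agent.Y957.VK.PrimeCs

/-!
Orthogonality for most dilations, uniformly in the point: renormalized flows.
-/

set_option autoImplicit false

namespace Pool.Agent.Y957.Un

open Finset MeasureTheory Filter Topology
open Pool.Agent.Y957.VK

/-- the homeomorphism of a flow -/
noncomputable def flH {Y : Type*} [TopologicalSpace Y] (a : ℝ → Y → Y) (ha : IsFl a)
    (hac : Continuous fun p : ℝ × Y => a p.1 p.2) (t : ℝ) : Y ≃ₜ Y where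
  toFun := a t
  invFun := a (-t)
  left_inv y := by rw [← ha.add, neg_add_cancel, ha.zero]
  right_inv y := by rw [← ha.add, add_neg_cancel, ha.zero]
  continuous_toFun := hac.comp (continuous_const.prodMk continuous_id)
  continuous_invFun := hac.comp (continuous_const.prodMk continuous_id)

theorem flows {Y : Type*} [TopologicalSpace Y] (h a : ℝ → Y → Y) (hh : IsFl h) (ha : IsFl a)
    (hhc : Continuous fun p : ℝ × Y => h p.1 p.2) (hac : Continuous fun p : ℝ × Y => a p.1 p.2)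
    (c : ℝ) (hc : c ≠ 0) (hrel : ∀ s t y, h t (a s y) = a s (h (Real.exp (c * s) * t) y))
    (g : ℕ → ℂ) (hg : ∀ n, ‖g n‖ ≤ 1) (hneg : Neg g) (f : Y → ℂ) (hf : Continuous f)
    (hfs : HasCompactSupport f) (ε : ℝ) (hε : 0 < ε) :
    ∃ N0 : ℕ, ∀ N : ℕ, N0 ≤ N → ∀ y : Y, (volume.restrict (Set.Icc (0 : ℝ) 1))
      {s | ε ≤ ‖(1 / (N : ℂ)) * ∑ n ∈ Icc 1 N, g n * f (h n (a s y))‖} ≤ ENNReal.ofReal ε := by
  obtain ⟨C, hC⟩ := hfs.exists_bound_of_continuous hf
  have hC1 : ∀ y, ‖f y‖ ≤ |C| := fun y => (hC y).trans (le_abs_self C)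
  obtain ⟨δ1, hδ1, h1⟩ := unif_cs a ha hac f hf hfs (ε / 4) (by positivity)
  obtain ⟨K, hK⟩ := exists_nat_one_div_lt hδ1
  have hK0 : (0 : ℝ) < (K : ℝ) + 1 := by positivity
  have h2 : ∀ i : ℕ, ∃ δ : ℝ, 0 < δ ∧ ∀ s : ℝ, 0 ≤ s → s < δ → ∀ z,
      ‖f (a (i / (K + 1)) (h s z)) - f (a (i / (K + 1)) z)‖ ≤ ε / 4 := fun i =>
    unif_cs h hh hhc (fun z => f (a (i / (K + 1)) z))
      (hf.comp (flH a ha hac (i / (K + 1))).continuous)
      (hfs.comp_homeomorph (flH a ha hac (i / (K + 1)))) (ε / 4) (by positivity)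
  choose δ hδ h2' using h2
  obtain ⟨η, hη⟩ : ∃ η : ℝ, η = ε / (2 * (K + 2)) := ⟨_, rfl⟩
  have hη0 : 0 < η := by rw [hη]; positivity
  have hη2 : η ≤ ε / 2 := by
    rw [hη, div_le_div_iff₀ (by positivity) (by norm_num)]
    have : (0 : ℝ) ≤ K := Nat.cast_nonneg K
    nlinarith
  have h3 := fun i : ℕ => unif g hg hneg c (2 / δ i) (div_pos two_pos (hδ i)) hc |C| (abs_nonneg C) η hη0
  choose N0 hN0 using h3
  refine ⟨∑ i ∈ range (K + 2), N0 i, fun N hN y => ?_⟩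
  obtain ⟨b, hb⟩ : ∃ b : ℕ → ℕ → ℂ, ∀ i m, b i m = f (a (i / (K + 1)) (h (m / (2 / δ i)) y)) := ⟨_, fun _ _ => rfl⟩
  have hbM : ∀ i m, ‖b i m‖ ≤ |C| := fun i m => by rw [hb]; exact hC1 _
  have hsub : (Set.Icc (0 : ℝ) 1) ∩ {s | ε ≤ ‖(1 / (N : ℂ)) * ∑ n ∈ Icc 1 N, g n * f (h n (a s y))‖} ⊆
      ⋃ i ∈ range (K + 2), {s | η ≤ ‖av g (b i) ((2 / δ i) * Real.exp (c * s)) N‖} := by
    rintro s ⟨hs, hse⟩
    obtain ⟨i, hi⟩ : ∃ i, i = ⌊((K : ℝ) + 1) * s⌋₊ := ⟨_, rfl⟩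
    have hs0 : 0 ≤ ((K : ℝ) + 1) * s := mul_nonneg hK0.le hs.1
    have hi1 : (i : ℝ) ≤ ((K : ℝ) + 1) * s := by rw [hi]; exact Nat.floor_le hs0
    have hi2 : ((K : ℝ) + 1) * s < i + 1 := by rw [hi]; exact Nat.lt_floor_add_one _
    have hi3 : i < K + 2 := by
      have h4 : (i : ℝ) ≤ K + 1 := hi1.trans (by nlinarith [hs.2])
      have h5 : i ≤ K + 1 := by exact_mod_cast h4
      omega
    rw [Set.mem_iUnion₂]
    refine ⟨i, Finset.mem_range.2 hi3, ?_⟩
    simp only [Set.mem_ofPred_eq] at hse ⊢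
    have hr0 : 0 ≤ s - i / ((K : ℝ) + 1) := by
      rw [sub_nonneg, div_le_iff₀ hK0]
      linarith
    have hr1 : s - i / ((K : ℝ) + 1) < δ1 := by
      refine lt_trans ?_ hK
      rw [sub_lt_iff_lt_add, ← add_div, lt_div_iff₀ hK0]
      linarith
    have hE : 0 < 2 / δ i := div_pos two_pos (hδ i)
    have hterm : ∀ n : ℕ, ‖f (h n (a s y)) - b i ⌊(2 / δ i) * Real.exp (c * s) * n⌋₊‖ ≤ ε / 2 := by
      intro n
      obtain ⟨t, ht⟩ : ∃ t : ℝ, t = Real.exp (c * s) * n := ⟨_, rfl⟩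
      have ht0 : 0 ≤ t := by rw [ht]; positivity
      have e1 : (2 / δ i) * Real.exp (c * s) * n = (2 / δ i) * t := by rw [ht]; ring
      rw [e1, hb, hrel s n y, ← ht]
      obtain ⟨q, hq⟩ : ∃ q : ℕ, q = ⌊(2 / δ i) * t⌋₊ := ⟨_, rfl⟩
      rw [← hq]
      have hq1 : (q : ℝ) ≤ (2 / δ i) * t := by rw [hq]; exact Nat.floor_le (by positivity)
      have hq2 : (2 / δ i) * t < q + 1 := by rw [hq]; exact Nat.lt_floor_add_one _
      have hv0 : 0 ≤ t - q / (2 / δ i) := by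
        rw [sub_nonneg, div_le_iff₀ hE]
        linarith
      have hv1 : t - q / (2 / δ i) < δ i := by
        have h5 : t < (q + 1) / (2 / δ i) := by
          rw [lt_div_iff₀ hE]
          linarith
        have h6 : ((q : ℝ) + 1) / (2 / δ i) = q / (2 / δ i) + δ i / 2 := by
          have := (hδ i).ne'
          field_simp
        rw [h6] at h5
        have := hδ i
        linarith
      have k1 := h1 (s - i / ((K : ℝ) + 1)) hr0 hr1 (a (i / ((K : ℝ) + 1)) (h t y))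
      rw [← ha.add, sub_add_cancel] at k1
      have k2 := h2' i (t - q / (2 / δ i)) hv0 hv1 (h (q / (2 / δ i)) y)
      rw [← hh.add, sub_add_cancel] at k2
      have e2 : f (a s (h t y)) - f (a (i / ((K : ℝ) + 1)) (h (q / (2 / δ i)) y)) =
          (f (a s (h t y)) - f (a (i / ((K : ℝ) + 1)) (h t y))) +
          (f (a (i / ((K : ℝ) + 1)) (h t y)) - f (a (i / ((K : ℝ) + 1)) (h (q / (2 / δ i)) y))) := by ring
      rw [e2]
      refine (norm_add_le _ _).trans ?_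
      linarith
    have hdiff : ‖(1 / (N : ℂ)) * ∑ n ∈ Icc 1 N, g n * f (h n (a s y)) -
        av g (b i) ((2 / δ i) * Real.exp (c * s)) N‖ ≤ ε / 2 := by
      unfold av
      rw [← mul_sub, ← Finset.sum_sub_distrib, norm_mul, norm_div, norm_one, Complex.norm_natCast]
      have h5 : ‖∑ n ∈ Icc 1 N, (g n * f (h n (a s y)) - g n * b i ⌊(2 / δ i) * Real.exp (c * s) * n⌋₊)‖ ≤
          N * (ε / 2) := by
        refine (norm_sum_le _ _).trans ((Finset.sum_le_sum (g := fun _ => ε / 2) fun n _ => ?_).trans ?_)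
        · rw [← mul_sub, norm_mul]
          calc ‖g n‖ * ‖f (h n (a s y)) - b i ⌊(2 / δ i) * Real.exp (c * s) * n⌋₊‖ ≤ 1 * (ε / 2) := by
                gcongr
                · exact hg n
                · exact hterm n
            _ = ε / 2 := one_mul _
        · simp
      rcases Nat.eq_zero_or_pos N with hN1 | hN1
      · rw [hN1]
        simp
        positivity
      · have hNp : (0 : ℝ) < N := by exact_mod_cast hN1
        calc 1 / (N : ℝ) * ‖∑ n ∈ Icc 1 N, (g n * f (h n (a s y)) - g n * b i ⌊(2 / δ i) * Real.exp (c * s) * n⌋₊)‖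
            ≤ 1 / (N : ℝ) * (N * (ε / 2)) := by gcongr
          _ = ε / 2 := by field_simp
    have h6 := norm_sub_norm_le ((1 / (N : ℂ)) * ∑ n ∈ Icc 1 N, g n * f (h n (a s y)))
      (av g (b i) ((2 / δ i) * Real.exp (c * s)) N)
    linarith
  rw [Measure.restrict_apply' measurableSet_Icc, Set.inter_comm]
  have hsub2 : (Set.Icc (0 : ℝ) 1) ∩ {s | ε ≤ ‖(1 / (N : ℂ)) * ∑ n ∈ Icc 1 N, g n * f (h n (a s y))‖} ⊆
      ⋃ i ∈ range (K + 2), ({s | η ≤ ‖av g (b i) ((2 / δ i) * Real.exp (c * s)) N‖} ∩ Set.Icc (0 : ℝ) 1) := by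
    intro s hs
    have h4 := hsub hs
    rw [Set.mem_iUnion₂] at h4 ⊢
    obtain ⟨i, hi, h5⟩ := h4
    exact ⟨i, hi, h5, hs.1⟩
  refine (measure_mono hsub2).trans ((measure_biUnion_finset_le _ _).trans ?_)
  have h7 : ∀ i ∈ range (K + 2), volume ({s | η ≤ ‖av g (b i) ((2 / δ i) * Real.exp (c * s)) N‖} ∩
      Set.Icc (0 : ℝ) 1) ≤ ENNReal.ofReal η := by
    intro i hi
    have h8 : N0 i ≤ N := (Finset.single_le_sum (fun j _ => Nat.zero_le (N0 j)) hi).trans hN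
    have h9 := hN0 i N h8 (b i) (hbM i)
    rwa [Measure.restrict_apply' measurableSet_Icc] at h9
  refine (Finset.sum_le_sum h7).trans ?_
  rw [Finset.sum_const, Finset.card_range, nsmul_eq_mul]
  have h8 : ((K + 2 : ℕ) : ENNReal) * ENNReal.ofReal η = ENNReal.ofReal ((K + 2) * η) := by
    rw [ENNReal.ofReal_mul (by positivity)]
    congr 1
    have e9 : ((K : ℝ) + 2) = ((K + 2 : ℕ) : ℝ) := by push_cast; ring
    rw [e9, ENNReal.ofReal_natCast]
  rw [h8]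
  apply ENNReal.ofReal_le_ofReal
  rw [hη]
  have : ((K : ℝ) + 2) * (ε / (2 * (K + 2))) = ε / 2 := by field_simp
  rw [this]
  linarith

end Pool.Agent.Y957.Un
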