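import Pool.Agent.Y957.VK.Un3

/-!
Orthogonality for most dilations, uniformly in the point: functions vanishing at infinity.
-/

set_option autoImplicit false

namespace Pool.Agent.Y957.Un

open Finset MeasureTheory Filter Topology
open Pool.Agent.Y957.VK

/-- cutting off the small values -/
theorem cut {Y : Type*} [TopologicalSpace Y] (f : Y → ℂ) (hf : Continuous f)
    (h0 : Tendsto f (cocompact Y) (𝓝 0)) (ε : ℝ) (hε : 0 < ε) :
    ∃ g : Y → ℂ, Continuous g ∧ HasCompactSupport g ∧ ∀ y, ‖f y - g y‖ ≤ ε := by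
  refine ⟨fun y => ((max 0 (min 1 (2 * ‖f y‖ / ε - 1)) : ℝ) : ℂ) * f y, ?_, ?_, ?_⟩
  · exact (Complex.continuous_ofReal.comp (continuous_const.max (continuous_const.min
      (((continuous_const.mul hf.norm).div_const ε).sub continuous_const)))).mul hf
  · have hcl : IsClosed {y | ε / 2 ≤ ‖f y‖} := isClosed_le continuous_const hf.norm
    have h1 : {y | ‖f y‖ < ε / 2} ∈ cocompact Y := by
      have h2 := h0.norm
      rw [norm_zero] at h2
      exact h2.eventually_lt_const (by positivity)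
    obtain ⟨t, ht, hts⟩ := mem_cocompact.1 h1
    have hcomp : IsCompact {y | ε / 2 ≤ ‖f y‖} := by
      refine ht.of_isClosed_subset hcl fun y hy => ?_
      by_contra hyt
      have h3 : ‖f y‖ < ε / 2 := hts hyt
      have h4 : ε / 2 ≤ ‖f y‖ := hy
      linarith
    refine HasCompactSupport.intro' hcomp hcl fun y hy => ?_
    have h3 : ‖f y‖ < ε / 2 := not_le.1 hy
    have h4 : 2 * ‖f y‖ / ε - 1 ≤ 0 := by
      rw [sub_nonpos, div_le_one hε]
      linarith
    have h5 : max 0 (min 1 (2 * ‖f y‖ / ε - 1)) = 0 := max_eq_left ((min_le_right _ _).trans h4)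
    simp only [h5, Complex.ofReal_zero, zero_mul]
  · intro y
    obtain ⟨r, hr⟩ : ∃ r, r = max 0 (min 1 (2 * ‖f y‖ / ε - 1)) := ⟨_, rfl⟩
    have e : f y - ((max 0 (min 1 (2 * ‖f y‖ / ε - 1)) : ℝ) : ℂ) * f y = ((1 - r : ℝ) : ℂ) * f y := by
      rw [hr]
      push_cast
      ring
    have hr0 : 0 ≤ r := by rw [hr]; exact le_max_left _ _
    have hr1 : r ≤ 1 := by rw [hr]; exact max_le zero_le_one (min_le_left _ _)
    show ‖f y - ((max 0 (min 1 (2 * ‖f y‖ / ε - 1)) : ℝ) : ℂ) * f y‖ ≤ ε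
    rw [e, norm_mul, Complex.norm_real, Real.norm_eq_abs, abs_of_nonneg (by linarith)]
    rcases le_or_gt ε ‖f y‖ with h | h
    · have h1 : 1 ≤ 2 * ‖f y‖ / ε - 1 := by
        rw [le_sub_iff_add_le, le_div_iff₀ hε]
        linarith
      have h2 : r = 1 := by rw [hr, min_eq_left h1, max_eq_right zero_le_one]
      rw [h2, sub_self, zero_mul]
      exact hε.le
    · calc (1 - r) * ‖f y‖ ≤ 1 * ε := by
            apply mul_le_mul (by linarith) h.le (norm_nonneg _) zero_le_one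
        _ = ε := one_mul _

theorem flows0 {Y : Type*} [TopologicalSpace Y] (h a : ℝ → Y → Y) (hh : IsFl h) (ha : IsFl a)
    (hhc : Continuous fun p : ℝ × Y => h p.1 p.2) (hac : Continuous fun p : ℝ × Y => a p.1 p.2)
    (c : ℝ) (hc : c ≠ 0) (hrel : ∀ s t y, h t (a s y) = a s (h (Real.exp (c * s) * t) y))
    (g : ℕ → ℂ) (hg : ∀ n, ‖g n‖ ≤ 1) (hneg : Neg g) (f : Y → ℂ) (hf : Continuous f)
    (hf0 : Tendsto f (cocompact Y) (𝓝 0)) (ε : ℝ) (hε : 0 < ε) :
    ∃ N0 : ℕ, ∀ N : ℕ, N0 ≤ N → ∀ y : Y, (volume.restrict (Set.Icc (0 : ℝ) 1))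
      {s | ε ≤ ‖(1 / (N : ℂ)) * ∑ n ∈ Icc 1 N, g n * f (h n (a s y))‖} ≤ ENNReal.ofReal ε := by
  obtain ⟨F, hF, hFs, hfF⟩ := cut f hf hf0 (ε / 2) (by positivity)
  obtain ⟨N0, hN0⟩ := flows h a hh ha hhc hac c hc hrel g hg hneg F hF hFs (ε / 2) (by positivity)
  refine ⟨N0, fun N hN y => ?_⟩
  refine (measure_mono ?_).trans ((hN0 N hN y).trans (ENNReal.ofReal_le_ofReal (by linarith)))
  intro s hs
  simp only [Set.mem_ofPred_eq] at hs ⊢
  have e : (1 / (N : ℂ)) * ∑ n ∈ Icc 1 N, g n * f (h n (a s y)) =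
      (1 / (N : ℂ)) * ∑ n ∈ Icc 1 N, g n * F (h n (a s y)) +
        (1 / (N : ℂ)) * ∑ n ∈ Icc 1 N, g n * (f (h n (a s y)) - F (h n (a s y))) := by
    rw [← mul_add, ← Finset.sum_add_distrib]
    congr 1
    exact Finset.sum_congr rfl fun n _ => by ring
  have h1 : ‖(1 / (N : ℂ)) * ∑ n ∈ Icc 1 N, g n * (f (h n (a s y)) - F (h n (a s y)))‖ ≤ ε / 2 := by
    rw [norm_mul, norm_div, norm_one, Complex.norm_natCast]
    have h5 : ‖∑ n ∈ Icc 1 N, g n * (f (h n (a s y)) - F (h n (a s y)))‖ ≤ N * (ε / 2) := by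
      refine (norm_sum_le _ _).trans ((Finset.sum_le_sum (g := fun _ => ε / 2) fun n _ => ?_).trans ?_)
      · rw [norm_mul]
        calc ‖g n‖ * ‖f (h n (a s y)) - F (h n (a s y))‖ ≤ 1 * (ε / 2) := by
              gcongr
              · exact hg n
              · exact hfF _
          _ = ε / 2 := one_mul _
      · simp
    rcases Nat.eq_zero_or_pos N with hN1 | hN1
    · rw [hN1]
      simp
      positivity
    · have hNp : (0 : ℝ) < N := by exact_mod_cast hN1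
      calc 1 / (N : ℝ) * ‖∑ n ∈ Icc 1 N, g n * (f (h n (a s y)) - F (h n (a s y)))‖
          ≤ 1 / (N : ℝ) * (N * (ε / 2)) := by gcongr
        _ = ε / 2 := by field_simp
  rw [e] at hs
  have h2 := norm_add_le ((1 / (N : ℂ)) * ∑ n ∈ Icc 1 N, g n * F (h n (a s y)))
    ((1 / (N : ℂ)) * ∑ n ∈ Icc 1 N, g n * (f (h n (a s y)) - F (h n (a s y))))
  linarith

end Pool.Agent.Y957.Un
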